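import Pool.Agent.H5.PNT.Core

/-!
# [H43 LF SMO] part A: the trapezoid and its Fourier transform
-/

namespace Pool.Agent.H43.LF

open MeasureTheory Filter Topology Real Set Pool.Agent.H5.PNT
open scoped FourierTransform

theorem smo_tri_inv (L : ℝ) (hL : 0 < L) (v : ℝ) :
    ((tri L v : ℝ) : ℂ) =
      ∫ x : ℝ, ((L * K (L * x) : ℝ) : ℂ) * Complex.exp (2 * π * v * x * Complex.I) := by
  have hi : Integrable (fun t => ((tri L t : ℝ) : ℂ)) := (tri_integrable L hL).ofReal
  have hc : Continuous (fun t => ((tri L t : ℝ) : ℂ)) :=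
    Complex.continuous_ofReal.comp (tri_continuous L)
  have hF : 𝓕 (fun t => ((tri L t : ℝ) : ℂ)) = fun x => ((L * K (L * x) : ℝ) : ℂ) := by
    funext x
    exact fourier_tri L hL x
  have hFi : Integrable (𝓕 (fun t => ((tri L t : ℝ) : ℂ))) := by
    rw [hF]
    have h1 := (K_scaled_integrable L 0 hL).ofReal (𝕜 := ℂ)
    simpa using h1
  have h := congrFun (hc.fourierInv_fourier_eq hi hFi) v
  rw [hF, Real.fourierInv_eq'] at h
  rw [← h]
  refine integral_congr_ae (Eventually.of_forall fun x => ?_)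
  simp only [smul_eq_mul]
  rw [mul_comm]
  congr 2
  simp
  ring

theorem smo_mul_tri (L : ℝ) (hL : 0 < L) (v : ℝ) : L * tri L v = max 0 (L - |v|) := by
  unfold tri
  rw [mul_max_of_nonneg _ _ hL.le, mul_zero]
  congr 1
  field_simp

/-- the trapezoid -/
noncomputable def smoW (L η v : ℝ) : ℝ := ((L + η) * tri (L + η) v - L * tri L v) / η

/-- its Fourier transform -/
noncomputable def smoK (L η x : ℝ) : ℝ :=
  ((L + η) * ((L + η) * K ((L + η) * x)) - L * (L * K (L * x))) / η

theorem smoW_one {L η v : ℝ} (hL : 0 < L) (hη : 0 < η) (hv : |v| ≤ L) : smoW L η v = 1 := by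
  unfold smoW
  rw [smo_mul_tri L hL, smo_mul_tri (L + η) (by linarith), max_eq_right (by linarith),
    max_eq_right (by linarith)]
  field_simp
  ring

theorem smoW_zero {L η v : ℝ} (hL : 0 < L) (hη : 0 < η) (hv : L + η ≤ |v|) : smoW L η v = 0 := by
  unfold smoW
  rw [smo_mul_tri L hL, smo_mul_tri (L + η) (by linarith), max_eq_left (by linarith),
    max_eq_left (by linarith)]
  simp

theorem smoW_bd {L η : ℝ} (hL : 0 < L) (hη : 0 < η) (v : ℝ) : 0 ≤ smoW L η v ∧ smoW L η v ≤ 1 := by
  unfold smoW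
  rw [smo_mul_tri L hL, smo_mul_tri (L + η) (by linarith), div_le_one hη]
  constructor
  · apply div_nonneg _ hη.le
    rw [sub_nonneg]
    exact max_le_max le_rfl (by linarith)
  · rw [sub_le_iff_le_add]
    apply max_le
    · have : (0 : ℝ) ≤ max 0 (L - |v|) := le_max_left _ _
      linarith
    · have : L - |v| ≤ max 0 (L - |v|) := le_max_right _ _
      linarith

theorem smoK_cont (L η : ℝ) : Continuous (smoK L η) := by
  unfold smoK
  have h1 : Continuous (fun x : ℝ => K ((L + η) * x)) := K_continuous.comp (by fun_prop)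
  have h2 : Continuous (fun x : ℝ => K (L * x)) := K_continuous.comp (by fun_prop)
  fun_prop

theorem smoK_int {L η : ℝ} (hL : 0 < L) (hη : 0 < η) : Integrable (smoK L η) := by
  unfold smoK
  have h1 : Integrable (fun x : ℝ => (L + η) * ((L + η) * K ((L + η) * x))) := by
    have := (K_scaled_integrable (L + η) 0 (by linarith)).const_mul (L + η)
    simpa using this
  have h2 : Integrable (fun x : ℝ => L * (L * K (L * x))) := by
    have := (K_scaled_integrable L 0 hL).const_mul L
    simpa using this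
  exact (h1.sub h2).div_const η

theorem smo_inv {L η : ℝ} (hL : 0 < L) (hη : 0 < η) (v : ℝ) :
    ((smoW L η v : ℝ) : ℂ) =
      ∫ x : ℝ, ((smoK L η x : ℝ) : ℂ) * Complex.exp (2 * π * v * x * Complex.I) := by
  have hint : ∀ M : ℝ, 0 < M → Integrable (fun x : ℝ => ((M * K (M * x) : ℝ) : ℂ) *
      Complex.exp (2 * π * v * x * Complex.I)) := by
    intro M hM
    have h1 : Integrable (fun x : ℝ => ((M * K (M * x) : ℝ) : ℂ)) := by
      have := (K_scaled_integrable M 0 hM).ofReal (𝕜 := ℂ)
      simpa using this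
    apply h1.mono
    · apply Continuous.aestronglyMeasurable
      have h2 : Continuous (fun x : ℝ => K (M * x)) := K_continuous.comp (by fun_prop)
      fun_prop
    · filter_upwards with x
      rw [norm_mul, show (2 * (π : ℂ) * v * x * Complex.I) = ((2 * π * v * x : ℝ) : ℂ) * Complex.I by
        push_cast; ring, Complex.norm_exp_ofReal_mul_I, mul_one]
  have h1 := smo_tri_inv L hL v
  have h2 := smo_tri_inv (L + η) (by linarith) v
  have h3 : ((smoW L η v : ℝ) : ℂ) = ((L + η : ℝ) : ℂ) * ((tri (L + η) v : ℝ) : ℂ) * (η : ℂ)⁻¹ -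
      (L : ℂ) * ((tri L v : ℝ) : ℂ) * (η : ℂ)⁻¹ := by
    unfold smoW
    push_cast
    ring
  rw [h3, h1, h2, ← integral_const_mul, ← integral_const_mul, ← integral_mul_const,
    ← integral_mul_const, ← integral_sub]
  · refine integral_congr_ae (Eventually.of_forall fun x => ?_)
    simp only
    unfold smoK
    push_cast
    ring
  · exact ((hint (L + η) (by linarith)).const_mul _).mul_const _
  · exact ((hint L hL).const_mul _).mul_const _

theorem smoK_eq {L η : ℝ} (hL : 0 < L) (hη : 0 < η) {x : ℝ} (hx : x ≠ 0) :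
    smoK L η x = (Real.cos (2 * π * (L * x)) - Real.cos (2 * π * ((L + η) * x))) /
      (2 * π ^ 2 * η * x ^ 2) := by
  unfold smoK
  have hL1 : L + η ≠ 0 := by linarith
  rw [K_eq _ (mul_ne_zero hL1 hx), K_eq _ (mul_ne_zero hL.ne' hx)]
  have := Real.pi_ne_zero
  have := hη.ne'
  have := hL.ne'
  field_simp
  ring

theorem smo_cos (A B : ℝ) : |Real.cos A - Real.cos B| ≤ 2 ∧ |Real.cos A - Real.cos B| ≤ |A - B| ∧
    |Real.cos A - Real.cos B| ≤ |A + B| * |A - B| / 2 := by
  have e : Real.cos A - Real.cos B = -2 * Real.sin ((A + B) / 2) * Real.sin ((A - B) / 2) :=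
    Real.cos_sub_cos A B
  have h1 : |Real.sin ((A + B) / 2)| ≤ 1 := Real.abs_sin_le_one _
  have h2 : |Real.sin ((A - B) / 2)| ≤ 1 := Real.abs_sin_le_one _
  have h3 : |Real.sin ((A + B) / 2)| ≤ |A + B| / 2 := by
    have := Real.abs_sin_le_abs (x := (A + B) / 2)
    rwa [abs_div, abs_two] at this
  have h4 : |Real.sin ((A - B) / 2)| ≤ |A - B| / 2 := by
    have := Real.abs_sin_le_abs (x := (A - B) / 2)
    rwa [abs_div, abs_two] at this
  have e2 : |Real.cos A - Real.cos B| =
      2 * (|Real.sin ((A + B) / 2)| * |Real.sin ((A - B) / 2)|) := by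
    rw [e, abs_mul, abs_mul, abs_neg, abs_two]
    ring
  have g1 := abs_nonneg (Real.sin ((A + B) / 2))
  have g2 := abs_nonneg (Real.sin ((A - B) / 2))
  have g3 := abs_nonneg (A + B)
  have g4 := abs_nonneg (A - B)
  rw [e2]
  refine ⟨?_, ?_, ?_⟩
  · nlinarith
  · nlinarith
  · have := mul_le_mul h3 h4 g2 (by linarith)
    nlinarith

theorem smoK_bd {L η : ℝ} (hL : 0 < L) (hη : 0 < η) (h2 : 2 * L + η ≤ 2) (x : ℝ) :
    |smoK L η x| ≤ 2 ∧ (x ≠ 0 → |smoK L η x| ≤ 1 / |x|) ∧
      (x ≠ 0 → |smoK L η x| ≤ 1 / (η * |x| ^ 2)) := by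
  have hpi : 3 < π := Real.pi_gt_three
  rcases eq_or_ne x 0 with rfl | hx
  · refine ⟨?_, fun h => absurd rfl h, fun h => absurd rfl h⟩
    have e : smoK L η 0 = 2 * L + η := by
      unfold smoK
      rw [mul_zero, mul_zero, K_zero]
      field_simp
      ring
    rw [e, abs_of_pos (by linarith)]
    exact h2
  · have hx0 : 0 < |x| := abs_pos.2 hx
    have hx2 : x ^ 2 = |x| ^ 2 := (sq_abs x).symm
    set A := 2 * π * (L * x) with hA
    set B := 2 * π * ((L + η) * x) with hB
    obtain ⟨c1, c2, c3⟩ := smo_cos A B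
    have eAB : |A - B| = 2 * π * η * |x| := by
      rw [hA, hB, show 2 * π * (L * x) - 2 * π * ((L + η) * x) = -(2 * π * η * x) by ring, abs_neg,
        abs_mul, abs_of_pos (by positivity)]
    have eApB : |A + B| = 2 * π * (2 * L + η) * |x| := by
      rw [hA, hB, show 2 * π * (L * x) + 2 * π * ((L + η) * x) = 2 * π * (2 * L + η) * x by ring,
        abs_mul, abs_of_pos (by positivity)]
    have hden : 0 < 2 * π ^ 2 * η * |x| ^ 2 := by positivity
    have eK : |smoK L η x| = |Real.cos A - Real.cos B| / (2 * π ^ 2 * η * |x| ^ 2) := by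
      rw [smoK_eq hL hη hx, abs_div, ← hx2, abs_of_pos (a := 2 * π ^ 2 * η * x ^ 2)
        (by rw [hx2]; exact hden)]
    rw [eK]
    refine ⟨?_, fun _ => ?_, fun _ => ?_⟩
    · rw [div_le_iff₀ hden]
      refine c3.trans ?_
      rw [eAB, eApB]
      have : 2 * π * (2 * L + η) * |x| * (2 * π * η * |x|) / 2 =
          (2 * L + η) * (2 * π ^ 2 * η * |x| ^ 2) := by ring
      rw [this]
      exact mul_le_mul_of_nonneg_right h2 hden.le
    · rw [div_le_div_iff₀ hden hx0, one_mul]
      have h5 : |Real.cos A - Real.cos B| * |x| ≤ (2 * π * η * |x|) * |x| :=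
        mul_le_mul_of_nonneg_right (c2.trans eAB.le) hx0.le
      refine h5.trans ?_
      have h6 : 0 < η * |x| ^ 2 := by positivity
      nlinarith
    · rw [div_le_div_iff₀ hden (by positivity), one_mul]
      have h6 : 0 < η * |x| ^ 2 := by positivity
      have h5 : |Real.cos A - Real.cos B| * (η * |x| ^ 2) ≤ 2 * (η * |x| ^ 2) :=
        mul_le_mul_of_nonneg_right c1 h6.le
      refine h5.trans ?_
      have h7 : 9 < π ^ 2 := by nlinarith
      nlinarith

end Pool.Agent.H43.LF
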