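import Mathlib

/-!
# [H43 LF SMO] part B: the majorant
-/

namespace Pool.Agent.H43.LF

open MeasureTheory Filter Topology Real Set

theorem smo_int_abs {f : ℝ → ℝ} (hf : IntegrableOn f (Ioi 0)) : Integrable (fun x => f |x|) := by
  have h1 : IntegrableOn (fun x => f |x|) (Ioi 0) := by
    refine hf.congr_fun (fun x hx => ?_) measurableSet_Ioi
    have hx' : (0 : ℝ) < x := hx
    rw [abs_of_pos hx']
  have h2 : IntegrableOn (fun x ↦ f |x|) (Iic 0) := by
    rw [← Measure.map_neg_eq_self (volume : Measure ℝ)]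
    let m : MeasurableEmbedding fun x : ℝ => -x := (Homeomorph.neg ℝ).measurableEmbedding
    rw [m.integrableOn_map_iff]
    simp_rw [Function.comp_def, abs_neg, neg_preimage, neg_Iic, neg_zero]
    exact Iff.mpr integrableOn_Ici_iff_integrableOn_Ioi h1
  have h3 := h2.union h1
  rwa [Iic_union_Ioi, integrableOn_univ] at h3

theorem smo_tail (a η : ℝ) (ha : 0 < a) :
    IntegrableOn (fun r : ℝ => 1 / (η * r ^ 2)) (Ioi a) ∧
      ∫ r in Ioi a, 1 / (η * r ^ 2) = 1 / (η * a) := by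
  have e : ∀ r ∈ Ioi a, η⁻¹ * r ^ (-2 : ℝ) = 1 / (η * r ^ 2) := by
    intro r hr
    have hr0 : 0 < r := ha.trans hr
    rw [Real.rpow_neg hr0.le, Real.rpow_two]
    field_simp
  have h1 : IntegrableOn (fun r : ℝ => η⁻¹ * r ^ (-2 : ℝ)) (Ioi a) :=
    (integrableOn_Ioi_rpow_of_lt (by norm_num) ha).const_mul _
  refine ⟨h1.congr_fun e measurableSet_Ioi, ?_⟩
  rw [← setIntegral_congr_fun measurableSet_Ioi e, integral_const_mul,
    integral_Ioi_rpow_of_lt (by norm_num) ha]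
  have : (-2 : ℝ) + 1 = -1 := by norm_num
  rw [this, Real.rpow_neg ha.le, Real.rpow_one]
  field_simp

/-- the majorant as a function of `|x|` -/
noncomputable def smoH (η c D M : ℝ) (r : ℝ) : ℝ :=
  D * ((Iic (1 : ℝ)).indicator (fun _ => 2) r + (Ioc 1 (1 / η)).indicator (fun r => 1 / r) r +
    (Ioi (1 / η)).indicator (fun r => 1 / (η * r ^ 2)) r) +
  M * (Ioi c).indicator (fun r => 1 / (η * r ^ 2)) r

theorem smoH_int {η c D M : ℝ} (hη : 0 < η) (hη1 : η ≤ 1) (hc : 0 < c) :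
    IntegrableOn (smoH η c D M) (Ioi 0) ∧
      ∫ r in Ioi (0 : ℝ), smoH η c D M r = D * (3 + Real.log (1 / η)) + M / (η * c) := by
  have h1η : 1 ≤ 1 / η := by rwa [le_div_iff₀ hη, one_mul]
  have i1 : IntegrableOn ((Iic (1 : ℝ)).indicator (fun _ => (2 : ℝ))) (Ioi 0) := by
    rw [IntegrableOn, integrable_indicator_iff measurableSet_Iic, IntegrableOn,
      Measure.restrict_restrict measurableSet_Iic]
    have : Iic (1 : ℝ) ∩ Ioi 0 = Ioc 0 1 := by
      ext x
      simp [and_comm]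
    rw [this]
    exact integrable_const _
  have v1 : ∫ r in Ioi (0 : ℝ), (Iic (1 : ℝ)).indicator (fun _ => (2 : ℝ)) r = 2 := by
    rw [setIntegral_indicator measurableSet_Iic]
    have : Ioi (0 : ℝ) ∩ Iic 1 = Ioc 0 1 := by
      ext x
      simp
    rw [this]
    simp
  have hcont : ContinuousOn (fun r : ℝ => 1 / r) (Icc 1 (1 / η)) := by
    apply ContinuousOn.div continuousOn_const continuousOn_id
    intro x hx
    have : (0 : ℝ) < x := lt_of_lt_of_le one_pos hx.1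
    exact this.ne'
  have i2 : IntegrableOn ((Ioc 1 (1 / η)).indicator (fun r : ℝ => 1 / r)) (Ioi 0) := by
    rw [IntegrableOn, integrable_indicator_iff measurableSet_Ioc]
    have h2 : IntegrableOn (fun r : ℝ => 1 / r) (Ioc 1 (1 / η)) :=
      hcont.integrableOn_Icc.mono_set Ioc_subset_Icc_self
    exact h2.mono_measure Measure.restrict_le_self
  have v2 : ∫ r in Ioi (0 : ℝ), (Ioc 1 (1 / η)).indicator (fun r : ℝ => 1 / r) r =
      Real.log (1 / η) := by
    rw [setIntegral_indicator measurableSet_Ioc]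
    have : Ioi (0 : ℝ) ∩ Ioc 1 (1 / η) = Ioc 1 (1 / η) := by
      apply inter_eq_right.2
      intro x hx
      exact lt_trans one_pos hx.1
    rw [this, ← intervalIntegral.integral_of_le h1η, integral_one_div_of_pos one_pos (by positivity)]
    simp
  have tail : ∀ a : ℝ, 0 < a →
      IntegrableOn ((Ioi a).indicator (fun r : ℝ => 1 / (η * r ^ 2))) (Ioi 0) ∧
      ∫ r in Ioi (0 : ℝ), (Ioi a).indicator (fun r : ℝ => 1 / (η * r ^ 2)) r = 1 / (η * a) := by
    intro a ha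
    obtain ⟨t1, t2⟩ := smo_tail a η ha
    constructor
    · rw [IntegrableOn, integrable_indicator_iff measurableSet_Ioi]
      exact t1.mono_measure Measure.restrict_le_self
    · rw [setIntegral_indicator measurableSet_Ioi]
      have : Ioi (0 : ℝ) ∩ Ioi a = Ioi a := by
        apply inter_eq_right.2
        intro x hx
        exact lt_trans ha hx
      rw [this, t2]
  obtain ⟨i3, v3⟩ := tail (1 / η) (by positivity)
  obtain ⟨i4, v4⟩ := tail c hc
  have i12 := i1.add i2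
  have i123 := i12.add i3
  constructor
  · exact (i123.const_mul D).add (i4.const_mul M)
  · have e0 : ∫ r in Ioi (0 : ℝ), smoH η c D M r =
        D * (∫ r in Ioi (0 : ℝ), ((Iic (1 : ℝ)).indicator (fun _ => 2) r +
          (Ioc 1 (1 / η)).indicator (fun r => 1 / r) r +
          (Ioi (1 / η)).indicator (fun r => 1 / (η * r ^ 2)) r)) +
        M * ∫ r in Ioi (0 : ℝ), (Ioi c).indicator (fun r => 1 / (η * r ^ 2)) r := by
      rw [← integral_const_mul, ← integral_const_mul]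
      exact integral_add (i123.const_mul D) (i4.const_mul M)
    have e1 : ∫ r in Ioi (0 : ℝ), ((Iic (1 : ℝ)).indicator (fun _ => 2) r +
        (Ioc 1 (1 / η)).indicator (fun r => 1 / r) r +
        (Ioi (1 / η)).indicator (fun r => 1 / (η * r ^ 2)) r) = 2 + Real.log (1 / η) + 1 := by
      have e2 : ∫ r in Ioi (0 : ℝ), ((Iic (1 : ℝ)).indicator (fun _ => 2) r +
          (Ioc 1 (1 / η)).indicator (fun r => 1 / r) r +
          (Ioi (1 / η)).indicator (fun r => 1 / (η * r ^ 2)) r) =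
          (∫ r in Ioi (0 : ℝ), ((Iic (1 : ℝ)).indicator (fun _ => 2) r +
          (Ioc 1 (1 / η)).indicator (fun r => 1 / r) r)) +
          ∫ r in Ioi (0 : ℝ), (Ioi (1 / η)).indicator (fun r => 1 / (η * r ^ 2)) r :=
        integral_add i12 i3
      have e3 : ∫ r in Ioi (0 : ℝ), ((Iic (1 : ℝ)).indicator (fun _ => 2) r +
          (Ioc 1 (1 / η)).indicator (fun r => 1 / r) r) =
          (∫ r in Ioi (0 : ℝ), (Iic (1 : ℝ)).indicator (fun _ => 2) r) +
          ∫ r in Ioi (0 : ℝ), (Ioc 1 (1 / η)).indicator (fun r => 1 / r) r :=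
        integral_add i1 i2
      rw [e2, e3, v1, v2, v3]
      congr 1
      field_simp
    rw [e0, e1, v4]
    field_simp
    ring

theorem smoH_abs {η c D M : ℝ} (hη : 0 < η) (hη1 : η ≤ 1) (hc : 0 < c) :
    Integrable (fun x : ℝ => smoH η c D M |x|) ∧
      ∫ x : ℝ, smoH η c D M |x| = 2 * (D * (3 + Real.log (1 / η)) + M / (η * c)) := by
  obtain ⟨h1, h2⟩ := smoH_int (D := D) (M := M) hη hη1 hc
  refine ⟨smo_int_abs h1, ?_⟩
  rw [integral_comp_abs, h2]

/-- the majorant bounds products -/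
theorem smoH_le {η c D M k F : ℝ} (hη : 0 < η) (hD : 0 ≤ D) (hM : 0 ≤ M) (x : ℝ)
    (hk0 : 0 ≤ k) (hk1 : k ≤ 2) (hk2 : x ≠ 0 → k ≤ 1 / |x|) (hk3 : x ≠ 0 → k ≤ 1 / (η * |x| ^ 2))
    (hc : 0 < c) (hF1 : |x| ≤ c → F ≤ D) (hF2 : F ≤ M) : k * F ≤ smoH η c D M |x| := by
  unfold smoH
  set r := |x| with hr
  have hr0 : 0 ≤ r := abs_nonneg x
  have n1 : 0 ≤ (Iic (1 : ℝ)).indicator (fun _ => (2 : ℝ)) r :=
    indicator_nonneg (fun _ _ => by norm_num) _
  have n2 : 0 ≤ (Ioc 1 (1 / η)).indicator (fun r : ℝ => 1 / r) r :=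
    indicator_nonneg (fun y hy => by
      have : 0 < y := lt_trans one_pos hy.1
      positivity) _
  have n3 : 0 ≤ (Ioi (1 / η)).indicator (fun r : ℝ => 1 / (η * r ^ 2)) r :=
    indicator_nonneg (fun y hy => by positivity) _
  have n4 : 0 ≤ (Ioi c).indicator (fun r : ℝ => 1 / (η * r ^ 2)) r :=
    indicator_nonneg (fun y hy => by positivity) _
  have key : k ≤ (Iic (1 : ℝ)).indicator (fun _ => 2) r +
      (Ioc 1 (1 / η)).indicator (fun r => 1 / r) r +
      (Ioi (1 / η)).indicator (fun r => 1 / (η * r ^ 2)) r := by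
    by_cases h1 : r ≤ 1
    · rw [indicator_of_mem (show r ∈ Iic (1 : ℝ) from h1)]
      linarith
    · push Not at h1
      have hx : x ≠ 0 := by
        intro h
        rw [hr, h, abs_zero] at h1
        linarith
      by_cases h2 : r ≤ 1 / η
      · rw [indicator_of_mem (show r ∈ Ioc 1 (1 / η) from ⟨h1, h2⟩)]
        have := hk2 hx
        linarith
      · push Not at h2
        rw [indicator_of_mem (show r ∈ Ioi (1 / η) from h2)]
        have := hk3 hx
        linarith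
  by_cases hcr : r ≤ c
  · have h1 : k * F ≤ k * D := mul_le_mul_of_nonneg_left (hF1 hcr) hk0
    have h2 := mul_le_mul_of_nonneg_left key hD
    have h3 := mul_nonneg hM n4
    linarith
  · push Not at hcr
    have hx : x ≠ 0 := by
      intro h
      rw [hr, h, abs_zero] at hcr
      linarith
    rw [indicator_of_mem (show r ∈ Ioi c from hcr)]
    have h1 : k * F ≤ k * M := mul_le_mul_of_nonneg_left hF2 hk0
    have h2 := mul_le_mul_of_nonneg_left (hk3 hx) hM
    have h3 : 0 ≤ D * ((Iic (1 : ℝ)).indicator (fun _ => 2) r +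
      (Ioc 1 (1 / η)).indicator (fun r => 1 / r) r +
      (Ioi (1 / η)).indicator (fun r => 1 / (η * r ^ 2)) r) :=
      mul_nonneg hD (by linarith)
    linarith

/-! ### the series -/

theorem smo_zeta_step {δ : ℝ} (hδ : 0 < δ) (M : ℕ) (hM : 1 ≤ M) :
    ((M + 1 : ℕ) : ℝ) ^ (-(1 + δ)) ≤ (1 / δ) * ((M : ℝ) ^ (-δ) - ((M + 1 : ℕ) : ℝ) ^ (-δ)) := by
  have hM0 : (0 : ℝ) < M := by exact_mod_cast hM
  have hM1 : (0 : ℝ) < ((M + 1 : ℕ) : ℝ) := by positivity
  set b := ((M + 1 : ℕ) : ℝ) with hb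
  have hbM : (M : ℝ) = b * (1 - 1 / b) := by
    rw [hb]
    push_cast
    field_simp
    ring
  have hq : 0 < 1 - 1 / b := by
    have : 0 < b * (1 - 1 / b) := by rw [← hbM]; exact hM0
    exact (mul_pos_iff_of_pos_left hM1).1 this
  have h1 : 1 + δ / b ≤ (1 - 1 / b) ^ (-δ) := by
    rw [Real.rpow_def_of_pos hq]
    have h2 : Real.log (1 - 1 / b) ≤ -(1 / b) := by
      have := Real.log_le_sub_one_of_pos hq
      linarith
    have h3 : δ / b ≤ Real.log (1 - 1 / b) * -δ := by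
      have : Real.log (1 - 1 / b) * δ ≤ -(1 / b) * δ := mul_le_mul_of_nonneg_right h2 hδ.le
      have e : δ / b = 1 / b * δ := by ring
      linarith
    have h4 := Real.add_one_le_exp (Real.log (1 - 1 / b) * -δ)
    linarith
  have h5 : (M : ℝ) ^ (-δ) = b ^ (-δ) * (1 - 1 / b) ^ (-δ) := by
    rw [hbM, Real.mul_rpow hM1.le hq.le]
  have h6 : b ^ (-(1 + δ)) = b ^ (-δ) / b := by
    rw [show -(1 + δ) = -δ - 1 by ring, Real.rpow_sub_one hM1.ne']
  have h7 : 0 < b ^ (-δ) := Real.rpow_pos_of_pos hM1 _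
  rw [h5, h6]
  have h8 : b ^ (-δ) * (1 + δ / b) ≤ b ^ (-δ) * (1 - 1 / b) ^ (-δ) :=
    mul_le_mul_of_nonneg_left h1 h7.le
  have h9 : b ^ (-δ) / b = 1 / δ * (b ^ (-δ) * (1 + δ / b) - b ^ (-δ)) := by
    field_simp
    ring
  rw [h9]
  exact mul_le_mul_of_nonneg_left (by linarith) (by positivity)

theorem smo_zeta_part {δ : ℝ} (hδ : 0 < δ) (M : ℕ) (hM : 1 ≤ M) :
    ∑ n ∈ Finset.range (M + 1), (n : ℝ) ^ (-(1 + δ)) ≤ 1 + 1 / δ - (1 / δ) * (M : ℝ) ^ (-δ) := by
  induction M, hM using Nat.le_induction with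
  | base =>
    rw [Finset.sum_range_succ, Finset.sum_range_one]
    simp only [Nat.cast_zero, Nat.cast_one, Real.one_rpow]
    rw [Real.zero_rpow (by linarith)]
    linarith
  | succ M hM ih =>
    rw [Finset.sum_range_succ]
    have := smo_zeta_step hδ M hM
    linarith

theorem smo_zeta {δ : ℝ} (hδ : 0 < δ) : Summable (fun n : ℕ => (n : ℝ) ^ (-(1 + δ))) ∧
    ∑' n : ℕ, (n : ℝ) ^ (-(1 + δ)) ≤ 1 + 1 / δ := by
  have hs : Summable (fun n : ℕ => (n : ℝ) ^ (-(1 + δ))) :=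
    Real.summable_nat_rpow.2 (by linarith)
  refine ⟨hs, ?_⟩
  refine Real.tsum_le_of_sum_range_le (fun n => Real.rpow_nonneg (Nat.cast_nonneg _) _) ?_
  intro n
  have h1 : ∑ i ∈ Finset.range n, (i : ℝ) ^ (-(1 + δ)) ≤
      ∑ i ∈ Finset.range (n + 1 + 1), (i : ℝ) ^ (-(1 + δ)) := by
    apply Finset.sum_le_sum_of_subset_of_nonneg
    · exact Finset.range_mono (by omega)
    · intro i _ _
      exact Real.rpow_nonneg (Nat.cast_nonneg _) _
  have h2 := smo_zeta_part hδ (n + 1) (by omega)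
  have h3 : 0 ≤ (1 / δ) * ((n + 1 : ℕ) : ℝ) ^ (-δ) := by positivity
  linarith

theorem smo_logpow (j : ℕ) {κ : ℝ} (hκ : 0 < κ) (n : ℕ) (hn : 1 ≤ n) :
    (Real.log n) ^ j ≤ (j.factorial : ℝ) * (2 / κ) ^ j * (n : ℝ) ^ (κ / 2) := by
  have hn0 : (0 : ℝ) < n := by exact_mod_cast hn
  have hl : 0 ≤ Real.log n := Real.log_nonneg (by exact_mod_cast hn)
  have h1 := Real.pow_div_factorial_le_exp (κ / 2 * Real.log n) (by positivity) j
  have h2 : Real.exp (κ / 2 * Real.log n) = (n : ℝ) ^ (κ / 2) := by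
    rw [Real.rpow_def_of_pos hn0, mul_comm]
  rw [h2, div_le_iff₀ (by positivity)] at h1
  have h3 : (Real.log n) ^ j = (κ / 2 * Real.log n) ^ j * (2 / κ) ^ j := by
    rw [← mul_pow]
    congr 1
    field_simp
  rw [h3]
  calc (κ / 2 * Real.log n) ^ j * (2 / κ) ^ j ≤ ((n : ℝ) ^ (κ / 2) * j.factorial) * (2 / κ) ^ j :=
        mul_le_mul_of_nonneg_right h1 (by positivity)
    _ = _ := by ring

/-- the series with the weights `(log n)^j` -/
theorem smo_series (j : ℕ) {κ : ℝ} (hκ : 0 < κ) (hκ1 : κ ≤ 1) (f : ℕ → ℂ) (hf0 : f 0 = 0)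
    (hf : ∀ n : ℕ, 1 ≤ n → ‖f n‖ ≤ (Real.log n) ^ j) :
    Summable (fun n : ℕ => ‖f n‖ * (n : ℝ) ^ (-(1 + κ))) ∧
      ∑' n : ℕ, ‖f n‖ * (n : ℝ) ^ (-(1 + κ)) ≤
        3 * (j.factorial : ℝ) * 2 ^ j * (1 / κ) ^ (j + 1) := by
  obtain ⟨z1, z2⟩ := smo_zeta (δ := κ / 2) (by linarith)
  set A := (j.factorial : ℝ) * (2 / κ) ^ j with hA
  have hA0 : 0 ≤ A := by positivity
  have hle : ∀ n : ℕ, ‖f n‖ * (n : ℝ) ^ (-(1 + κ)) ≤ A * (n : ℝ) ^ (-(1 + κ / 2)) := by
    intro n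
    rcases Nat.eq_zero_or_pos n with rfl | hn
    · rw [hf0, norm_zero, zero_mul]
      positivity
    · have hn0 : (0 : ℝ) < n := by exact_mod_cast hn
      have h1 := (hf n hn).trans (smo_logpow j hκ n hn)
      calc ‖f n‖ * (n : ℝ) ^ (-(1 + κ)) ≤ (A * (n : ℝ) ^ (κ / 2)) * (n : ℝ) ^ (-(1 + κ)) :=
            mul_le_mul_of_nonneg_right h1 (by positivity)
        _ = A * (n : ℝ) ^ (-(1 + κ / 2)) := by
            rw [mul_assoc, ← Real.rpow_add hn0]
            congr 2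
            ring
  have hs : Summable (fun n : ℕ => ‖f n‖ * (n : ℝ) ^ (-(1 + κ))) :=
    Summable.of_nonneg_of_le (fun n => by positivity) hle (z1.mul_left A)
  refine ⟨hs, ?_⟩
  calc ∑' n : ℕ, ‖f n‖ * (n : ℝ) ^ (-(1 + κ)) ≤ ∑' n : ℕ, A * (n : ℝ) ^ (-(1 + κ / 2)) :=
        hs.tsum_le_tsum hle (z1.mul_left A)
    _ = A * ∑' n : ℕ, (n : ℝ) ^ (-(1 + κ / 2)) := tsum_mul_left
    _ ≤ A * (1 + 1 / (κ / 2)) := mul_le_mul_of_nonneg_left z2 hA0
    _ ≤ A * (3 / κ) := by
        apply mul_le_mul_of_nonneg_left _ hA0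
        have h1 : 1 ≤ 1 / κ := by rwa [le_div_iff₀ hκ, one_mul]
        have h2 : 1 / (κ / 2) = 2 * (1 / κ) := by field_simp
        have h3 : 3 / κ = 3 * (1 / κ) := by ring
        rw [h2, h3]
        linarith
    _ = 3 * (j.factorial : ℝ) * 2 ^ j * (1 / κ) ^ (j + 1) := by
        rw [hA, div_pow, one_div, inv_pow]
        field_simp
        ring

end Pool.Agent.H43.LF
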