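import Pool.Agent.H43.LF.Defs
import Pool.Agent.H43.LF.SmoA
import Pool.Agent.H43.LF.SmoB

/-!
# [H43 LF SMO] Smoothing lemma (from a Dirichlet series to a sharp sum)

`|f(n)| <= (log n)^j`, `N >= 3`, `κ = 1/log N`, `N' <= 2N`. If
`‖Σ_n f(n) n^(-(1+κ+iu))‖ <= D` for all real `u` with `|u-t| <= Y` then, for `0 < η <= 1`,
`‖Σ_{N<n<=N'} f(n) n^(-1-it)‖ <= C (D (1+log(1/η)) + (log N)^(j+1)/(ηY) + (log N)^j (η + 1/N))`,
`C = C(j)`.

PROOF. If `N' <= N` trivial. Let `a = log N`, `b = log N'` (`a < b <= a + log 2`) and let `w` be the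
trapezoid: `w = 1` on `[a,b]`, `0` outside `[a-η,b+η]`, linear in between. The sharp sum differs from
`Σ f(n)n^(-1-it) w(log n)` by at most `Σ |f(n)|/n` over `n ∈ [N e^(-η), N] ∪ (N', N' e^η]`, which is
`<= C (log N)^j (η + 1/N)` (each of the two intervals contains at most `e^η η N' + 1` integers, all
`>= N/3`, `n <= 6N`, `log n <= 3 log N`).
`g(v) = w(v) e^(κ v)` is continuous, piecewise `C^1`, compactly supported; its Fourier transform
`ĝ(ξ) = ∫ g(v) e^(-iξv) dv` satisfies `|ĝ(ξ)| <= C min(1, 1/|ξ|, 1/(η ξ^2))`: here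
`e^(κ v) <= e^3` on the support, the length of the support is `<= 3`, and `g` is a combination of functions
`(α+βv) e^(κ v)` on intervals with `|β| <= 1/η`; integrate by parts once (no boundary terms, since `g` is
continuous, `∫|g'| <= C`) and twice (the jumps of `g'` are `<= C/η`, `∫|g''| <= C/η`, `κ <= 1`). [One may
also compute: `g` is `1/η` times the difference of two functions `e^(κv)`-twisted ramps; or write the
trapezoid as the convolution of the indicator function of an interval with `η^(-1)` times an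
indicator function of an interval of length `η`; then `ŵ` is a product of two explicit
factors, and `ĝ(ξ) = ŵ(ξ + iκ)`, entire: `ŵ(z) = (e^{-iz(..)} - ..)/(..)`.]
Fourier inversion (`MeasureTheory.Integrable.fourierInv_fourier_eq`, `g` continuous and integrable, `ĝ`
integrable): `g(v) = (1/2π) ∫ ĝ(ξ) e^(iξv) dξ`, so with Fubini (the Dirichlet series converges
absolutely for `Re = 1+κ`, `ĝ ∈ L^1`)
`Σ_n f(n) n^(-1-it) w(log n) = Σ_n f(n) n^(-1-κ-it) g(log n) = (1/2π) ∫ ĝ(ξ) F(1+κ+i(t-ξ)) dξ`.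
For `|ξ| <= Y` use `D` and `∫ min(1,1/|ξ|,1/(ηξ^2)) dξ <= C(1+log(1/η))`; for `|ξ| > Y` use
`|F| <= Σ (log n)^j n^(-1-κ) <= C_j κ^(-j-1)` (`(log n)^j <= C_j κ^(-j) n^(κ/2)`, `ζ(1+κ/2) <= 3/κ`) and
`∫_{|ξ|>Y} 1/(ηξ^2) = 2/(ηY)`. The term `n = 0` of the series is harmless (`f 0` is assumed to be 0).
-/

namespace Pool.Agent.H43.LF

open Finset MeasureTheory Filter

/-- the terms on the line `1 + κ` -/
noncomputable def smoc (f : ℕ → ℂ) (κ t : ℝ) (n : ℕ) : ℂ :=
  f n * (n : ℂ) ^ (-((1 + κ : ℝ) + (t : ℂ) * Complex.I))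

theorem smoc_norm (f : ℕ → ℂ) (hf0 : f 0 = 0) (κ t : ℝ) (n : ℕ) :
    ‖smoc f κ t n‖ = ‖f n‖ * (n : ℝ) ^ (-(1 + κ)) := by
  unfold smoc
  rcases Nat.eq_zero_or_pos n with rfl | hn
  · rw [hf0]
    simp
  · rw [norm_mul, Complex.norm_natCast_cpow_of_pos hn]
    congr 2
    simp

theorem smoc_zero (f : ℕ → ℂ) (hf0 : f 0 = 0) (κ t : ℝ) : smoc f κ t 0 = 0 := by
  unfold smoc
  rw [hf0, zero_mul]

theorem smoc_shift (f : ℕ → ℂ) (hf0 : f 0 = 0) (κ t m x : ℝ) (n : ℕ) :
    smoc f κ t n * Complex.exp (2 * Real.pi * ((Real.log n - m : ℝ) : ℂ) * x * Complex.I) =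
      Complex.exp (-(2 * Real.pi * m * x * Complex.I)) * smoc f κ (t - 2 * Real.pi * x) n := by
  rcases Nat.eq_zero_or_pos n with rfl | hn
  · rw [smoc_zero f hf0, smoc_zero f hf0]
    simp
  · unfold smoc
    have hn0 : (n : ℂ) ≠ 0 := by exact_mod_cast hn.ne'
    rw [Complex.cpow_def_of_ne_zero hn0, Complex.cpow_def_of_ne_zero hn0, ← Complex.natCast_log,
      mul_assoc, ← Complex.exp_add, mul_left_comm, ← Complex.exp_add]
    congr 2
    push_cast
    ring

theorem smo_smooth (j : ℕ) (f : ℕ → ℂ) (hf0 : f 0 = 0)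
    (hf : ∀ n : ℕ, 1 ≤ n → ‖f n‖ ≤ (Real.log n) ^ j) {κ t l m η Y D : ℝ} (hκ : 0 < κ)
    (hκ1 : κ ≤ 1) (hl : 0 < l) (hη : 0 < η) (hη1 : η ≤ 1) (hlη : 2 * l + η ≤ 2) (hY : 0 < Y)
    (hD : 0 ≤ D) (hF : ∀ u : ℝ, |u - t| ≤ Y → ‖∑' n : ℕ, smoc f κ u n‖ ≤ D) :
    ‖∑' n : ℕ, smoc f κ t n * ((smoW l η (Real.log n - m) : ℝ) : ℂ)‖ ≤
      2 * (D * (3 + Real.log (1 / η)) +
        (3 * (j.factorial : ℝ) * 2 ^ j * (1 / κ) ^ (j + 1)) / (η * (Y / (2 * Real.pi)))) := by
  set Big := 3 * (j.factorial : ℝ) * 2 ^ j * (1 / κ) ^ (j + 1) with hBig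
  obtain ⟨s1, s2⟩ := smo_series j hκ hκ1 f hf0 hf
  set G : ℕ → ℝ → ℂ := fun n x => smoc f κ t n * (((smoK l η x : ℝ) : ℂ) *
    Complex.exp (2 * Real.pi * ((Real.log n - m : ℝ) : ℂ) * x * Complex.I)) with hG
  have hnorm : ∀ n x, ‖G n x‖ = ‖smoc f κ t n‖ * |smoK l η x| := by
    intro n x
    rw [hG]
    simp only
    rw [norm_mul, norm_mul, Complex.norm_real, Real.norm_eq_abs,
      show (2 * (Real.pi : ℂ) * ((Real.log n - m : ℝ) : ℂ) * x * Complex.I) =
        ((2 * Real.pi * (Real.log n - m) * x : ℝ) : ℂ) * Complex.I by push_cast; ring,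
      Complex.norm_exp_ofReal_mul_I, mul_one]
  have hint : ∀ n, Integrable (G n) := by
    intro n
    apply Integrable.const_mul
    have h1 : Integrable (fun x => ((smoK l η x : ℝ) : ℂ)) := (smoK_int hl hη).ofReal
    apply h1.mono
    · apply Continuous.aestronglyMeasurable
      have h2 := smoK_cont l η
      fun_prop
    · filter_upwards with x
      rw [norm_mul,
        show (2 * (Real.pi : ℂ) * ((Real.log n - m : ℝ) : ℂ) * x * Complex.I) =
          ((2 * Real.pi * (Real.log n - m) * x : ℝ) : ℂ) * Complex.I by push_cast; ring,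
        Complex.norm_exp_ofReal_mul_I, mul_one]
  have hval : ∀ n, ∫ x, G n x = smoc f κ t n * ((smoW l η (Real.log n - m) : ℝ) : ℂ) := by
    intro n
    rw [hG]
    simp only
    rw [integral_const_mul, ← smo_inv hl hη]
  have hsum : Summable fun n => ∫ x, ‖G n x‖ := by
    have h1 : ∀ n, ∫ x, ‖G n x‖ = ‖f n‖ * (n : ℝ) ^ (-(1 + κ)) * ∫ x, |smoK l η x| := by
      intro n
      simp_rw [hnorm n]
      rw [integral_const_mul, smoc_norm f hf0]
    simp_rw [h1]
    exact s1.mul_right _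
  have hswap := integral_tsum_of_summable_integral_norm hint hsum
  simp_rw [hval] at hswap
  rw [hswap]
  have hpi := Real.pi_pos
  have hc : 0 < Y / (2 * Real.pi) := by positivity
  obtain ⟨H1, H2⟩ := smoH_abs (D := D) (M := Big) hη hη1 hc
  have hBig0 : 0 ≤ Big := by positivity
  have hpt : ∀ x : ℝ, ‖∑' n, G n x‖ ≤ smoH η (Y / (2 * Real.pi)) D Big |x| := by
    intro x
    have e1 : ∑' n, G n x = ((smoK l η x : ℝ) : ℂ) *
        Complex.exp (-(2 * Real.pi * m * x * Complex.I)) *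
        ∑' n, smoc f κ (t - 2 * Real.pi * x) n := by
      rw [← tsum_mul_left]
      congr 1
      funext n
      rw [hG]
      simp only
      have := smoc_shift f hf0 κ t m x n
      calc smoc f κ t n * (((smoK l η x : ℝ) : ℂ) *
            Complex.exp (2 * Real.pi * ((Real.log n - m : ℝ) : ℂ) * x * Complex.I))
          = ((smoK l η x : ℝ) : ℂ) * (smoc f κ t n *
            Complex.exp (2 * Real.pi * ((Real.log n - m : ℝ) : ℂ) * x * Complex.I)) := by ring
        _ = _ := by rw [this]; ring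
    have e2 : ‖Complex.exp (-(2 * Real.pi * m * x * Complex.I))‖ = 1 := by
      rw [show -(2 * (Real.pi : ℂ) * m * x * Complex.I) =
        ((-(2 * Real.pi * m * x) : ℝ) : ℂ) * Complex.I by push_cast; ring,
        Complex.norm_exp_ofReal_mul_I]
    rw [e1, norm_mul, norm_mul, e2, mul_one, Complex.norm_real, Real.norm_eq_abs]
    obtain ⟨k1, k2, k3⟩ := smoK_bd hl hη hlη x
    refine smoH_le hη hD hBig0 x (abs_nonneg _) k1 k2 k3 hc ?_ ?_
    · intro hx
      apply hF
      rw [le_div_iff₀ (by positivity)] at hx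
      rw [show t - 2 * Real.pi * x - t = -(2 * Real.pi * x) by ring, abs_neg, abs_mul,
        abs_of_pos (by positivity : 0 < 2 * Real.pi)]
      linarith
    · have h1 : Summable fun n => ‖smoc f κ (t - 2 * Real.pi * x) n‖ := by
        simp_rw [smoc_norm f hf0]
        exact s1
      refine (norm_tsum_le_tsum_norm h1).trans ?_
      simp_rw [smoc_norm f hf0]
      exact s2
  calc ‖∫ x, ∑' n, G n x‖ ≤ ∫ x, ‖∑' n, G n x‖ := norm_integral_le_integral_norm _
    _ ≤ ∫ x, smoH η (Y / (2 * Real.pi)) D Big |x| := by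
        apply integral_mono_of_nonneg
        · exact Eventually.of_forall fun x => norm_nonneg _
        · exact H1
        · exact Eventually.of_forall hpt
    _ = _ := H2

theorem smo_term (j : ℕ) (f : ℕ → ℂ) (hf0 : f 0 = 0)
    (hf : ∀ n : ℕ, 1 ≤ n → ‖f n‖ ≤ (Real.log n) ^ j) {κ t : ℝ} (hκ : 0 < κ) (n : ℕ) (hn : 1 ≤ n) :
    ‖smoc f κ t n‖ ≤ (Real.log n) ^ j * (1 / n) := by
  have hn0 : (0 : ℝ) < n := by exact_mod_cast hn
  have hn1 : (1 : ℝ) ≤ n := by exact_mod_cast hn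
  rw [smoc_norm f hf0]
  have h1 : (n : ℝ) ^ (-(1 + κ)) ≤ 1 / n := by
    rw [one_div, ← Real.rpow_neg_one]
    exact Real.rpow_le_rpow_of_exponent_le hn1 (by linarith)
  exact mul_le_mul (hf n hn) h1 (by positivity) (by
    have := Real.log_nonneg hn1
    positivity)

theorem smo_exp {η : ℝ} (hη : 0 < η) (hη1 : η ≤ 1) : Real.exp η ≤ 1 + 2 * η := by
  have h := Real.abs_exp_sub_one_sub_id_le (x := η) (by rw [abs_of_pos hη]; exact hη1)
  have h1 := (abs_le.1 h).2
  nlinarith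

theorem smo_diff (j : ℕ) (f : ℕ → ℂ) (hf0 : f 0 = 0)
    (hf : ∀ n : ℕ, 1 ≤ n → ‖f n‖ ≤ (Real.log n) ^ j) {κ t η : ℝ} (hκ : 0 < κ) {N M : ℕ}
    (hN : 3 ≤ N) (hNM : N < M) (hM : M ≤ 2 * N) (hη : 0 < η) (hη1 : η ≤ 1) :
    ‖∑' n : ℕ, smoc f κ t n * ((smoW ((Real.log M - Real.log N) / 2) η
        (Real.log n - (Real.log N + Real.log M) / 2) : ℝ) : ℂ) -
      ∑ n ∈ Ioc N M, smoc f κ t n‖ ≤ (3 + 4 * 3 ^ j) * (Real.log N) ^ j * (η + 1 / N) := by
  set a := Real.log N with ha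
  set b := Real.log M with hb
  have hN0 : (0 : ℝ) < N := by exact_mod_cast (by omega : 0 < N)
  have hM0 : (0 : ℝ) < M := by exact_mod_cast (by omega : 0 < M)
  have hN3 : (3 : ℝ) ≤ N := by exact_mod_cast hN
  have hM2 : (M : ℝ) ≤ 2 * N := by exact_mod_cast hM
  have hNM' : (N : ℝ) < M := by exact_mod_cast hNM
  have hab : a < b := Real.log_lt_log hN0 hNM'
  set l := (b - a) / 2 with hl
  have hl0 : 0 < l := by rw [hl]; linarith
  set m := (a + b) / 2 with hm
  have e1 : m - l = a := by rw [hl, hm]; ring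
  have e2 : m + l = b := by rw [hl, hm]; ring
  have hlog3 : 1 < Real.log 3 := by
    rw [Real.lt_log_iff_exp_lt (by norm_num)]
    exact Real.exp_one_lt_three
  have ha1 : 1 ≤ a := hlog3.le.trans (Real.log_le_log (by norm_num) hN3)
  set W : ℕ → ℝ := fun n => smoW l η (Real.log n - m) with hW
  set A1 := Ioc ⌊(N : ℝ) * Real.exp (-η)⌋₊ N with hA1
  set A2 := Ioc M ⌊(M : ℝ) * Real.exp η⌋₊ with hA2
  -- pointwise bound
  have hpt : ∀ n : ℕ, ‖smoc f κ t n * ((W n : ℝ) : ℂ) - (if n ∈ Ioc N M then smoc f κ t n else 0)‖ ≤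
      (if n ∈ A1 then ‖smoc f κ t n‖ else 0) + (if n ∈ A2 then ‖smoc f κ t n‖ else 0) := by
    intro n
    have p1 : 0 ≤ (if n ∈ A1 then ‖smoc f κ t n‖ else 0) := by split_ifs <;> positivity
    have p2 : 0 ≤ (if n ∈ A2 then ‖smoc f κ t n‖ else 0) := by split_ifs <;> positivity
    rcases Nat.eq_zero_or_pos n with hn | hn
    · rw [hn, smoc_zero f hf0] at *
      simp
    have hn0 : (0 : ℝ) < n := by exact_mod_cast hn
    obtain ⟨w0, w1⟩ := smoW_bd hl0 hη (Real.log n - m)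
    have hwn : ‖smoc f κ t n * ((W n : ℝ) : ℂ)‖ ≤ ‖smoc f κ t n‖ := by
      rw [norm_mul, Complex.norm_real, Real.norm_of_nonneg w0]
      exact mul_le_of_le_one_right (norm_nonneg _) w1
    by_cases h1 : n ≤ N
    · have h2 : n ∉ Ioc N M := by simp; omega
      rw [if_neg h2, sub_zero]
      by_cases h3 : n ∈ A1
      · rw [if_pos h3]
        linarith
      · have h4 : n ≤ ⌊(N : ℝ) * Real.exp (-η)⌋₊ := by
          rw [hA1, mem_Ioc] at h3
          omega
        have h5 : (n : ℝ) ≤ N * Real.exp (-η) := by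
          have := Nat.floor_le (a := (N : ℝ) * Real.exp (-η)) (by positivity)
          exact le_trans (by exact_mod_cast h4) this
        have h6 : Real.log n ≤ a - η := by
          have := Real.log_le_log hn0 h5
          rwa [Real.log_mul hN0.ne' (Real.exp_pos _).ne', Real.log_exp] at this
        have h7 : W n = 0 := by
          rw [hW]
          apply smoW_zero hl0 hη
          rw [abs_sub_comm]
          refine le_trans ?_ (le_abs_self _)
          linarith
        rw [h7]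
        simp only [Complex.ofReal_zero, mul_zero, norm_zero]
        linarith
    · push Not at h1
      by_cases h2 : n ≤ M
      · have h3 : n ∈ Ioc N M := by rw [mem_Ioc]; omega
        have h4 : W n = 1 := by
          rw [hW]
          apply smoW_one hl0 hη
          have g1 : a ≤ Real.log n := Real.log_le_log hN0 (by exact_mod_cast h1.le)
          have g2 : Real.log n ≤ b := Real.log_le_log hn0 (by exact_mod_cast h2)
          rw [abs_le]
          constructor <;> linarith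
        rw [if_pos h3, h4]
        simp only [Complex.ofReal_one, mul_one, sub_self, norm_zero]
        linarith
      · push Not at h2
        have h3 : n ∉ Ioc N M := by simp; omega
        rw [if_neg h3, sub_zero]
        by_cases h4 : n ∈ A2
        · rw [if_pos h4]
          linarith
        · have h5 : ⌊(M : ℝ) * Real.exp η⌋₊ < n := by
            rw [hA2, mem_Ioc] at h4
            omega
          have h6 : (M : ℝ) * Real.exp η < n := Nat.lt_of_floor_lt h5
          have h7 : b + η ≤ Real.log n := by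
            have := Real.log_le_log (by positivity) h6.le
            rwa [Real.log_mul hM0.ne' (Real.exp_pos _).ne', Real.log_exp] at this
          have h8 : W n = 0 := by
            rw [hW]
            apply smoW_zero hl0 hη
            refine le_trans ?_ (le_abs_self _)
            linarith
          rw [h8]
          simp only [Complex.ofReal_zero, mul_zero, norm_zero]
          linarith
  -- finite support
  have hfl2 : ⌊(M : ℝ) * Real.exp η⌋₊ < 6 * N + 1 := by
    rw [Nat.floor_lt (by positivity)]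
    have h1 : Real.exp η ≤ 3 := (smo_exp hη hη1).trans (by linarith)
    have h2 : (M : ℝ) * Real.exp η ≤ (2 * N) * 3 :=
      mul_le_mul hM2 h1 (Real.exp_pos _).le (by positivity)
    push_cast
    linarith
  have hsupp : ∀ n : ℕ, n ∉ range (6 * N + 1) → smoc f κ t n * ((W n : ℝ) : ℂ) = 0 := by
    intro n hn
    rw [mem_range, not_lt] at hn
    have h1 := hpt n
    have q1 : n ∉ Ioc N M := by rw [mem_Ioc]; omega
    have q2 : n ∉ A1 := by rw [hA1, mem_Ioc]; omega
    have q3 : n ∉ A2 := by rw [hA2, mem_Ioc]; omega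
    rw [if_neg q1, if_neg q2, if_neg q3, sub_zero, add_zero] at h1
    exact norm_le_zero_iff.1 h1
  have hts : ∑' n : ℕ, smoc f κ t n * ((W n : ℝ) : ℂ) =
      ∑ n ∈ range (6 * N + 1), smoc f κ t n * ((W n : ℝ) : ℂ) := tsum_eq_sum (fun n hn => hsupp n hn)
  have hIoc : ∑ n ∈ Ioc N M, smoc f κ t n =
      ∑ n ∈ range (6 * N + 1), (if n ∈ Ioc N M then smoc f κ t n else 0) := by
    rw [← Finset.sum_filter]
    congr 1
    ext n
    simp only [mem_filter, mem_range, mem_Ioc]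
    constructor
    · intro h
      exact ⟨by omega, h⟩
    · intro h
      exact h.2
  have hsub : ∀ A : Finset ℕ, ∑ n ∈ range (6 * N + 1), (if n ∈ A then ‖smoc f κ t n‖ else 0) ≤
      ∑ n ∈ A, ‖smoc f κ t n‖ := by
    intro A
    rw [← Finset.sum_filter]
    apply Finset.sum_le_sum_of_subset_of_nonneg
    · intro n hn
      exact (mem_filter.1 hn).2
    · intro n _ _
      exact norm_nonneg _
  -- the two short sums
  have hA1s : ∑ n ∈ A1, ‖smoc f κ t n‖ ≤ 3 * a ^ j * (η + 1 / N) := by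
    have h1 : ∀ n ∈ A1, ‖smoc f κ t n‖ ≤ a ^ j * (3 / N) := by
      intro n hn
      rw [hA1, mem_Ioc] at hn
      have hn1 : 1 ≤ n := by omega
      have hn0 : (0 : ℝ) < n := by exact_mod_cast hn1
      have h2 : (N : ℝ) * Real.exp (-η) < n := Nat.lt_of_floor_lt hn.1
      have h3 : (N : ℝ) / 3 ≤ n := by
        have h4 : 1 / 3 ≤ Real.exp (-η) := by
          rw [Real.exp_neg, one_div]
          apply inv_anti₀ (Real.exp_pos _)
          exact (smo_exp hη hη1).trans (by linarith)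
        have h5 : (N : ℝ) * (1 / 3) ≤ N * Real.exp (-η) := mul_le_mul_of_nonneg_left h4 hN0.le
        linarith
      refine (smo_term j f hf0 hf hκ n hn1).trans ?_
      have h6 : Real.log n ≤ a := Real.log_le_log hn0 (by exact_mod_cast hn.2)
      have h7 : 0 ≤ Real.log n := Real.log_nonneg (by exact_mod_cast hn1)
      have h8 : 1 / (n : ℝ) ≤ 3 / N := by
        rw [div_le_div_iff₀ hn0 hN0]
        linarith
      exact mul_le_mul (pow_le_pow_left₀ h7 h6 j) h8 (by positivity) (by positivity)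
    have h2 : (A1.card : ℝ) ≤ η * N + 1 := by
      rw [hA1, Nat.card_Ioc, Nat.cast_sub]
      · have h3 : (N : ℝ) * Real.exp (-η) - 1 < (⌊(N : ℝ) * Real.exp (-η)⌋₊ : ℝ) :=
          Nat.sub_one_lt_floor _
        have h4 : 1 - η ≤ Real.exp (-η) := by linarith [Real.add_one_le_exp (-η)]
        have h5 : (N : ℝ) * (1 - η) ≤ N * Real.exp (-η) := mul_le_mul_of_nonneg_left h4 hN0.le
        linarith
      · have h3 : (N : ℝ) * Real.exp (-η) ≤ N := by
          have : Real.exp (-η) ≤ 1 := Real.exp_le_one_iff.2 (by linarith)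
          nlinarith
        exact Nat.floor_le_of_le h3
    calc ∑ n ∈ A1, ‖smoc f κ t n‖ ≤ ∑ _n ∈ A1, a ^ j * (3 / N) := Finset.sum_le_sum h1
      _ = (A1.card : ℝ) * (a ^ j * (3 / N)) := by rw [Finset.sum_const, nsmul_eq_mul]
      _ ≤ (η * N + 1) * (a ^ j * (3 / N)) := mul_le_mul_of_nonneg_right h2 (by positivity)
      _ = 3 * a ^ j * (η + 1 / N) := by
        field_simp
  have hA2s : ∑ n ∈ A2, ‖smoc f κ t n‖ ≤ 4 * 3 ^ j * a ^ j * (η + 1 / N) := by
    have h1 : ∀ n ∈ A2, ‖smoc f κ t n‖ ≤ (3 * a) ^ j * (1 / N) := by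
      intro n hn
      rw [hA2, mem_Ioc] at hn
      have hn1 : 1 ≤ n := by omega
      have hn0 : (0 : ℝ) < n := by exact_mod_cast hn1
      refine (smo_term j f hf0 hf hκ n hn1).trans ?_
      have h5 : n ≤ 6 * N := by omega
      have h6 : Real.log n ≤ 3 * a := by
        have h7 : (n : ℝ) ≤ 6 * N := by exact_mod_cast h5
        have h8 : (n : ℝ) ≤ (N : ℝ) ^ 3 := by
          have h10 : (9 : ℝ) ≤ (N : ℝ) ^ 2 := by nlinarith
          have h11 : 9 * (N : ℝ) ≤ (N : ℝ) ^ 2 * N := mul_le_mul_of_nonneg_right h10 hN0.le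
          have h12 : (N : ℝ) ^ 3 = (N : ℝ) ^ 2 * N := by ring
          rw [h12]
          linarith
        have h9 := Real.log_le_log hn0 h8
        rw [Real.log_pow] at h9
        push_cast at h9
        exact h9
      have h7 : 0 ≤ Real.log n := Real.log_nonneg (by exact_mod_cast hn1)
      have h8 : 1 / (n : ℝ) ≤ 1 / N := by
        apply one_div_le_one_div_of_le hN0
        exact_mod_cast (by omega : N ≤ n)
      exact mul_le_mul (pow_le_pow_left₀ h7 h6 j) h8 (by positivity) (by positivity)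
    have h2 : (A2.card : ℝ) ≤ 4 * (η * N) := by
      have h3 : ((⌊(M : ℝ) * Real.exp η⌋₊ : ℕ) : ℝ) ≤ M * Real.exp η :=
        Nat.floor_le (by positivity)
      have h4 := smo_exp hη hη1
      have h5 : M ≤ ⌊(M : ℝ) * Real.exp η⌋₊ := by
        apply Nat.le_floor
        have : 1 ≤ Real.exp η := Real.one_le_exp hη.le
        nlinarith
      rw [hA2, Nat.card_Ioc, Nat.cast_sub h5]
      have h6 : (M : ℝ) * Real.exp η ≤ M * (1 + 2 * η) := mul_le_mul_of_nonneg_left h4 hM0.le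
      have h7 : (M : ℝ) * η ≤ 2 * N * η := mul_le_mul_of_nonneg_right hM2 hη.le
      nlinarith
    calc ∑ n ∈ A2, ‖smoc f κ t n‖ ≤ ∑ _n ∈ A2, (3 * a) ^ j * (1 / N) := Finset.sum_le_sum h1
      _ = (A2.card : ℝ) * ((3 * a) ^ j * (1 / N)) := by rw [Finset.sum_const, nsmul_eq_mul]
      _ ≤ (4 * (η * N)) * ((3 * a) ^ j * (1 / N)) :=
          mul_le_mul_of_nonneg_right h2 (by positivity)
      _ = 4 * 3 ^ j * a ^ j * η := by
        rw [mul_pow]
        field_simp
      _ ≤ 4 * 3 ^ j * a ^ j * (η + 1 / N) := by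
        apply mul_le_mul_of_nonneg_left _ (by positivity)
        have : 0 < 1 / (N : ℝ) := by positivity
        linarith
  have hWW : ∑' n : ℕ, smoc f κ t n * ((smoW l η (Real.log n - m) : ℝ) : ℂ) =
      ∑' n : ℕ, smoc f κ t n * ((W n : ℝ) : ℂ) := rfl
  rw [hWW, hts, hIoc, ← Finset.sum_sub_distrib]
  calc _ ≤ ∑ n ∈ range (6 * N + 1), ‖smoc f κ t n * ((W n : ℝ) : ℂ) -
        (if n ∈ Ioc N M then smoc f κ t n else 0)‖ := norm_sum_le _ _
    _ ≤ ∑ n ∈ range (6 * N + 1), ((if n ∈ A1 then ‖smoc f κ t n‖ else 0) +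
        (if n ∈ A2 then ‖smoc f κ t n‖ else 0)) := Finset.sum_le_sum fun n _ => hpt n
    _ ≤ 3 * a ^ j * (η + 1 / N) + 4 * 3 ^ j * a ^ j * (η + 1 / N) := by
        rw [Finset.sum_add_distrib]
        exact add_le_add ((hsub A1).trans hA1s) ((hsub A2).trans hA2s)
    _ = (3 + 4 * 3 ^ j) * a ^ j * (η + 1 / N) := by ring

theorem smo_abel (c : ℕ → ℂ) (g : ℕ → ℝ) (N N' : ℕ) (E : ℝ) (hE : 0 ≤ E)
    (hg0 : ∀ n, 0 ≤ g n) (hg : Monotone g)
    (hc : ∀ M, N < M → M ≤ N' → ‖∑ n ∈ Ioc N M, c n‖ ≤ E) (hNN : N ≤ N') :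
    ‖∑ n ∈ Ioc N N', c n * ((g n : ℝ) : ℂ)‖ ≤ 2 * g N' * E := by
  have key : ∀ M, N ≤ M → M ≤ N' → ‖∑ n ∈ Ioc N M, c n * ((g n : ℝ) : ℂ) -
      ((g M : ℝ) : ℂ) * ∑ n ∈ Ioc N M, c n‖ ≤ E * (g M - g N) := by
    intro M hM
    induction M, hM using Nat.le_induction with
    | base => intro _; simp
    | succ M hM ih =>
      intro hM'
      have h1 := ih (by omega)
      have hP : ‖∑ n ∈ Ioc N M, c n‖ ≤ E := by
        rcases hM.eq_or_lt with h | h
        · rw [← h]
          simpa using hE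
        · exact hc M h (by omega)
      rw [Finset.sum_Ioc_succ_top hM, Finset.sum_Ioc_succ_top hM]
      have e : ∑ n ∈ Ioc N M, c n * ((g n : ℝ) : ℂ) + c (M + 1) * ((g (M + 1) : ℝ) : ℂ) -
          ((g (M + 1) : ℝ) : ℂ) * (∑ n ∈ Ioc N M, c n + c (M + 1)) =
          (∑ n ∈ Ioc N M, c n * ((g n : ℝ) : ℂ) - ((g M : ℝ) : ℂ) * ∑ n ∈ Ioc N M, c n) -
          ((g (M + 1) - g M : ℝ) : ℂ) * ∑ n ∈ Ioc N M, c n := by
        push_cast
        ring
      rw [e]
      refine (norm_sub_le _ _).trans ?_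
      have h2 : 0 ≤ g (M + 1) - g M := sub_nonneg.2 (hg (Nat.le_succ M))
      rw [norm_mul, Complex.norm_real, Real.norm_of_nonneg h2]
      have h3 := mul_le_mul_of_nonneg_left hP h2
      linarith
  have h1 := key N' hNN le_rfl
  have hP : ‖∑ n ∈ Ioc N N', c n‖ ≤ E := by
    rcases hNN.eq_or_lt with h | h
    · rw [← h]
      simpa using hE
    · exact hc N' h le_rfl
  have h2 : ‖((g N' : ℝ) : ℂ) * ∑ n ∈ Ioc N N', c n‖ ≤ g N' * E := by
    rw [norm_mul, Complex.norm_real, Real.norm_of_nonneg (hg0 N')]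
    exact mul_le_mul_of_nonneg_left hP (hg0 N')
  have h3 := norm_le_norm_sub_add (∑ n ∈ Ioc N N', c n * ((g n : ℝ) : ℂ))
    (((g N' : ℝ) : ℂ) * ∑ n ∈ Ioc N N', c n)
  have h4 := mul_nonneg hE (hg0 N)
  nlinarith

theorem smo (j : ℕ) : ∃ C : ℝ, 0 < C ∧ ∀ (f : ℕ → ℂ) (N N' : ℕ) (t η Y D : ℝ), f 0 = 0 →
    (∀ n : ℕ, 1 ≤ n → ‖f n‖ ≤ (Real.log n) ^ j) → 3 ≤ N → N' ≤ 2 * N → 0 < η → η ≤ 1 → 0 < Y →
    0 ≤ D →
    (∀ u : ℝ, |u - t| ≤ Y →
      ‖∑' n : ℕ, f n * (n : ℂ) ^ (-((1 + 1 / Real.log N : ℝ) + (u : ℂ) * Complex.I))‖ ≤ D) →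
    ‖ds f N N' t‖ ≤ C * (D * (1 + Real.log (1 / η)) + (Real.log N) ^ (j + 1) / (η * Y) +
      (Real.log N) ^ j * (η + 1 / N)) := by
  set C0 : ℝ := 6 + 48 * (j.factorial : ℝ) * 2 ^ j + (3 + 4 * 3 ^ j) with hC0
  refine ⟨18 * C0, by positivity, ?_⟩
  intro f N N' t η Y D hf0 hf hN hN' hη hη1 hY hD hF
  have hN0 : (0 : ℝ) < N := by exact_mod_cast (by omega : 0 < N)
  have hN3 : (3 : ℝ) ≤ N := by exact_mod_cast hN
  set a := Real.log N with ha
  have hlog3 : 1 < Real.log 3 := by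
    rw [Real.lt_log_iff_exp_lt (by norm_num)]
    exact Real.exp_one_lt_three
  have ha1 : 1 < a := hlog3.trans_le (Real.log_le_log (by norm_num) hN3)
  have ha0 : 0 < a := by linarith
  have hℓ : 0 ≤ Real.log (1 / η) := by
    apply Real.log_nonneg
    rwa [le_div_iff₀ hη, one_mul]
  set R : ℝ := D * (1 + Real.log (1 / η)) + a ^ (j + 1) / (η * Y) + a ^ j * (η + 1 / N) with hR
  have hR0 : 0 ≤ R := by positivity
  rcases Nat.lt_or_ge N N' with hNN | hNN
  swap
  · unfold ds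
    rw [Finset.Ioc_eq_empty_of_le hNN, Finset.sum_empty, norm_zero]
    positivity
  set κ := 1 / a with hκ
  have hκ0 : 0 < κ := by positivity
  have hκ1 : κ ≤ 1 := by
    rw [hκ, div_le_one ha0]
    exact ha1.le
  have hκa : 1 / κ = a := by rw [hκ]; field_simp
  -- partial sums
  have hP : ∀ M, N < M → M ≤ N' → ‖∑ n ∈ Ioc N M, smoc f κ t n‖ ≤ C0 * R := by
    intro M hNM hMN'
    have hM2 : M ≤ 2 * N := by omega
    have hM0 : (0 : ℝ) < M := by exact_mod_cast (by omega : 0 < M)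
    have hNM' : (N : ℝ) < M := by exact_mod_cast hNM
    have hl0 : 0 < (Real.log M - a) / 2 := by
      have := Real.log_lt_log hN0 hNM'
      linarith
    have hl1 : 2 * ((Real.log M - a) / 2) + η ≤ 2 := by
      have h1 : Real.log M ≤ Real.log (2 * N) :=
        Real.log_le_log hM0 (by exact_mod_cast hM2)
      rw [Real.log_mul (by norm_num) hN0.ne'] at h1
      have h2 := Real.log_two_lt_d9
      linarith
    have h1 := smo_smooth j f hf0 hf (t := t) (m := (a + Real.log M) / 2) hκ0 hκ1 hl0 hη hη1 hl1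
      hY hD hF
    have h2 := smo_diff j f hf0 hf (t := t) hκ0 hN hNM hM2 hη hη1
    rw [← ha] at h2
    have h3 := norm_le_norm_sub_add (∑ n ∈ Ioc N M, smoc f κ t n)
      (∑' n : ℕ, smoc f κ t n * ((smoW ((Real.log M - a) / 2) η
        (Real.log n - (a + Real.log M) / 2) : ℝ) : ℂ))
    rw [norm_sub_rev] at h3
    rw [hκa] at h1
    have hpi : Real.pi ≤ 4 := Real.pi_le_four
    have hpi0 := Real.pi_pos
    have h4 : (3 * (j.factorial : ℝ) * 2 ^ j * a ^ (j + 1)) / (η * (Y / (2 * Real.pi))) ≤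
        24 * (j.factorial : ℝ) * 2 ^ j * (a ^ (j + 1) / (η * Y)) := by
      have e : (3 * (j.factorial : ℝ) * 2 ^ j * a ^ (j + 1)) / (η * (Y / (2 * Real.pi))) =
          (6 * Real.pi) * ((j.factorial : ℝ) * 2 ^ j * (a ^ (j + 1) / (η * Y))) := by
        field_simp
        ring
      rw [e]
      have e2 : 24 * (j.factorial : ℝ) * 2 ^ j * (a ^ (j + 1) / (η * Y)) =
          24 * ((j.factorial : ℝ) * 2 ^ j * (a ^ (j + 1) / (η * Y))) := by ring
      rw [e2]
      apply mul_le_mul_of_nonneg_right (by linarith) (by positivity)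
    have p1 : 0 ≤ a ^ (j + 1) / (η * Y) := by positivity
    have p2 : 0 ≤ a ^ j * (η + 1 / N) := by positivity
    have p3 : 0 ≤ D * (1 + Real.log (1 / η)) := by positivity
    have p4 : 0 ≤ (j.factorial : ℝ) * 2 ^ j := by positivity
    have p5 : 0 ≤ (3 + 4 * 3 ^ j : ℝ) := by positivity
    have q1 : D * (3 + Real.log (1 / η)) ≤ 3 * (D * (1 + Real.log (1 / η))) := by nlinarith
    have q2 : 48 * (j.factorial : ℝ) * 2 ^ j * (a ^ (j + 1) / (η * Y)) ≤
        48 * (j.factorial : ℝ) * 2 ^ j * R := by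
      apply mul_le_mul_of_nonneg_left _ (by positivity)
      rw [hR]
      linarith
    have q3 : (3 + 4 * 3 ^ j) * a ^ j * (η + 1 / N) ≤ (3 + 4 * 3 ^ j) * R := by
      rw [mul_assoc]
      apply mul_le_mul_of_nonneg_left _ p5
      rw [hR]
      linarith
    have q4 : 6 * (D * (1 + Real.log (1 / η))) ≤ 6 * R := by
      rw [hR]
      linarith
    have e5 : C0 * R = 6 * R + 48 * (j.factorial : ℝ) * 2 ^ j * R + (3 + 4 * 3 ^ j) * R := by
      rw [hC0]
      ring
    rw [e5]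
    linarith
  -- partial summation
  have hds : ds f N N' t = ∑ n ∈ Ioc N N', smoc f κ t n * (((n : ℝ) ^ κ : ℝ) : ℂ) := by
    unfold ds
    refine Finset.sum_congr rfl fun n hn => ?_
    rw [mem_Ioc] at hn
    have hn0 : (n : ℂ) ≠ 0 := by exact_mod_cast (by omega : n ≠ 0)
    unfold smoc
    rw [mul_assoc]
    congr 1
    rw [Complex.ofReal_cpow (Nat.cast_nonneg n), Complex.ofReal_natCast, ← Complex.cpow_add _ _ hn0]
    congr 1
    push_cast
    ring
  rw [hds]
  have hmono : Monotone (fun n : ℕ => (n : ℝ) ^ κ) := by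
    intro x y hxy
    exact Real.rpow_le_rpow (Nat.cast_nonneg _) (by exact_mod_cast hxy) hκ0.le
  have h1 := smo_abel (smoc f κ t) (fun n : ℕ => (n : ℝ) ^ κ) N N' (C0 * R) (by positivity)
    (fun n => by positivity) hmono hP hNN.le
  refine h1.trans ?_
  have h2 : (N' : ℝ) ^ κ ≤ 9 := by
    have hN'0 : (0 : ℝ) < N' := by exact_mod_cast (by omega : 0 < N')
    have h3 : (N' : ℝ) ≤ 2 * N := by exact_mod_cast hN'
    have h4 : Real.log N' ≤ Real.log 2 + a := by
      have := Real.log_le_log hN'0 h3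
      rwa [Real.log_mul (by norm_num) hN0.ne'] at this
    have h5 : Real.log N' * κ ≤ 2 := by
      rw [hκ, mul_one_div, div_le_iff₀ ha0]
      have := Real.log_two_lt_d9
      linarith
    rw [Real.rpow_def_of_pos hN'0]
    calc Real.exp (Real.log N' * κ) ≤ Real.exp 2 := Real.exp_le_exp.2 h5
      _ = Real.exp 1 * Real.exp 1 := by rw [← Real.exp_add]; norm_num
      _ ≤ 3 * 3 := by
        have h6 := Real.exp_one_lt_three.le
        have h7 := (Real.exp_pos 1).le
        exact mul_le_mul h6 h6 h7 (by norm_num)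
      _ = 9 := by norm_num
  have h3 : 0 ≤ C0 * R := by positivity
  have h4 : 2 * (N' : ℝ) ^ κ * (C0 * R) ≤ 2 * 9 * (C0 * R) := by
    apply mul_le_mul_of_nonneg_right _ h3
    linarith
  refine h4.trans (le_of_eq ?_)
  ring

end Pool.Agent.H43.LF
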