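import Mathlib

/-!
# [H43 LF L341] The 3-4-1 inequality for logarithmic derivatives

`4 Re(L'/L(σ+it,χ)) + Re(L'/L(σ+2it,χ^2)) <= 3/(σ-1) + C` for `1 < σ <= 2`, all `q`, `χ`, `t`, with an
absolute `C`.

PROOF. For `Re s > 1`: `-L'/L(s,χ) = Σ Λ(n)χ(n)n^(-s)` (`DirichletCharacter.LSeries_twist_vonMangoldt_eq`,
`DirichletCharacter.deriv_LFunction_eq_deriv_LSeries`, `DirichletCharacter.LFunction_eq_LSeries`). So
`3 Σ_{(n,q)=1} Λ(n)n^(-σ) - 4 Re(L'/L(σ+it,χ)) - Re(L'/L(σ+2it,χ^2))`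
`= Σ_{(n,q)=1} Λ(n) n^(-σ) (3 + 4 cos θ_n + cos 2θ_n) >= 0`, where `χ(n) n^(-it) = e^{iθ_n}`
(`3 + 4c + (2c^2-1) = 2(1+c)^2`; `z = χ(n) n^(-it)` has norm 1 for `(n,q) = 1`,
`3 + 4 Re z + Re z^2 = 2(1 + Re z)^2`). And `Σ_{(n,q)=1} Λ(n)n^(-σ) <= Σ Λ(n) n^(-σ) = -ζ'/ζ(σ)
<= 1/(σ-1) + C'` on `(1,2]`: `ζ'/ζ(s) + 1/(s-1)` extends continuously to `s = 1`
(e.g. `(s-1)ζ(s)` is analytic and nonzero on `[1,2]`, `riemannZeta_residue_one`,
`ArithmeticFunction.vonMangoldt.continuousOn_LFunctionResidueClassAux` for `q = 1`, or directly: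
`-ζ'(σ) = Σ log n n^(-σ) <= 1/(σ-1)^2 + C`, `ζ(σ) >= 1/(σ-1)`), then compactness of `[1,2]`.
-/

namespace Pool.Agent.H43.LF

open ArithmeticFunction DirichletCharacter Complex

private noncomputable def lam (σ : ℝ) (n : ℕ) : ℝ := vonMangoldt n / (n : ℝ) ^ σ

private theorem l341_zeta : ∃ C : ℝ, 0 ≤ C ∧ ∀ σ : ℝ, 1 < σ → σ ≤ 2 →
    ∑' n : ℕ, lam σ n ≤ 1 / (σ - 1) + C := by
  have ha : IsUnit (1 : ZMod 1) := isUnit_one
  have H : ∀ {x : ℝ}, 1 < x → ∑' n : ℕ, lam x n =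
      (vonMangoldt.LFunctionResidueClassAux (1 : ZMod 1) x).re + 1 / (x - 1) := by
    intro x hx
    have h1 := vonMangoldt.eqOn_LFunctionResidueClassAux ha (x := (x : ℂ))
      (by simpa using hx)
    have h2 := vonMangoldt.LFunctionResidueClassAux_real ha hx
    have h3 : ((∑' n : ℕ, lam x n : ℝ) : ℂ) =
        LSeries (fun n => ((vonMangoldt.residueClass (1 : ZMod 1) n : ℝ) : ℂ)) x := by
      rw [LSeries, ofReal_tsum]
      refine tsum_congr fun n => ?_
      have hres : vonMangoldt.residueClass (1 : ZMod 1) n = vonMangoldt n := by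
        apply Set.indicator_of_mem
        exact Subsingleton.elim _ _
      unfold LSeries.term lam
      split_ifs with hn
      · simp [hn]
      · beta_reduce
        rw [hres]
        push_cast
        rw [ofReal_cpow (Nat.cast_nonneg _)]
        simp
    have h4 : ((∑' n : ℕ, lam x n : ℝ) : ℂ) =
        (((vonMangoldt.LFunctionResidueClassAux (1 : ZMod 1) x).re + 1 / (x - 1) : ℝ) : ℂ) := by
      rw [h3]
      push_cast
      rw [← h2, h1]
      simp
    exact_mod_cast h4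
  have hcont : ContinuousOn
      (fun x : ℝ => (vonMangoldt.LFunctionResidueClassAux (1 : ZMod 1) x).re) (Set.Icc 1 2) :=
    continuous_re.continuousOn.comp (t := Set.univ)
      (vonMangoldt.continuousOn_LFunctionResidueClassAux (1 : ZMod 1))
      (fun ⦃x⦄ a => trivial) |>.comp continuous_ofReal.continuousOn fun x hx => by
        simpa only [Set.mem_ofPred_eq, ofReal_re] using hx.1
  obtain ⟨C, hC⟩ := (isCompact_Icc.bddAbove_image hcont)
  refine ⟨max C 0, le_max_right _ _, ?_⟩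
  intro σ h1 h2
  rw [H h1]
  have := hC (Set.mem_image_of_mem _ (⟨h1.le, h2⟩ : σ ∈ Set.Icc (1 : ℝ) 2))
  have h3 := le_max_left C 0
  linarith

private theorem lam_summable {σ : ℝ} (h : 1 < σ) : Summable (lam σ) := by
  have h1 := LSeriesSummable_vonMangoldt (s := (σ : ℂ)) (by simpa using h)
  have h2 : Summable fun n => (LSeries.term (fun n => ((vonMangoldt n : ℝ) : ℂ)) σ n).re :=
    Complex.reCLM.summable h1
  refine h2.congr fun n => ?_
  unfold LSeries.term lam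
  split_ifs with hn
  · simp [hn]
  · have : ((vonMangoldt n : ℝ) : ℂ) / (n : ℂ) ^ (σ : ℂ) =
        ((vonMangoldt n / (n : ℝ) ^ σ : ℝ) : ℂ) := by
      push_cast
      rw [ofReal_cpow (Nat.cast_nonneg _)]
      simp
    rw [this, ofReal_re]

private theorem term_eq {q : ℕ} (χ : DirichletCharacter ℂ q) (σ u : ℝ) (n : ℕ) (hn : n ≠ 0) :
    LSeries.term ((fun n : ℕ => χ n) * fun n : ℕ => ((vonMangoldt n : ℝ) : ℂ)) (σ + u * I) n =
      ((lam σ n : ℝ) : ℂ) * (χ n * (n : ℂ) ^ (-(u : ℂ) * I)) := by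
  unfold LSeries.term lam
  rw [if_neg hn]
  simp only [Pi.mul_apply]
  have hn' : (n : ℂ) ≠ 0 := by exact_mod_cast hn
  push_cast
  rw [ofReal_cpow (Nat.cast_nonneg _), Complex.cpow_add _ _ hn', neg_mul, Complex.cpow_neg]
  simp only [ofReal_natCast]
  rw [div_eq_mul_inv, div_eq_mul_inv, mul_inv]
  ring

private theorem term_ineq {q : ℕ} (χ : DirichletCharacter ℂ q) (σ t : ℝ) (n : ℕ) :
    0 ≤ 3 * lam σ n +
      4 * (LSeries.term ((fun n : ℕ => χ n) * fun n : ℕ => ((vonMangoldt n : ℝ) : ℂ))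
        (σ + t * I) n).re +
      (LSeries.term ((fun n : ℕ => (χ ^ 2) n) * fun n : ℕ => ((vonMangoldt n : ℝ) : ℂ))
        (σ + 2 * t * I) n).re := by
  rcases eq_or_ne n 0 with rfl | hn
  · simp [lam]
  · have h2 : (σ + 2 * t * I : ℂ) = σ + ((2 * t : ℝ) : ℂ) * I := by push_cast; ring
    rw [term_eq χ σ t n hn, h2, term_eq (χ ^ 2) σ (2 * t) n hn]
    have hl : 0 ≤ lam σ n := by
      unfold lam
      exact div_nonneg vonMangoldt_nonneg (by positivity)
    rw [re_ofReal_mul, re_ofReal_mul]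
    by_cases hu : IsUnit (n : ZMod q)
    · set z : ℂ := χ n * (n : ℂ) ^ (-(t : ℂ) * I) with hz
      have hn' : (n : ℂ) ≠ 0 := by exact_mod_cast hn
      have hz2 : (χ ^ 2) n * (n : ℂ) ^ (-((2 * t : ℝ) : ℂ) * I) = z ^ 2 := by
        rw [hz, mul_pow, MulChar.pow_apply' χ (by norm_num), ← Complex.cpow_nat_mul]
        congr 2
        push_cast
        ring
      have hnz : ‖z‖ = 1 := by
        rw [hz, norm_mul]
        have h3 : ‖χ n‖ = 1 := DirichletCharacter.unit_norm_eq_one χ hu.unit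
        have h4 : ‖(n : ℂ) ^ (-(t : ℂ) * I)‖ = 1 := by
          rw [Complex.norm_natCast_cpow_of_pos (Nat.pos_of_ne_zero hn)]
          simp
        rw [h3, h4, one_mul]
      rw [hz2]
      have h5 : (z ^ 2).re = 2 * z.re ^ 2 - 1 := by
        have h6 : z.re ^ 2 + z.im ^ 2 = 1 := by
          have := Complex.sq_norm z
          rw [hnz, Complex.normSq_apply] at this
          nlinarith
        rw [pow_two z, Complex.mul_re]
        nlinarith
      rw [h5]
      have h7 : 3 * lam σ n + 4 * (lam σ n * z.re) + lam σ n * (2 * z.re ^ 2 - 1) =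
          2 * lam σ n * (1 + z.re) ^ 2 := by ring
      rw [h7]
      positivity
    · have h1 : χ (n : ZMod q) = 0 := MulChar.map_nonunit χ hu
      have h2 : (χ ^ 2) (n : ZMod q) = 0 := MulChar.map_nonunit _ hu
      rw [h1, h2]
      simp
      exact hl

theorem l341 : ∃ C : ℝ, 0 ≤ C ∧ ∀ (q : ℕ) [NeZero q] (χ : DirichletCharacter ℂ q) (σ t : ℝ),
    1 < σ → σ ≤ 2 →
    4 * (deriv χ.LFunction (σ + t * Complex.I) / χ.LFunction (σ + t * Complex.I)).re +
      (deriv (χ ^ 2).LFunction (σ + 2 * t * Complex.I) /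
        (χ ^ 2).LFunction (σ + 2 * t * Complex.I)).re ≤ 3 / (σ - 1) + C := by
  obtain ⟨C, hC0, hC⟩ := l341_zeta
  refine ⟨3 * C, by positivity, ?_⟩
  intro q _ χ σ t h1 h2
  have hs1 : 1 < (σ + t * I : ℂ).re := by simpa using h1
  have hs2 : 1 < (σ + 2 * t * I : ℂ).re := by simpa using h1
  have e1 : deriv χ.LFunction (σ + t * I) / χ.LFunction (σ + t * I) =
      - LSeries ((fun n : ℕ => χ n) * fun n : ℕ => ((vonMangoldt n : ℝ) : ℂ)) (σ + t * I) := by
    have := LSeries_twist_vonMangoldt_eq χ hs1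
    rw [deriv_LFunction_eq_deriv_LSeries χ hs1, LFunction_eq_LSeries χ hs1]
    rw [this]
    ring
  have e2 : deriv (χ ^ 2).LFunction (σ + 2 * t * I) / (χ ^ 2).LFunction (σ + 2 * t * I) =
      - LSeries ((fun n : ℕ => (χ ^ 2) n) * fun n : ℕ => ((vonMangoldt n : ℝ) : ℂ))
        (σ + 2 * t * I) := by
    have := LSeries_twist_vonMangoldt_eq (χ ^ 2) hs2
    rw [deriv_LFunction_eq_deriv_LSeries (χ ^ 2) hs2, LFunction_eq_LSeries (χ ^ 2) hs2]
    rw [this]
    ring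
  have s0 := lam_summable h1
  have s1 : Summable (LSeries.term ((fun n : ℕ => χ n) * fun n : ℕ => ((vonMangoldt n : ℝ) : ℂ))
      (σ + t * I)) := LSeriesSummable_twist_vonMangoldt χ hs1
  have s2 : Summable (LSeries.term ((fun n : ℕ => (χ ^ 2) n) *
      fun n : ℕ => ((vonMangoldt n : ℝ) : ℂ)) (σ + 2 * t * I)) :=
    LSeriesSummable_twist_vonMangoldt (χ ^ 2) hs2
  have s1r : Summable fun n => (LSeries.term ((fun n : ℕ => χ n) *
      fun n : ℕ => ((vonMangoldt n : ℝ) : ℂ)) (σ + t * I) n).re := Complex.reCLM.summable s1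
  have s2r : Summable fun n => (LSeries.term ((fun n : ℕ => (χ ^ 2) n) *
      fun n : ℕ => ((vonMangoldt n : ℝ) : ℂ)) (σ + 2 * t * I) n).re := Complex.reCLM.summable s2
  have hpos : 0 ≤ ∑' n : ℕ, (3 * lam σ n +
      4 * (LSeries.term ((fun n : ℕ => χ n) * fun n : ℕ => ((vonMangoldt n : ℝ) : ℂ))
        (σ + t * I) n).re +
      (LSeries.term ((fun n : ℕ => (χ ^ 2) n) * fun n : ℕ => ((vonMangoldt n : ℝ) : ℂ))
        (σ + 2 * t * I) n).re) := tsum_nonneg fun n => term_ineq χ σ t n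
  have hsum : ∑' n : ℕ, (3 * lam σ n +
      4 * (LSeries.term ((fun n : ℕ => χ n) * fun n : ℕ => ((vonMangoldt n : ℝ) : ℂ))
        (σ + t * I) n).re +
      (LSeries.term ((fun n : ℕ => (χ ^ 2) n) * fun n : ℕ => ((vonMangoldt n : ℝ) : ℂ))
        (σ + 2 * t * I) n).re) = 3 * ∑' n : ℕ, lam σ n +
      4 * (LSeries ((fun n : ℕ => χ n) * fun n : ℕ => ((vonMangoldt n : ℝ) : ℂ)) (σ + t * I)).re +
      (LSeries ((fun n : ℕ => (χ ^ 2) n) * fun n : ℕ => ((vonMangoldt n : ℝ) : ℂ))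
        (σ + 2 * t * I)).re := by
    rw [Summable.tsum_add ((s0.mul_left 3).add (s1r.mul_left 4)) s2r,
      Summable.tsum_add (s0.mul_left 3) (s1r.mul_left 4), tsum_mul_left, tsum_mul_left]
    unfold LSeries
    rw [Complex.re_tsum s1, Complex.re_tsum s2]
  rw [hsum] at hpos
  have := hC σ h1 h2
  rw [e1, e2]
  simp only [neg_re]
  have h3 : 3 / (σ - 1) = 3 * (1 / (σ - 1)) := by ring
  rw [h3]
  linarith

end Pool.Agent.H43.LF
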