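import Pool.Agent.H43.LF.Defs
import Pool.Agent.H92.SW.Basic

/-!
# [H43 LF EM] Smooth sums, small `t`

`‖Σ_{N<n<=N'} χ(n) n^(-1-it)‖ <= 10 q (1/|t| + (1+|t|)/N)` for `t ≠ 0`, `N >= 1`, `N' <= 2N`.

PROOF. `S(u) = Σ_{n<=u} χ(n) = ρ u + E(u)`, `|E(u)| <= q` (`ρ = rho χ <= 1`; see LF/Lap.lean and H92/SW/Basic.lean,
H92/SW/Triv.lean). Partial summation with `g(u) = u^(-1-it)`, `|g'(u)| = |1+it| u^(-2)`:
`Σ_{N<n<=N'} χ(n) g(n) = ρ ∫_N^{N'} g + E(N')g(N') - E(N)g(N) - ∫_N^{N'} E g'`, and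
`|∫_N^{N'} u^(-1-it) du| = |N'^(-it) - N^(-it)|/|t| <= 2/|t|`, the rest is `<= 2q/N + q(1+|t|)/N`.
-/

namespace Pool.Agent.H43.LF

open Finset

/-- the smooth factor -/
noncomputable def emg (t : ℝ) (x : ℝ) : ℂ := (x : ℂ) ^ (-(1 + (t : ℂ) * Complex.I))

/-- its primitive -/
noncomputable def emF (t : ℝ) (x : ℝ) : ℂ :=
  (x : ℂ) ^ (-(1 + (t : ℂ) * Complex.I) + 1) / (-(1 + (t : ℂ) * Complex.I) + 1)

theorem em_ne (t : ℝ) (ht : t ≠ 0) : (-(1 + (t : ℂ) * Complex.I)) ≠ -1 := by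
  intro h
  have := congrArg Complex.im h
  simp at this
  exact ht this

theorem em_norm_s (t : ℝ) : ‖-(1 + (t : ℂ) * Complex.I)‖ ≤ 1 + |t| := by
  rw [norm_neg]
  refine (norm_add_le _ _).trans ?_
  simp

theorem em_norm_g (t x : ℝ) (hx : 0 < x) : ‖emg t x‖ = 1 / x := by
  unfold emg
  rw [Complex.norm_cpow_eq_rpow_re_of_pos hx]
  simp only [Complex.neg_re, Complex.add_re, Complex.one_re, Complex.mul_re, Complex.ofReal_re,
    Complex.I_re, mul_zero, Complex.ofReal_im, Complex.I_im, mul_one, sub_zero, add_zero]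
  rw [Real.rpow_neg_one, one_div]

theorem em_hasDeriv_F (t : ℝ) (ht : t ≠ 0) (x : ℝ) (hx : 0 < x) :
    HasDerivAt (emF t) (emg t x) x :=
  hasDerivAt_ofReal_cpow_const' hx.ne' (em_ne t ht)

theorem em_hasDeriv_g (t : ℝ) (x : ℝ) (hx : 0 < x) :
    HasDerivAt (emg t) (-(1 + (t : ℂ) * Complex.I) *
      (x : ℂ) ^ (-(1 + (t : ℂ) * Complex.I) - 1)) x := by
  have h0 : (-(1 + (t : ℂ) * Complex.I)) ≠ 0 := by
    intro h
    have := congrArg Complex.re h
    simp at this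
  exact hasDerivAt_ofReal_cpow_const hx.ne' h0

theorem em_lip (t x y : ℝ) (hx : 0 < x) (hxy : x ≤ y) :
    ‖emg t y - emg t x‖ ≤ (1 + |t|) / x ^ 2 * (y - x) := by
  have h := Convex.norm_image_sub_le_of_norm_hasDerivWithin_le (𝕜 := ℝ) (f := emg t)
    (f' := fun u => -(1 + (t : ℂ) * Complex.I) * (u : ℂ) ^ (-(1 + (t : ℂ) * Complex.I) - 1))
    (C := (1 + |t|) / x ^ 2) (s := Set.Icc x y) (x := x) (y := y) ?_ ?_ (convex_Icc x y)
    (Set.left_mem_Icc.2 hxy) (Set.right_mem_Icc.2 hxy)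
  · rwa [Real.norm_of_nonneg (sub_nonneg.2 hxy)] at h
  · intro u hu
    exact (em_hasDeriv_g t u (hx.trans_le hu.1)).hasDerivWithinAt
  · intro u hu
    have hu0 : 0 < u := hx.trans_le hu.1
    rw [norm_mul, Complex.norm_cpow_eq_rpow_re_of_pos hu0]
    have h1 : (-(1 + (t : ℂ) * Complex.I) - 1).re = -((2 : ℕ) : ℝ) := by
      simp only [Complex.sub_re, Complex.neg_re, Complex.add_re, Complex.one_re, Complex.mul_re,
        Complex.ofReal_re, Complex.I_re, mul_zero, Complex.ofReal_im, Complex.I_im, mul_one,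
        sub_zero, add_zero]
      norm_num
    rw [h1, Real.rpow_neg hu0.le, Real.rpow_natCast, div_eq_mul_inv]
    have h2 : (u ^ 2)⁻¹ ≤ (x ^ 2)⁻¹ := by
      have := hu.1
      gcongr
    exact mul_le_mul (em_norm_s t) h2 (by positivity) (by positivity)

theorem em_step (t : ℝ) (ht : t ≠ 0) (n : ℕ) (hn : 1 ≤ n) :
    ‖emF t (n + 1 : ℕ) - emF t n - emg t (n + 1 : ℕ)‖ ≤ (1 + |t|) / (n : ℝ) ^ 2 := by
  have hn0 : (0 : ℝ) < n := by exact_mod_cast hn
  have h := Convex.norm_image_sub_le_of_norm_hasDerivWithin_le (𝕜 := ℝ)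
    (f := fun u : ℝ => emF t u - (u : ℂ) * emg t (n + 1 : ℕ))
    (f' := fun u => emg t u - emg t (n + 1 : ℕ))
    (C := (1 + |t|) / (n : ℝ) ^ 2) (s := Set.Icc (n : ℝ) ((n + 1 : ℕ) : ℝ)) (x := (n : ℝ))
    (y := ((n + 1 : ℕ) : ℝ)) ?_ ?_ (convex_Icc _ _)
    (Set.left_mem_Icc.2 (by push_cast; linarith)) (Set.right_mem_Icc.2 (by push_cast; linarith))
  · have h1 : ‖(((n + 1 : ℕ) : ℝ) - (n : ℝ))‖ = 1 := by
      push_cast
      norm_num
    rw [h1, mul_one] at h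
    refine le_trans (le_of_eq ?_) h
    congr 1
    push_cast
    ring
  · intro u hu
    have hu0 : 0 < u := hn0.trans_le hu.1
    have h2 := (em_hasDeriv_F t ht u hu0).sub ((Complex.ofRealCLM.hasDerivAt (x := u)).mul_const
      (emg t (n + 1 : ℕ)))
    simp only [Complex.ofRealCLM_apply, Complex.ofReal_one, one_mul] at h2
    exact h2.hasDerivWithinAt
  · intro u hu
    have hu0 : 0 < u := hn0.trans_le hu.1
    have h3 := em_lip t u ((n + 1 : ℕ) : ℝ) hu0 hu.2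
    rw [norm_sub_rev]
    refine h3.trans ?_
    have h4 : ((n + 1 : ℕ) : ℝ) - u ≤ 1 := by
      have := hu.1
      push_cast
      linarith
    have h5 : (1 + |t|) / u ^ 2 ≤ (1 + |t|) / (n : ℝ) ^ 2 := by
      have := hu.1
      gcongr
    have h6 : 0 ≤ (1 + |t|) / u ^ 2 := by positivity
    calc (1 + |t|) / u ^ 2 * (((n + 1 : ℕ) : ℝ) - u) ≤ (1 + |t|) / u ^ 2 * 1 := by gcongr
      _ ≤ (1 + |t|) / (n : ℝ) ^ 2 := by rw [mul_one]; exact h5

theorem em_tele (n : ℕ) (hn : 1 ≤ n) :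
    1 / (n : ℝ) ^ 2 ≤ 2 * (1 / (n : ℝ) - 1 / ((n + 1 : ℕ) : ℝ)) := by
  have hn0 : (1 : ℝ) ≤ n := by exact_mod_cast hn
  push_cast
  rw [div_sub_div _ _ (by positivity) (by positivity), div_le_iff₀ (by positivity)]
  have h1 : 2 * ((1 * ((n : ℝ) + 1) - n * 1) / (n * (n + 1))) * (n : ℝ) ^ 2 =
      2 * n / (n + 1) := by
    field_simp
    ring
  rw [h1, le_div_iff₀ (by positivity)]
  linarith

theorem em_smooth (t : ℝ) (ht : t ≠ 0) (N N' : ℕ) (hN : 1 ≤ N) (h : N ≤ N') :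
    ‖∑ n ∈ Ioc N N', emg t n - (emF t N' - emF t N)‖ ≤
      2 * (1 + |t|) * (1 / (N : ℝ) - 1 / (N' : ℝ)) := by
  induction N', h using Nat.le_induction with
  | base => simp
  | succ m hm ih =>
    rw [Finset.sum_Ioc_succ_top hm]
    have h1 := em_step t ht m (hN.trans hm)
    have h2 := em_tele m (hN.trans hm)
    have h3 : (1 + |t|) / (m : ℝ) ^ 2 ≤
        2 * (1 + |t|) * (1 / (m : ℝ) - 1 / ((m + 1 : ℕ) : ℝ)) := by
      calc (1 + |t|) / (m : ℝ) ^ 2 = (1 + |t|) * (1 / (m : ℝ) ^ 2) := by ring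
        _ ≤ (1 + |t|) * (2 * (1 / (m : ℝ) - 1 / ((m + 1 : ℕ) : ℝ))) := by gcongr
        _ = _ := by ring
    have h4 : ∑ n ∈ Ioc N m, emg t n + emg t (m + 1 : ℕ) - (emF t (m + 1 : ℕ) - emF t N) =
        (∑ n ∈ Ioc N m, emg t n - (emF t m - emF t N)) -
          (emF t (m + 1 : ℕ) - emF t m - emg t (m + 1 : ℕ)) := by ring
    rw [h4]
    refine (norm_sub_le _ _).trans ?_
    refine (add_le_add ih (h1.trans h3)).trans (le_of_eq ?_)
    ring

theorem em_abel (e : ℕ → ℂ) (Q : ℝ) (hQ : 0 ≤ Q) (hE : ∀ m : ℕ, ‖∑ k ∈ Icc 1 m, e k‖ ≤ Q) (t : ℝ)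
    (N N' : ℕ) (hN : 1 ≤ N) (h : N ≤ N') :
    ‖∑ n ∈ Ioc N N', e n * emg t n - (∑ k ∈ Icc 1 N', e k) * emg t N'‖ ≤
      Q / N + 2 * Q * (1 + |t|) * (1 / (N : ℝ) - 1 / (N' : ℝ)) := by
  induction N', h using Nat.le_induction with
  | base =>
    have hN0 : (0 : ℝ) < N := by exact_mod_cast hN
    simp only [Ioc_self, sum_empty, zero_sub, norm_neg, sub_self, mul_zero, add_zero, norm_mul]
    rw [em_norm_g t N hN0, mul_one_div]
    have := hE N
    gcongr
  | succ m hm ih =>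
    have hm1 : 1 ≤ m := hN.trans hm
    have hm0 : (0 : ℝ) < m := by exact_mod_cast hm1
    rw [Finset.sum_Ioc_succ_top hm, Finset.sum_Icc_succ_top (by omega)]
    have h1 := em_lip t m ((m + 1 : ℕ) : ℝ) hm0 (by push_cast; linarith)
    have h1' : ‖emg t ((m + 1 : ℕ) : ℝ) - emg t m‖ ≤ (1 + |t|) / (m : ℝ) ^ 2 := by
      refine h1.trans (le_of_eq ?_)
      push_cast
      ring
    have h2 := em_tele m hm1
    have h3 : Q * ((1 + |t|) / (m : ℝ) ^ 2) ≤
        2 * Q * (1 + |t|) * (1 / (m : ℝ) - 1 / ((m + 1 : ℕ) : ℝ)) := by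
      calc Q * ((1 + |t|) / (m : ℝ) ^ 2) = Q * (1 + |t|) * (1 / (m : ℝ) ^ 2) := by ring
        _ ≤ Q * (1 + |t|) * (2 * (1 / (m : ℝ) - 1 / ((m + 1 : ℕ) : ℝ))) := by gcongr
        _ = _ := by ring
    have h4 : ∑ n ∈ Ioc N m, e n * emg t n + e (m + 1) * emg t (m + 1 : ℕ) -
        (∑ k ∈ Icc 1 m, e k + e (m + 1)) * emg t (m + 1 : ℕ) =
        (∑ n ∈ Ioc N m, e n * emg t n - (∑ k ∈ Icc 1 m, e k) * emg t m) -
          (∑ k ∈ Icc 1 m, e k) * (emg t (m + 1 : ℕ) - emg t m) := by ring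
    rw [h4]
    refine (norm_sub_le _ _).trans ?_
    have h5 : ‖(∑ k ∈ Icc 1 m, e k) * (emg t (m + 1 : ℕ) - emg t m)‖ ≤
        Q * ((1 + |t|) / (m : ℝ) ^ 2) := by
      rw [norm_mul]
      exact mul_le_mul (hE m) h1' (norm_nonneg _) hQ
    refine (add_le_add ih (h5.trans h3)).trans (le_of_eq ?_)
    ring

theorem em_norm_F (t x : ℝ) (ht : t ≠ 0) (hx : 0 < x) : ‖emF t x‖ = 1 / |t| := by
  unfold emF
  have h1 : -(1 + (t : ℂ) * Complex.I) + 1 = ((-t : ℝ) : ℂ) * Complex.I := by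
    push_cast
    ring
  rw [h1, norm_div, Complex.norm_cpow_eq_rpow_re_of_pos hx, norm_mul, Complex.norm_real,
    Complex.norm_I, mul_one]
  simp

theorem em_char {q : ℕ} [NeZero q] (χ : DirichletCharacter ℂ q) (m : ℕ) :
    ‖∑ k ∈ Icc 1 m, (χ k - (rho χ : ℂ))‖ ≤ q := by
  classical
  have hq : 0 < q := Nat.pos_of_ne_zero (NeZero.ne q)
  by_cases hχ : χ = 1
  · subst hχ
    have hr : rho (1 : DirichletCharacter ℂ q) = (q.totient : ℝ) / q := if_pos rfl
    set mu : ℝ := (q.totient : ℝ) / q with hmu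
    have hqR : (1 : ℝ) ≤ q := by exact_mod_cast hq
    have hmu0 : 0 ≤ mu := by positivity
    have hmu1 : mu ≤ 1 := by
      rw [hmu, div_le_one (by linarith)]
      exact_mod_cast Nat.totient_le q
    rw [hr]
    refine Pool.Agent.H92.SW.norm_sum_Icc_le_period
      (fun x : ZMod q => (1 : DirichletCharacter ℂ q) x - (mu : ℂ)) ?_ ?_ m
    · rw [Finset.sum_sub_distrib, MulChar.sum_one_eq_card_units, ZMod.card_units_eq_totient]
      simp only [Finset.sum_const, Finset.card_univ, ZMod.card, nsmul_eq_mul]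
      rw [hmu]
      push_cast
      have : (q : ℂ) ≠ 0 := by exact_mod_cast hq.ne'
      field_simp
      ring
    · intro x
      by_cases hx : IsUnit x
      · rw [MulChar.one_apply hx]
        have h5 : (1 : ℂ) - (mu : ℂ) = ((1 - mu : ℝ) : ℂ) := by push_cast; ring
        rw [h5, Complex.norm_real, Real.norm_of_nonneg (by linarith)]
        linarith
      · rw [MulChar.map_nonunit _ hx, zero_sub, norm_neg, Complex.norm_real,
          Real.norm_of_nonneg hmu0]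
        exact hmu1
  · have hr : rho χ = 0 := if_neg hχ
    rw [hr]
    simp only [Complex.ofReal_zero, sub_zero]
    exact Pool.Agent.H92.SW.norm_sum_Icc_le_period (fun x => χ x)
      (χ.sum_eq_zero_of_ne_one hχ) (fun x => χ.norm_le_one x) m

theorem em_rho {q : ℕ} [NeZero q] (χ : DirichletCharacter ℂ q) : 0 ≤ rho χ ∧ rho χ ≤ 1 := by
  have hq : 0 < q := Nat.pos_of_ne_zero (NeZero.ne q)
  have hqR : (1 : ℝ) ≤ q := by exact_mod_cast hq
  unfold rho
  split_ifs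
  · refine ⟨by positivity, ?_⟩
    rw [div_le_one (by linarith)]
    exact_mod_cast Nat.totient_le q
  · exact ⟨le_refl _, zero_le_one⟩

theorem em {q : ℕ} [NeZero q] (χ : DirichletCharacter ℂ q) (N N' : ℕ) (hN : 1 ≤ N)
    (hN' : N' ≤ 2 * N) (t : ℝ) (ht : t ≠ 0) :
    ‖ds (fun n => χ n) N N' t‖ ≤ 10 * q * (1 / |t| + (1 + |t|) / N) := by
  have hq : 0 < q := Nat.pos_of_ne_zero (NeZero.ne q)
  have hqR : (1 : ℝ) ≤ q := by exact_mod_cast hq
  have hN0 : (0 : ℝ) < N := by exact_mod_cast hN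
  have ht0 : 0 < |t| := abs_pos.2 ht
  rcases lt_or_ge N' N with hlt | hge
  · unfold ds
    rw [Ioc_eq_empty_of_le hlt.le]
    simp only [sum_empty, norm_zero]
    positivity
  · have hN'0 : (0 : ℝ) < N' := by exact_mod_cast (by omega : 0 < N')
    obtain ⟨hr0, hr1⟩ := em_rho χ
    have h1 : ds (fun n => χ n) N N' t = (rho χ : ℂ) * ∑ n ∈ Ioc N N', emg t n +
        ∑ n ∈ Ioc N N', (χ n - (rho χ : ℂ)) * emg t n := by
      unfold ds
      rw [mul_sum, ← sum_add_distrib]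
      refine sum_congr rfl fun n _ => ?_
      simp only [emg, Complex.ofReal_natCast]
      ring
    have h2 := em_smooth t ht N N' hN hge
    have h3 := em_abel (fun n => χ n - (rho χ : ℂ)) q (by positivity) (em_char χ) t N N' hN hge
    have h4 : ‖∑ n ∈ Ioc N N', emg t n‖ ≤ 2 / |t| + 2 * (1 + |t|) / N := by
      have h5 : ∑ n ∈ Ioc N N', emg t n = (∑ n ∈ Ioc N N', emg t n - (emF t N' - emF t N)) +
          (emF t N' - emF t N) := by ring
      rw [h5]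
      refine (norm_add_le _ _).trans ?_
      have h6 : ‖emF t N' - emF t N‖ ≤ 2 / |t| := by
        refine (norm_sub_le _ _).trans ?_
        rw [em_norm_F t _ ht hN'0, em_norm_F t _ ht hN0]
        apply le_of_eq
        ring
      have h7 : 2 * (1 + |t|) * (1 / (N : ℝ) - 1 / (N' : ℝ)) ≤ 2 * (1 + |t|) / N := by
        have h8 : 0 ≤ 2 * (1 + |t|) * (1 / (N' : ℝ)) := by positivity
        have h9 : 2 * (1 + |t|) * (1 / (N : ℝ) - 1 / (N' : ℝ)) =
            2 * (1 + |t|) / N - 2 * (1 + |t|) * (1 / (N' : ℝ)) := by ring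
        linarith
      linarith
    have h5 : ‖∑ n ∈ Ioc N N', (χ n - (rho χ : ℂ)) * emg t n‖ ≤ 4 * q * (1 + |t|) / N := by
      have h6 : ∑ n ∈ Ioc N N', (χ n - (rho χ : ℂ)) * emg t n =
          (∑ n ∈ Ioc N N', (χ n - (rho χ : ℂ)) * emg t n -
            (∑ k ∈ Icc 1 N', (χ k - (rho χ : ℂ))) * emg t N') +
            (∑ k ∈ Icc 1 N', (χ k - (rho χ : ℂ))) * emg t N' := by ring
      rw [h6]
      refine (norm_add_le _ _).trans ?_
      have h7 : ‖(∑ k ∈ Icc 1 N', (χ k - (rho χ : ℂ))) * emg t N'‖ ≤ q / N := by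
        rw [norm_mul, em_norm_g t _ hN'0, mul_one_div]
        have h8 := em_char χ N'
        have h9 : (N : ℝ) ≤ N' := by exact_mod_cast hge
        gcongr
      have h8 : (q : ℝ) / N + 2 * q * (1 + |t|) * (1 / (N : ℝ) - 1 / (N' : ℝ)) ≤
          q / N + 2 * q * (1 + |t|) / N := by
        have h9 : 0 ≤ 2 * q * (1 + |t|) * (1 / (N' : ℝ)) := by positivity
        have h10 : 2 * q * (1 + |t|) * (1 / (N : ℝ) - 1 / (N' : ℝ)) =
            2 * q * (1 + |t|) / N - 2 * q * (1 + |t|) * (1 / (N' : ℝ)) := by ring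
        linarith
      have h11 : (q : ℝ) / N ≤ q * (1 + |t|) / N := by
        have : (q : ℝ) ≤ q * (1 + |t|) := by nlinarith
        gcongr
      have h12 : 4 * q * (1 + |t|) / N = 2 * (q * (1 + |t|) / N) + 2 * q * (1 + |t|) / N := by ring
      linarith
    rw [h1]
    refine (norm_add_le _ _).trans ?_
    have h6 : ‖(rho χ : ℂ) * ∑ n ∈ Ioc N N', emg t n‖ ≤ q * (2 / |t| + 2 * (1 + |t|) / N) := by
      rw [norm_mul, Complex.norm_real, Real.norm_of_nonneg hr0]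
      exact mul_le_mul (hr1.trans hqR) h4 (norm_nonneg _) (by positivity)
    have h7 : 10 * q * (1 / |t| + (1 + |t|) / N) = q * (2 / |t| + 2 * (1 + |t|) / N) +
        4 * q * (1 + |t|) / N + (8 * q / |t| + 4 * q * (1 + |t|) / N) := by ring
    have h8 : 0 ≤ 8 * q / |t| + 4 * q * (1 + |t|) / N := by positivity
    linarith

end Pool.Agent.H43.LF
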