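import Mathlib

/-!
# [H43 LF CLS] Splitting a character sum into residue classes (used by Chi and Vdx)
-/

set_option autoImplicit false

namespace Pool.Agent.H43.LF

open Finset

theorem cls_split (q : ℕ) (hq : 0 < q) (g : ℕ → ℂ) (N N' : ℕ) (hN : q ≤ N) (hNN : N ≤ N') :
    ∑ n ∈ Ioc N N', g n =
      ∑ a ∈ range q, ∑ m ∈ Ioc ((N - a) / q) ((N' - a) / q), g (q * m + a) := by
  have h1 : ∀ n ∈ Ioc N N', n % q ∈ range q := fun n _ => mem_range.2 (Nat.mod_lt n hq)
  rw [← Finset.sum_fiberwise_of_maps_to h1]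
  refine Finset.sum_congr rfl fun a ha => ?_
  have ha' := mem_range.1 ha
  refine (Finset.sum_bij' (fun m _ => q * m + a) (fun n _ => n / q) ?_ ?_ ?_ ?_ ?_).symm
  · intro m hm
    rw [mem_Ioc, Nat.div_lt_iff_lt_mul hq, Nat.le_div_iff_mul_le hq] at hm
    rw [mem_filter, mem_Ioc]
    refine ⟨⟨?_, ?_⟩, ?_⟩
    · have := hm.1
      rw [mul_comm]
      omega
    · have := hm.2
      rw [mul_comm]
      omega
    · rw [Nat.mul_add_mod, Nat.mod_eq_of_lt ha']
  · intro n hn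
    rw [mem_filter, mem_Ioc] at hn
    obtain ⟨⟨hn1, hn2⟩, hn3⟩ := hn
    have h2 := Nat.div_add_mod n q
    rw [hn3, mul_comm] at h2
    rw [mem_Ioc, Nat.div_lt_iff_lt_mul hq, Nat.le_div_iff_mul_le hq]
    omega
  · intro m _
    show (q * m + a) / q = m
    rw [Nat.mul_add_div hq, Nat.div_eq_of_lt ha', add_zero]
  · intro n hn
    rw [mem_filter] at hn
    show q * (n / q) + a = n
    have h2 := Nat.div_add_mod n q
    rw [hn.2] at h2
    exact h2
  · intro m _
    rfl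

theorem cls_conj (t : ℝ) (s : Finset ℕ) (β : ℝ) :
    ‖∑ m ∈ s, Complex.exp (-(t * Real.log ((m : ℝ) + β) : ℝ) * Complex.I)‖ =
      ‖∑ m ∈ s, Complex.exp (-(|t| * Real.log ((m : ℝ) + β) : ℝ) * Complex.I)‖ := by
  rcases le_total 0 t with ht | ht
  · rw [abs_of_nonneg ht]
  · rw [abs_of_nonpos ht, ← Complex.norm_conj, map_sum]
    congr 1
    refine Finset.sum_congr rfl fun m _ => ?_
    rw [← Complex.exp_conj]
    congr 1
    rw [map_mul, map_neg, Complex.conj_ofReal, Complex.conj_I]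
    push_cast
    ring

theorem cls_chi (q : ℕ) [NeZero q] (χ : DirichletCharacter ℂ q) (t : ℝ) (N N' : ℕ) (hN : q ≤ N)
    (B : ℝ) (hB : 0 ≤ B)
    (h : N ≤ N' → ∀ a < q, ‖∑ m ∈ Ioc ((N - a) / q) ((N' - a) / q),
      Complex.exp (-(|t| * Real.log ((m : ℝ) + (a : ℝ) / q) : ℝ) * Complex.I)‖ ≤ B) :
    ‖∑ n ∈ Ioc N N', χ n * (n : ℂ) ^ (-((t : ℂ) * Complex.I))‖ ≤ q * B := by
  rcases lt_or_ge N' N with hlt | hNN
  · rw [Ioc_eq_empty (by omega), sum_empty, norm_zero]
    positivity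
  have hq : 0 < q := Nat.pos_of_ne_zero (NeZero.ne q)
  rw [cls_split q hq _ N N' hN hNN]
  refine (norm_sum_le _ _).trans ?_
  have h1 : ∀ a ∈ range q, ‖∑ m ∈ Ioc ((N - a) / q) ((N' - a) / q),
      χ ((q * m + a : ℕ) : ZMod q) * ((q * m + a : ℕ) : ℂ) ^ (-((t : ℂ) * Complex.I))‖ ≤ B := by
    intro a ha
    have ha' := mem_range.1 ha
    have h2 : ∀ m ∈ Ioc ((N - a) / q) ((N' - a) / q),
        χ ((q * m + a : ℕ) : ZMod q) * ((q * m + a : ℕ) : ℂ) ^ (-((t : ℂ) * Complex.I)) =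
        (χ (a : ZMod q) * Complex.exp (-(t * Real.log q : ℝ) * Complex.I)) *
          Complex.exp (-(t * Real.log ((m : ℝ) + (a : ℝ) / q) : ℝ) * Complex.I) := by
      intro m hm
      have hm1 : 0 < m := lt_of_le_of_lt (Nat.zero_le _) (mem_Ioc.1 hm).1
      have h3 : ((q * m + a : ℕ) : ZMod q) = (a : ZMod q) := by
        push_cast
        rw [ZMod.natCast_self, zero_mul, zero_add]
      have hn0 : ((q * m + a : ℕ) : ℂ) ≠ 0 := by
        have : q * m + a ≠ 0 := by positivity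
        exact_mod_cast this
      have hq0 : (0 : ℝ) < q := by exact_mod_cast hq
      have hm0 : (0 : ℝ) < m := by exact_mod_cast hm1
      have h4 : Real.log ((q * m + a : ℕ) : ℝ) = Real.log q + Real.log ((m : ℝ) + (a : ℝ) / q) := by
        rw [← Real.log_mul hq0.ne' (by positivity)]
        congr 1
        push_cast
        field_simp
      rw [h3, mul_assoc, ← Complex.exp_add, Complex.cpow_def_of_ne_zero hn0]
      congr 2
      rw [Complex.natCast_log.symm, h4]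
      push_cast
      ring
    rw [Finset.sum_congr rfl h2, ← Finset.mul_sum, norm_mul, norm_mul, cls_conj]
    have h5 : ‖Complex.exp (-(t * Real.log q : ℝ) * Complex.I)‖ = 1 := by
      have := Complex.norm_exp_ofReal_mul_I (-(t * Real.log q))
      push_cast at this ⊢
      exact this
    rw [h5, mul_one]
    have h6 : ‖χ (a : ZMod q)‖ ≤ 1 := χ.norm_le_one _
    have h7 := h hNN a ha'
    calc _ ≤ 1 * B := mul_le_mul h6 h7 (norm_nonneg _) zero_le_one
      _ = B := one_mul B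
  refine (Finset.sum_le_sum h1).trans ?_
  rw [sum_const, card_range, nsmul_eq_mul]

/-- Abel's inequality -/
theorem cls_abel (a : ℕ → ℂ) (w : ℕ → ℝ) (hw : ∀ n, w (n + 1) ≤ w n) (hw0 : ∀ n, 0 ≤ w n)
    (N N' : ℕ) (B : ℝ) (h : ∀ K ≤ N', ‖∑ n ∈ Ioc N K, a n‖ ≤ B) :
    ‖∑ n ∈ Ioc N N', (w n : ℂ) * a n‖ ≤ w (N + 1) * B := by
  have hB : 0 ≤ B := (norm_nonneg _).trans (h 0 (Nat.zero_le _))
  rcases le_or_gt N' N with hle | hlt
  · rw [Ioc_eq_empty (by omega), sum_empty, norm_zero]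
    exact mul_nonneg (hw0 _) hB
  obtain ⟨k, rfl⟩ : ∃ k, N' = N + k + 1 := ⟨N' - N - 1, by omega⟩
  have key : ∀ k : ℕ, ∑ n ∈ Ioc N (N + k + 1), (w n : ℂ) * a n =
      (w (N + k + 1) : ℂ) * (∑ n ∈ Ioc N (N + k + 1), a n) +
      ∑ j ∈ range k, ((w (N + j + 1) - w (N + j + 2) : ℝ) : ℂ) * ∑ n ∈ Ioc N (N + j + 1), a n := by
    intro k
    induction k with
    | zero => simp
    | succ k ih =>
      have e1 : ∀ f : ℕ → ℂ, ∑ n ∈ Ioc N (N + (k + 1) + 1), f n =
          ∑ n ∈ Ioc N (N + k + 1), f n + f (N + k + 2) := by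
        intro f
        rw [show N + (k + 1) + 1 = (N + k + 1) + 1 from rfl,
          Finset.sum_Ioc_succ_top (by omega)]
      rw [e1, e1, ih, sum_range_succ]
      push_cast
      rw [show N + (k + 1) + 1 = N + k + 2 from rfl]
      ring
  rw [key k]
  refine (norm_add_le _ _).trans ?_
  have h1 : ‖(w (N + k + 1) : ℂ) * (∑ n ∈ Ioc N (N + k + 1), a n)‖ ≤ w (N + k + 1) * B := by
    rw [norm_mul, Complex.norm_real, Real.norm_of_nonneg (hw0 _)]
    exact mul_le_mul_of_nonneg_left (h _ le_rfl) (hw0 _)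
  have h2 : ‖∑ j ∈ range k, ((w (N + j + 1) - w (N + j + 2) : ℝ) : ℂ) *
      ∑ n ∈ Ioc N (N + j + 1), a n‖ ≤ ∑ j ∈ range k, (w (N + j + 1) - w (N + j + 2)) * B := by
    refine (norm_sum_le _ _).trans (Finset.sum_le_sum fun j hj => ?_)
    have hj' := mem_range.1 hj
    have h3 : 0 ≤ w (N + j + 1) - w (N + j + 2) := sub_nonneg.2 (hw (N + j + 1))
    rw [norm_mul, Complex.norm_real, Real.norm_of_nonneg h3]
    exact mul_le_mul_of_nonneg_left (h _ (by omega)) h3
  have h4 : ∀ k : ℕ, ∑ j ∈ range k, (w (N + j + 1) - w (N + j + 2)) * B =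
      (w (N + 1) - w (N + k + 1)) * B := by
    intro k
    induction k with
    | zero => simp
    | succ k ih =>
      rw [sum_range_succ, ih, show N + (k + 1) + 1 = N + k + 2 from rfl]
      ring
  rw [h4] at h2
  nlinarith

end Pool.Agent.H43.LF
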