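import Pool.Agent.H19.Wa.Kus

/-!
# [H43 LF VDC] The second derivative test (van der Corput) for discrete sums

`θ : ℕ → ℝ`, second differences `θ(n+2) - 2θ(n+1) + θ(n) ∈ [lam, h lam]` for `n + 2 <= N`,
`0 < lam`, `h >= 1`: `‖Σ_{n<=N} e(θ n)‖ <= 100 h (N lam^(1/2) + lam^(-1/2))` for `N >= 1`
(`e(x) = exp(2πi x)` is `H19.Wa.e`, look up its definition and the exact namespace in H19/Wa/Defs.lean;
the statement below uses `Complex.exp (2 π I θ)` directly).

PROOF. If `lam >= 1/16` the bound is trivial (`N+1 <= 2N <= 100 N/4`). Let `lam < 1/16`, `δ = sqrt lam < 1/4`.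
The first differences `d_n = θ(n+1) - θ(n)` (`n < N`) are increasing with steps in `[lam, h lam]`, total
increase `<= N h lam`. For an integer `m`: the set of `n` with `|d_n - m| < δ` is an interval of at most
`2δ/lam + 1` integers (steps `>= lam`), estimated trivially by `2δ/lam + 2 <= 4 lam^(-1/2)`. The
set of `n` with `d_n ∈ [m+δ, m+1-δ]` is an interval; split it at `m + 1/2`; on the part
`d_n - m ∈ [δ,1/2]` apply `kusmin` (H19/Wa/Kus.lean) to `θ(n) - m n`: `<= 2/δ`; on the part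
`d_n - m ∈ [1/2, 1-δ]` apply it to the reversed or conjugated sum (`-(θ(n) - (m+1) n)` has differences
in `[δ,1/2]`, decreasing; reverse the order of summation): `<= 2/δ`. The number of integers `m`
involved is at most `N h lam + 3`. Total `<= (N h lam + 3)(4 + 4 + ..) lam^(-1/2) <= 100 h (N lam^(1/2) + lam^(-1/2))`.
(An induction on the number of integers `m` in the range, or a partition of `range N` by
`⌊2 d_n⌋`-type labels.)
-/

namespace Pool.Agent.H43.LF

open Finset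

open Pool.H19.Wa in
theorem vd_int (x : ℝ) (m : ℤ) (n : ℕ) : e (x - m * n) = e x := by
  have h1 : e (-((m : ℝ) * n)) = 1 := by
    unfold e
    have : (2 * Real.pi * ((-((m : ℝ) * n) : ℝ) : ℂ) * Complex.I : ℂ) =
        ((-(m * n) : ℤ) : ℂ) * (2 * Real.pi * Complex.I) := by
      push_cast
      ring
    rw [this, Complex.exp_int_mul_two_pi_mul_I]
  rw [sub_eq_add_neg, e_add, h1, mul_one]

theorem vd_convex (F : Finset ℕ) (hne : F.Nonempty)
    (hconv : ∀ x ∈ F, ∀ y ∈ F, ∀ z, x ≤ z → z ≤ y → z ∈ F) :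
    F = Icc (F.min' hne) (F.max' hne) := by
  ext z
  rw [mem_Icc]
  constructor
  · intro hz
    exact ⟨Finset.min'_le _ _ hz, Finset.le_max' _ _ hz⟩
  · rintro ⟨h1, h2⟩
    exact hconv _ (Finset.min'_mem _ _) _ (Finset.max'_mem _ _) z h1 h2

open Pool.H19.Wa in
theorem vd_plus (F : Finset ℕ) (hconv : ∀ x ∈ F, ∀ y ∈ F, ∀ z, x ≤ z → z ≤ y → z ∈ F)
    (θ : ℕ → ℝ) (m : ℤ) (δ : ℝ) (hδ : 0 < δ) (hδ2 : δ ≤ 1 / 2)
    (hmono : ∀ n, n ∈ F → n + 1 ∈ F → θ (n + 1) - θ n ≤ θ (n + 2) - θ (n + 1))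
    (hl : ∀ n ∈ F, δ ≤ θ (n + 1) - θ n - m) (hu : ∀ n ∈ F, θ (n + 1) - θ n - m ≤ 1 / 2) :
    ‖∑ n ∈ F, e (θ n)‖ ≤ 2 / δ := by
  rcases F.eq_empty_or_nonempty with hF | hne
  · rw [hF, Finset.sum_empty, norm_zero]
    positivity
  have hFI := vd_convex F hne hconv
  set a := F.min' hne with ha
  set b := F.max' hne with hb
  have hab : a ≤ b := Finset.min'_le_max' F hne
  have hmem : ∀ z, a ≤ z → z ≤ b → z ∈ F := by
    intro z h1 h2
    rw [hFI, mem_Icc]
    exact ⟨h1, h2⟩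
  have e1 : ∑ n ∈ F, e (θ n) =
      ∑ j ∈ range (b - a + 1), e ((fun j : ℕ => θ (a + j) - m * ((a + j : ℕ) : ℝ)) j) := by
    rw [hFI]
    refine Finset.sum_nbij' (fun n => n - a) (fun j => a + j) ?_ ?_ ?_ ?_ ?_
    · intro n hn
      rw [mem_Icc] at hn
      rw [mem_range]
      omega
    · intro j hj
      rw [mem_range] at hj
      rw [mem_Icc]
      omega
    · intro n hn
      rw [mem_Icc] at hn
      omega
    · intro j hj
      omega
    · intro n hn
      rw [mem_Icc] at hn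
      show e (θ n) = e (θ (a + (n - a)) - m * ((a + (n - a) : ℕ) : ℝ))
      rw [vd_int]
      congr 2
      omega
  rw [e1]
  refine kusmin (b - a) (fun j : ℕ => θ (a + j) - m * ((a + j : ℕ) : ℝ)) δ hδ ?_ ?_ ?_ hδ2
  · intro j hj
    have h1 := hmono (a + j) (hmem _ (by omega) (by omega)) (hmem _ (by omega) (by omega))
    have e2 : a + (j + 1) = a + j + 1 := by omega
    have e3 : a + (j + 2) = a + j + 2 := by omega
    show θ (a + (j + 1)) - m * ((a + (j + 1) : ℕ) : ℝ) - (θ (a + j) - m * ((a + j : ℕ) : ℝ)) ≤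
      θ (a + (j + 2)) - m * ((a + (j + 2) : ℕ) : ℝ) - (θ (a + (j + 1)) - m * ((a + (j + 1) : ℕ) : ℝ))
    rw [e2, e3]
    push_cast
    linarith
  · intro j hj
    have h1 := hl (a + j) (hmem _ (by omega) (by omega))
    have e2 : a + (j + 1) = a + j + 1 := by omega
    show δ ≤ θ (a + (j + 1)) - m * ((a + (j + 1) : ℕ) : ℝ) - (θ (a + j) - m * ((a + j : ℕ) : ℝ))
    rw [e2]
    push_cast
    linarith
  · intro j hj
    have h1 := hu (a + j) (hmem _ (by omega) (by omega))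
    have e2 : a + (j + 1) = a + j + 1 := by omega
    show θ (a + (j + 1)) - m * ((a + (j + 1) : ℕ) : ℝ) - (θ (a + j) - m * ((a + j : ℕ) : ℝ)) ≤ 1 / 2
    rw [e2]
    push_cast
    linarith

open Pool.H19.Wa in
theorem vd_minus (F : Finset ℕ) (hconv : ∀ x ∈ F, ∀ y ∈ F, ∀ z, x ≤ z → z ≤ y → z ∈ F)
    (θ : ℕ → ℝ) (m : ℤ) (δ : ℝ) (hδ : 0 < δ) (hδ2 : δ ≤ 1 / 2)
    (hmono : ∀ n, n ∈ F → n + 1 ∈ F → θ (n + 1) - θ n ≤ θ (n + 2) - θ (n + 1))
    (hl : ∀ n ∈ F, -(1 / 2) ≤ θ (n + 1) - θ n - m) (hu : ∀ n ∈ F, θ (n + 1) - θ n - m ≤ -δ) :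
    ‖∑ n ∈ F, e (θ n)‖ ≤ 2 / δ := by
  rcases F.eq_empty_or_nonempty with hF | hne
  · rw [hF, Finset.sum_empty, norm_zero]
    positivity
  have hFI := vd_convex F hne hconv
  set a := F.min' hne with ha
  set b := F.max' hne with hb
  have hab : a ≤ b := Finset.min'_le_max' F hne
  have hmem : ∀ z, a ≤ z → z ≤ b → z ∈ F := by
    intro z h1 h2
    rw [hFI, mem_Icc]
    exact ⟨h1, h2⟩
  have e1 : ∑ n ∈ F, e (θ n) =
      ∑ j ∈ range (b - a + 1), e ((fun j : ℕ => θ (b - j) - m * ((b - j : ℕ) : ℝ)) j) := by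
    rw [hFI]
    refine Finset.sum_nbij' (fun n => b - n) (fun j => b - j) ?_ ?_ ?_ ?_ ?_
    · intro n hn
      rw [mem_Icc] at hn
      rw [mem_range]
      omega
    · intro j hj
      rw [mem_range] at hj
      rw [mem_Icc]
      omega
    · intro n hn
      rw [mem_Icc] at hn
      omega
    · intro j hj
      rw [mem_range] at hj
      omega
    · intro n hn
      rw [mem_Icc] at hn
      show e (θ n) = e (θ (b - (b - n)) - m * ((b - (b - n) : ℕ) : ℝ))
      rw [vd_int]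
      congr 2
      omega
  rw [e1]
  refine kusmin (b - a) (fun j : ℕ => θ (b - j) - m * ((b - j : ℕ) : ℝ)) δ hδ ?_ ?_ ?_ hδ2
  · intro j hj
    obtain ⟨c, hc⟩ : ∃ c, b = c + j + 2 := ⟨b - j - 2, by omega⟩
    have h1 := hmono c (hmem _ (by omega) (by omega)) (hmem _ (by omega) (by omega))
    have e2 : b - (j + 1) = c + 1 := by omega
    have e3 : b - (j + 2) = c := by omega
    have e4 : b - j = c + 2 := by omega
    show θ (b - (j + 1)) - m * ((b - (j + 1) : ℕ) : ℝ) - (θ (b - j) - m * ((b - j : ℕ) : ℝ)) ≤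
      θ (b - (j + 2)) - m * ((b - (j + 2) : ℕ) : ℝ) - (θ (b - (j + 1)) - m * ((b - (j + 1) : ℕ) : ℝ))
    rw [e2, e3, e4]
    push_cast
    linarith
  · intro j hj
    obtain ⟨c, hc⟩ : ∃ c, b = c + j + 1 := ⟨b - j - 1, by omega⟩
    have h1 := hu c (hmem _ (by omega) (by omega))
    have e2 : b - (j + 1) = c := by omega
    have e4 : b - j = c + 1 := by omega
    show δ ≤ θ (b - (j + 1)) - m * ((b - (j + 1) : ℕ) : ℝ) - (θ (b - j) - m * ((b - j : ℕ) : ℝ))
    rw [e2, e4]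
    push_cast
    linarith
  · intro j hj
    obtain ⟨c, hc⟩ : ∃ c, b = c + j + 1 := ⟨b - j - 1, by omega⟩
    have h1 := hl c (hmem _ (by omega) (by omega))
    have e2 : b - (j + 1) = c := by omega
    have e4 : b - j = c + 1 := by omega
    show θ (b - (j + 1)) - m * ((b - (j + 1) : ℕ) : ℝ) - (θ (b - j) - m * ((b - j : ℕ) : ℝ)) ≤ 1 / 2
    rw [e2, e4]
    push_cast
    linarith

theorem vd_near (J : Finset ℕ) (d : ℕ → ℝ) (lam δ : ℝ) (hlam : 0 < lam) (hδ : 0 < δ)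
    (hstep : ∀ n ∈ J, ∀ n' ∈ J, n ≤ n' → ((n' : ℝ) - n) * lam ≤ d n' - d n)
    (hwidth : ∀ n ∈ J, ∀ n' ∈ J, d n' - d n ≤ δ) :
    (J.card : ℝ) ≤ δ / lam + 1 := by
  rcases J.eq_empty_or_nonempty with hJ | hne
  · rw [hJ, Finset.card_empty, Nat.cast_zero]
    positivity
  set a := J.min' hne with ha
  have haJ : a ∈ J := Finset.min'_mem _ _
  have hsub : J ⊆ Icc a (a + ⌊δ / lam⌋₊) := by
    intro n hn
    have h1 : a ≤ n := Finset.min'_le _ _ hn
    have h2 := hstep a haJ n hn h1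
    have h3 := hwidth a haJ n hn
    have h4 : (n : ℝ) - a ≤ δ / lam := by
      rw [le_div_iff₀ hlam]
      linarith
    have h5 : ((n - a : ℕ) : ℝ) ≤ δ / lam := by
      rw [Nat.cast_sub h1]
      exact h4
    have h6 := Nat.le_floor h5
    rw [mem_Icc]
    omega
  have h7 := Finset.card_le_card hsub
  rw [Nat.card_Icc] at h7
  have h8 : (⌊δ / lam⌋₊ : ℝ) ≤ δ / lam := Nat.floor_le (by positivity)
  have h9 : (J.card : ℝ) ≤ ⌊δ / lam⌋₊ + 1 := by
    have : J.card ≤ ⌊δ / lam⌋₊ + 1 := by omega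
    exact_mod_cast this
  linarith

theorem vd_step (N : ℕ) (θ : ℕ → ℝ) (lam : ℝ)
    (hlow : ∀ n, n + 2 ≤ N → lam ≤ θ (n + 2) - 2 * θ (n + 1) + θ n) (n k : ℕ) (hk : n + k < N) :
    (k : ℝ) * lam ≤ (θ (n + k + 1) - θ (n + k)) - (θ (n + 1) - θ n) := by
  induction k with
  | zero => simp
  | succ k ih =>
    have h1 := ih (by omega)
    have h2 := hlow (n + k) (by omega)
    have e1 : n + (k + 1) + 1 = n + k + 2 := by omega
    have e2 : n + (k + 1) = n + k + 1 := by omega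
    rw [e1, e2]
    push_cast
    linarith

theorem vd_step_up (N : ℕ) (θ : ℕ → ℝ) (μ : ℝ)
    (hup : ∀ n, n + 2 ≤ N → θ (n + 2) - 2 * θ (n + 1) + θ n ≤ μ) (n k : ℕ) (hk : n + k < N) :
    (θ (n + k + 1) - θ (n + k)) - (θ (n + 1) - θ n) ≤ (k : ℝ) * μ := by
  induction k with
  | zero => simp
  | succ k ih =>
    have h1 := ih (by omega)
    have h2 := hup (n + k) (by omega)
    have e1 : n + (k + 1) + 1 = n + k + 2 := by omega
    have e2 : n + (k + 1) = n + k + 1 := by omega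
    rw [e1, e2]
    push_cast
    linarith

open Pool.H19.Wa in
theorem vd_cell (N : ℕ) (θ : ℕ → ℝ) (lam δ : ℝ) (hlam : 0 < lam) (hδ : 0 < δ) (hδ2 : δ ≤ 1 / 2)
    (hlow : ∀ n, n + 2 ≤ N → lam ≤ θ (n + 2) - 2 * θ (n + 1) + θ n) (k : ℤ) :
    ‖∑ n ∈ (range N).filter (fun n => ⌊2 * (θ (n + 1) - θ n)⌋ = k), e (θ n)‖ ≤
      2 / δ + (δ / lam + 1) := by
  have hst : ∀ n n', n ≤ n' → n' < N →
      ((n' : ℝ) - n) * lam ≤ (θ (n' + 1) - θ n') - (θ (n + 1) - θ n) := by
    intro n n' h1 h2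
    have h3 := vd_step N θ lam hlow n (n' - n) (by omega)
    rw [Nat.cast_sub h1] at h3
    have e1 : n + (n' - n) = n' := by omega
    rwa [e1] at h3
  have hmo : ∀ n n', n ≤ n' → n' < N → θ (n + 1) - θ n ≤ θ (n' + 1) - θ n' := by
    intro n n' h1 h2
    have h3 := hst n n' h1 h2
    have h4 : (0 : ℝ) ≤ (n' : ℝ) - n := by
      have : (n : ℝ) ≤ n' := by exact_mod_cast h1
      linarith
    have := mul_nonneg h4 hlam.le
    linarith
  set I := (range N).filter (fun n => ⌊2 * (θ (n + 1) - θ n)⌋ = k) with hI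
  have hIm : ∀ n, n ∈ I ↔ n < N ∧ ⌊2 * (θ (n + 1) - θ n)⌋ = k := by
    intro n
    rw [hI, mem_filter, mem_range]
  have hcell : ∀ n ∈ I, (k : ℝ) ≤ 2 * (θ (n + 1) - θ n) ∧ 2 * (θ (n + 1) - θ n) < k + 1 := by
    intro n hn
    have h1 := ((hIm n).1 hn).2
    rw [Int.floor_eq_iff] at h1
    exact h1
  have hIconv : ∀ x ∈ I, ∀ y ∈ I, ∀ z, x ≤ z → z ≤ y → z ∈ I := by
    intro x hx y hy z h1 h2
    have hyN := ((hIm y).1 hy).1
    rw [hIm]
    refine ⟨by omega, ?_⟩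
    rw [Int.floor_eq_iff]
    have h3 := hmo x z h1 (by omega)
    have h4 := hmo z y h2 hyN
    have h5 := (hcell x hx).1
    have h6 := (hcell y hy).2
    constructor <;> linarith
  have hmono' : ∀ G : Finset ℕ, G ⊆ I → ∀ n, n ∈ G → n + 1 ∈ G →
      θ (n + 1) - θ n ≤ θ (n + 2) - θ (n + 1) := by
    intro G hG n _ hn1
    exact hmo n (n + 1) (by omega) ((hIm _).1 (hG hn1)).1
  have hsplit : ∀ (Q : ℕ → Prop) [DecidablePred Q],
      ‖∑ n ∈ I.filter Q, e (θ n)‖ ≤ 2 / δ →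
      ((I.filter (fun n => ¬ Q n)).card : ℝ) ≤ δ / lam + 1 →
      ‖∑ n ∈ I, e (θ n)‖ ≤ 2 / δ + (δ / lam + 1) := by
    intro Q _ h1 h2
    rw [← Finset.sum_filter_add_sum_filter_not I Q]
    refine (norm_add_le _ _).trans (add_le_add h1 ?_)
    refine (norm_sum_le _ _).trans ?_
    rw [Finset.sum_congr rfl (fun n _ => norm_e (θ n)), Finset.sum_const, nsmul_eq_mul, mul_one]
    exact h2
  have hnear : ∀ (Q : ℕ → Prop) [DecidablePred Q],
      (∀ n ∈ I.filter (fun n => ¬ Q n), ∀ n' ∈ I.filter (fun n => ¬ Q n),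
        (θ (n' + 1) - θ n') - (θ (n + 1) - θ n) ≤ δ) →
      ((I.filter (fun n => ¬ Q n)).card : ℝ) ≤ δ / lam + 1 := by
    intro Q _ h1
    refine vd_near _ (fun n => θ (n + 1) - θ n) lam δ hlam hδ ?_ h1
    intro n _ n' hn' hnn
    exact hst n n' hnn ((hIm n').1 (mem_filter.1 hn').1).1
  rcases Int.even_or_odd' k with ⟨m, hm | hm⟩
  · classical
    refine hsplit (fun n => δ ≤ θ (n + 1) - θ n - m) ?_ (hnear _ ?_)
    · refine vd_plus _ ?_ θ m δ hδ hδ2 (hmono' _ (Finset.filter_subset _ _)) ?_ ?_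
      · intro x hx y hy z h1 h2
        rw [mem_filter] at hx hy ⊢
        refine ⟨hIconv x hx.1 y hy.1 z h1 h2, ?_⟩
        have h3 := hmo x z h1 (by have := ((hIm y).1 hy.1).1; omega)
        linarith [hx.2]
      · intro n hn
        exact (mem_filter.1 hn).2
      · intro n hn
        have h1 := (hcell n (mem_filter.1 hn).1).2
        rw [hm] at h1
        push_cast at h1
        linarith
    · intro n hn n' hn'
      rw [mem_filter, not_le] at hn hn'
      have h1 := (hcell n hn.1).1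
      rw [hm] at h1
      push_cast at h1
      linarith [hn'.2]
  · classical
    refine hsplit (fun n => θ (n + 1) - θ n - ((m + 1 : ℤ) : ℝ) ≤ -δ) ?_ (hnear _ ?_)
    · refine vd_minus _ ?_ θ (m + 1) δ hδ hδ2 (hmono' _ (Finset.filter_subset _ _)) ?_ ?_
      · intro x hx y hy z h1 h2
        rw [mem_filter] at hx hy ⊢
        refine ⟨hIconv x hx.1 y hy.1 z h1 h2, ?_⟩
        have h3 := hmo z y h2 ((hIm y).1 hy.1).1
        linarith [hy.2]
      · intro n hn
        have h1 := (hcell n (mem_filter.1 hn).1).1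
        rw [hm] at h1
        push_cast at h1 ⊢
        linarith
      · intro n hn
        exact (mem_filter.1 hn).2
    · intro n hn n' hn'
      rw [mem_filter, not_le] at hn hn'
      have h1 := (hcell n' hn'.1).2
      rw [hm] at h1
      have h2 := hn.2
      push_cast at h1 h2
      linarith

open Pool.H19.Wa in
theorem vd_main (N : ℕ) (hN : 1 ≤ N) (θ : ℕ → ℝ) (lam h δ : ℝ) (hlam : 0 < lam) (hh : 1 ≤ h)
    (hδ : 0 < δ) (hδ2 : δ ≤ 1 / 2)
    (hlow : ∀ n, n + 2 ≤ N → lam ≤ θ (n + 2) - 2 * θ (n + 1) + θ n)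
    (hup : ∀ n, n + 2 ≤ N → θ (n + 2) - 2 * θ (n + 1) + θ n ≤ h * lam) :
    ‖∑ n ∈ range (N + 1), e (θ n)‖ ≤
      (2 * (N * (h * lam)) + 2) * (2 / δ + (δ / lam + 1)) + 1 := by
  set K0 : ℤ := ⌊2 * (θ (0 + 1) - θ 0)⌋ with hK0
  set K1 : ℤ := ⌊2 * (θ (N - 1 + 1) - θ (N - 1))⌋ with hK1
  have hst : ∀ n n', n ≤ n' → n' < N →
      ((n' : ℝ) - n) * lam ≤ (θ (n' + 1) - θ n') - (θ (n + 1) - θ n) := by
    intro n n' h1 h2
    have h3 := vd_step N θ lam hlow n (n' - n) (by omega)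
    rw [Nat.cast_sub h1] at h3
    have e1 : n + (n' - n) = n' := by omega
    rwa [e1] at h3
  have hmo : ∀ n n', n ≤ n' → n' < N → θ (n + 1) - θ n ≤ θ (n' + 1) - θ n' := by
    intro n n' h1 h2
    have h3 := hst n n' h1 h2
    have h4 : (0 : ℝ) ≤ (n' : ℝ) - n := by
      have : (n : ℝ) ≤ n' := by exact_mod_cast h1
      linarith
    have := mul_nonneg h4 hlam.le
    linarith
  have hmaps : ∀ n ∈ range N, ⌊2 * (θ (n + 1) - θ n)⌋ ∈ Icc K0 K1 := by
    intro n hn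
    rw [mem_range] at hn
    rw [mem_Icc]
    constructor
    · apply Int.floor_le_floor
      have := hmo 0 n (Nat.zero_le _) hn
      linarith
    · apply Int.floor_le_floor
      have := hmo n (N - 1) (by omega) (by omega)
      linarith
  have hcount : ((Icc K0 K1).card : ℝ) ≤ 2 * (N * (h * lam)) + 2 := by
    have h1 := vd_step_up N θ (h * lam) hup 0 (N - 1) (by omega)
    rw [Nat.zero_add] at h1
    have h2 : ((N - 1 : ℕ) : ℝ) * (h * lam) ≤ N * (h * lam) := by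
      apply mul_le_mul_of_nonneg_right
      · exact_mod_cast Nat.sub_le N 1
      · positivity
    have h3 : (K1 : ℝ) ≤ 2 * (θ (N - 1 + 1) - θ (N - 1)) := Int.floor_le _
    have h4 : 2 * (θ (0 + 1) - θ 0) - 1 < K0 := Int.sub_one_lt_floor _
    have h5 : K0 ≤ K1 := by
      have := hmaps 0 (mem_range.2 (by omega))
      rw [mem_Icc] at this
      exact this.2
    rw [Int.card_Icc]
    have h6 : (((K1 + 1 - K0).toNat : ℕ) : ℤ) = K1 + 1 - K0 := Int.toNat_of_nonneg (by omega)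
    have h7 : ((((K1 + 1 - K0).toNat : ℕ) : ℤ) : ℝ) = ((K1 + 1 - K0 : ℤ) : ℝ) := by rw [h6]
    rw [Int.cast_natCast] at h7
    rw [h7]
    push_cast
    linarith
  rw [Finset.sum_range_succ]
  refine (norm_add_le _ _).trans ?_
  rw [norm_e]
  refine add_le_add ?_ le_rfl
  rw [← Finset.sum_fiberwise_of_maps_to hmaps]
  refine (norm_sum_le _ _).trans ?_
  refine (Finset.sum_le_card_nsmul _ _ _
    (fun k _ => vd_cell N θ lam δ hlam hδ hδ2 hlow k)).trans ?_
  rw [nsmul_eq_mul]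
  exact mul_le_mul_of_nonneg_right hcount (by positivity)

theorem vdc (N : ℕ) (hN : 1 ≤ N) (θ : ℕ → ℝ) (lam h : ℝ) (hlam : 0 < lam) (hh : 1 ≤ h)
    (hlow : ∀ n, n + 2 ≤ N → lam ≤ θ (n + 2) - 2 * θ (n + 1) + θ n)
    (hup : ∀ n, n + 2 ≤ N → θ (n + 2) - 2 * θ (n + 1) + θ n ≤ h * lam) :
    ‖∑ n ∈ range (N + 1), Complex.exp (2 * Real.pi * θ n * Complex.I)‖ ≤
      100 * h * (N * Real.sqrt lam + 1 / Real.sqrt lam) := by
  have hN1 : (1 : ℝ) ≤ N := by exact_mod_cast hN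
  set s := Real.sqrt lam with hs
  have hs0 : 0 < s := Real.sqrt_pos.2 hlam
  have hs2 : s ^ 2 = lam := Real.sq_sqrt hlam.le
  have hinv : 0 < 1 / s := by positivity
  by_cases hc : s ≤ 1 / 4
  · have h1 := vd_main N hN θ lam h s hlam hh hs0 (by linarith) hlow hup
    refine le_trans (le_of_eq rfl) (h1.trans ?_)
    have e1 : s / lam = 1 / s := by
      rw [← hs2]
      field_simp
    have e2 : 2 / s = 2 * (1 / s) := by ring
    rw [e1, e2]
    have h3 : (4 : ℝ) ≤ 1 / s := by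
      rw [le_div_iff₀ hs0]
      linarith
    have h4 : 2 * (1 / s) + (1 / s + 1) ≤ 4 * (1 / s) := by linarith
    have h5 : 0 ≤ 2 * (N * (h * lam)) + 2 := by positivity
    have h6 := mul_le_mul_of_nonneg_left h4 h5
    have h7 : (2 * (N * (h * lam)) + 2) * (4 * (1 / s)) = 8 * (N * (h * s)) + 8 * (1 / s) := by
      rw [← hs2]
      field_simp
      norm_num
    have h8 : 0 ≤ (N : ℝ) * (h * s) := by positivity
    have h9 : 1 / s ≤ h * (1 / s) := by nlinarith
    have h10 : 100 * h * (N * s + 1 / s) = 100 * (N * (h * s)) + 100 * (h * (1 / s)) := by ring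
    rw [h10]
    linarith
  · rw [not_le] at hc
    have h1 : ‖∑ n ∈ range (N + 1), Complex.exp (2 * Real.pi * θ n * Complex.I)‖ ≤ N + 1 := by
      refine (norm_sum_le _ _).trans ?_
      have h2 : ∀ n ∈ range (N + 1), ‖Complex.exp (2 * Real.pi * θ n * Complex.I)‖ = 1 :=
        fun n _ => Pool.H19.Wa.norm_e (θ n)
      rw [Finset.sum_congr rfl h2, Finset.sum_const, card_range, nsmul_eq_mul, mul_one]
      push_cast
      exact le_rfl
    refine h1.trans ?_
    have h3 : (N : ℝ) * (1 / 4) ≤ N * s := mul_le_mul_of_nonneg_left hc.le (by linarith)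
    have h4 : 25 * (N : ℝ) ≤ 100 * (N * s + 1 / s) := by linarith
    have h5 : 100 * (N * s + 1 / s) ≤ 100 * h * (N * s + 1 / s) := by
      have : 0 ≤ N * s + 1 / s := by positivity
      nlinarith
    linarith

end Pool.Agent.H43.LF
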