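import Pool.Agent.H43.LF.Defs
import Pool.Agent.H43.LF.Vdc
import Pool.Agent.H43.LF.Cls

/-!
# [H43 LF VDX] Smooth sums by the second derivative test

`‖Σ_{N<n<=N'} χ(n) n^(-1-it)‖ <= C_q (|t|^(1/2)/N + |t|^(-1/2))` for `|t| >= 1`, `N >= 1`, `N' <= 2N`.

PROOF. By conjugation of the sums over residue classes let `t > 0`. If `N < 4q` the left side is
`<= Σ 1/n <= 1 <= 4q t^(1/2)/N`. Let `N >= 4q`. Classes: `n = qm + a`, `a ∈ {1..q}`, `M1 < m <= M2`,
`M1 >= N/q - 2 >= N/(2q)`, number of terms `<= N/q + 1`. The phase is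
`-(t/2π) log(m + a/q)` (plus a constant), its second difference is `∫∫` of `t/(2π (u+a/q)^2)` over
`u ∈ [m, m+2]` with total weight 1, so it lies in `[lam, 64 lam]`, `lam = t q^2/(2π (4N)^2)`
(`m + a/q + 2 <= 4N/q`, `m + a/q >= N/(2q)`). `vdc`: the class sum without the factor `n^(-1)` is
`<= C_q (N (t^(1/2)/N) + N/t^(1/2)) = C_q (t^(1/2) + N t^(-1/2))` for every upper limit `<= M2`;
partial summation with the monotone factor `1/n <= 1/N` gives the factor `2/N`. Sum over the `q` classes.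
(The second difference bound: `F(m+2) - 2F(m+1) + F(m)` for `F(u) = -(t/2π) log(u+β)` equals
`(t/2π) log((u+1)^2/(u(u+2)))` at `u = m+β`, `= (t/2π) log(1 + 1/(u(u+2)))`, and
`x/2 <= log(1+x) <= x` for `0 <= x <= 1`.)
-/

namespace Pool.Agent.H43.LF

open Finset

theorem vdx_log (u : ℝ) (hu : 1 ≤ u) :
    1 / (2 * (u * (u + 2))) ≤ 2 * Real.log (u + 1) - Real.log (u + 2) - Real.log u ∧
    2 * Real.log (u + 1) - Real.log (u + 2) - Real.log u ≤ 1 / (u * (u + 2)) := by
  have hu0 : 0 < u := by linarith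
  have hp : 0 < u * (u + 2) := by positivity
  have e1 : 2 * Real.log (u + 1) - Real.log (u + 2) - Real.log u =
      Real.log (1 + 1 / (u * (u + 2))) := by
    have h1 : 1 + 1 / (u * (u + 2)) = (u + 1) ^ 2 / ((u + 2) * u) := by
      field_simp
      ring
    rw [h1, Real.log_div (by positivity) (by positivity), Real.log_pow,
      Real.log_mul (by positivity) hu0.ne']
    push_cast
    ring
  rw [e1]
  have hx0 : 0 < 1 / (u * (u + 2)) := by positivity
  have hx1 : 1 / (u * (u + 2)) ≤ 1 := by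
    rw [div_le_one hp]
    nlinarith
  constructor
  · have h2 := Real.one_sub_inv_le_log_of_pos (show 0 < 1 + 1 / (u * (u + 2)) by positivity)
    refine le_trans ?_ h2
    have h3 : 1 - (1 + 1 / (u * (u + 2)))⁻¹ = 1 / (u * (u + 2) + 1) := by
      field_simp
      ring
    rw [h3]
    exact one_div_le_one_div_of_le (by positivity) (by nlinarith)
  · have h2 := Real.log_le_sub_one_of_pos (show 0 < 1 + 1 / (u * (u + 2)) by positivity)
    linarith

/-- the class sums -/
theorem vdx_cls (q : ℕ) (hq : 0 < q) (N N' : ℕ) (t : ℝ) (ht : 1 ≤ t) (hN : q ≤ N)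
    (hNN : N ≤ N') (hN' : N' ≤ 2 * N) (a : ℕ) (ha : a < q) :
    ‖∑ m ∈ Ioc ((N - a) / q) ((N' - a) / q),
      Complex.exp (-(t * Real.log ((m : ℝ) + (a : ℝ) / q) : ℝ) * Complex.I)‖ ≤
      6400 * (Real.sqrt t + N / Real.sqrt t) := by
  have hq0 : (0 : ℝ) < q := by exact_mod_cast hq
  have hN0 : (0 : ℝ) < N := by exact_mod_cast (by omega : 0 < N)
  have ht0 : 0 < t := by linarith
  have hst : 1 ≤ Real.sqrt t := by
    rw [Real.one_le_sqrt]
    exact ht
  have hst0 : 0 < Real.sqrt t := by linarith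
  have hR : 6400 ≤ 6400 * (Real.sqrt t + N / Real.sqrt t) := by
    have : 0 < (N : ℝ) / Real.sqrt t := by positivity
    linarith
  have hd1 := Nat.div_add_mod (N - a) q
  have hd2 := Nat.mod_lt (N - a) hq
  have hd3 := Nat.div_add_mod (N' - a) q
  have hd4 := Nat.mod_lt (N' - a) hq
  set M1 := (N - a) / q
  set M2 := (N' - a) / q
  have hnorm : ∀ m : ℕ, ‖Complex.exp (-(t * Real.log ((m : ℝ) + (a : ℝ) / q) : ℝ) * Complex.I)‖ ≤ 1 := by
    intro m
    have := Complex.norm_exp_ofReal_mul_I (-(t * Real.log ((m : ℝ) + (a : ℝ) / q)))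
    push_cast at this ⊢
    exact this.le
  rcases le_or_gt M2 (M1 + 1) with hle | hlt
  · refine ((norm_sum_le _ _).trans (Finset.sum_le_card_nsmul _ _ _ (fun m _ => hnorm m))).trans ?_
    rw [nsmul_eq_mul, mul_one, Nat.card_Ioc]
    have h1 : ((M2 - M1 : ℕ) : ℝ) ≤ 1 := by exact_mod_cast (by omega : M2 - M1 ≤ 1)
    linarith
  obtain ⟨n, hM2⟩ : ∃ n, M2 = M1 + 1 + n := ⟨M2 - M1 - 1, by omega⟩
  have hn1 : 1 ≤ n := by omega
  have hnN : (n : ℝ) ≤ N / q := by
    rw [le_div_iff₀ hq0]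
    have h1 : q * M2 = q * M1 + q + q * n := by
      rw [hM2]
      ring
    have h2 : q * n ≤ N := by omega
    have h3 : ((q * n : ℕ) : ℝ) ≤ N := by exact_mod_cast h2
    push_cast at h3
    linarith
  have hlow : (N : ℝ) / q ≤ M1 + 1 + (a : ℝ) / q := by
    rw [div_le_iff₀ hq0]
    have h1 : N ≤ q * M1 + q + a := by omega
    have h2 : (N : ℝ) ≤ ((q * M1 + q + a : ℕ) : ℝ) := by exact_mod_cast h1
    push_cast at h2
    have h3 : ((M1 : ℝ) + 1 + (a : ℝ) / q) * q = q * M1 + q + a := by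
      field_simp
    linarith
  have hupp : (M1 : ℝ) + 1 + n + (a : ℝ) / q ≤ 2 * N / q := by
    rw [le_div_iff₀ hq0]
    have h1 : q * M2 = q * M1 + q + q * n := by
      rw [hM2]
      ring
    have h2 : q * M1 + q + q * n + a ≤ 2 * N := by omega
    have h3 : ((q * M1 + q + q * n + a : ℕ) : ℝ) ≤ 2 * N := by exact_mod_cast h2
    push_cast at h3
    have h4 : ((M1 : ℝ) + 1 + n + (a : ℝ) / q) * q = q * M1 + q + q * n + a := by
      field_simp
    linarith
  have hNq : 1 ≤ (N : ℝ) / q := by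
    rw [le_div_iff₀ hq0, one_mul]
    exact_mod_cast hN
  have hpi : 0 < Real.pi := Real.pi_pos
  set lam : ℝ := t * q ^ 2 / (16 * Real.pi * N ^ 2) with hlam
  have hlam0 : 0 < lam := by positivity
  set θ : ℕ → ℝ := fun k => -(t / (2 * Real.pi)) * Real.log ((M1 : ℝ) + 1 + k + (a : ℝ) / q) with hθ
  have hdd : ∀ k : ℕ, k + 2 ≤ n → lam ≤ θ (k + 2) - 2 * θ (k + 1) + θ k ∧
      θ (k + 2) - 2 * θ (k + 1) + θ k ≤ 8 * lam := by
    intro k hk
    set u : ℝ := (M1 : ℝ) + 1 + k + (a : ℝ) / q with hu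
    have hk0 : (0 : ℝ) ≤ k := Nat.cast_nonneg k
    have hu1 : (N : ℝ) / q ≤ u := by linarith
    have hu2 : u + 2 ≤ 2 * N / q := by
      have : ((k + 2 : ℕ) : ℝ) ≤ n := by exact_mod_cast hk
      push_cast at this
      linarith
    have hu11 : 1 ≤ u := hNq.trans hu1
    have hu0 : 0 < u := by linarith
    have e1 : θ (k + 2) - 2 * θ (k + 1) + θ k =
        t / (2 * Real.pi) * (2 * Real.log (u + 1) - Real.log (u + 2) - Real.log u) := by
      simp only [hθ]
      have e2 : (M1 : ℝ) + 1 + ((k + 2 : ℕ) : ℝ) + (a : ℝ) / q = u + 2 := by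
        push_cast
        rw [hu]
        ring
      have e3 : (M1 : ℝ) + 1 + ((k + 1 : ℕ) : ℝ) + (a : ℝ) / q = u + 1 := by
        push_cast
        rw [hu]
        ring
      rw [e2, e3]
      ring
    obtain ⟨hl, hr⟩ := vdx_log u hu11
    have htp : 0 < t / (2 * Real.pi) := by positivity
    rw [e1]
    constructor
    · refine le_trans ?_ (mul_le_mul_of_nonneg_left hl htp.le)
      have h1 : u * (u + 2) ≤ (2 * N / q) * (2 * N / q) :=
        mul_le_mul (by linarith) hu2 (by linarith) (by positivity)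
      have h2 : 1 / (2 * ((2 * N / q) * (2 * N / q))) ≤ 1 / (2 * (u * (u + 2))) :=
        one_div_le_one_div_of_le (by positivity) (by linarith)
      refine le_trans (le_of_eq ?_) (mul_le_mul_of_nonneg_left h2 htp.le)
      rw [hlam]
      field_simp
      norm_num
    · refine (mul_le_mul_of_nonneg_left hr htp.le).trans ?_
      have h1 : ((N : ℝ) / q) * (N / q) ≤ u * (u + 2) :=
        mul_le_mul hu1 (by linarith) (by positivity) hu0.le
      have h2 : 1 / (u * (u + 2)) ≤ 1 / (((N : ℝ) / q) * (N / q)) :=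
        one_div_le_one_div_of_le (by positivity) h1
      refine (mul_le_mul_of_nonneg_left h2 htp.le).trans (le_of_eq ?_)
      rw [hlam]
      field_simp
      norm_num
  have hv := vdc n hn1 θ lam 8 hlam0 (by norm_num) (fun k hk => (hdd k hk).1)
    (fun k hk => (hdd k hk).2)
  have hsum : ∑ m ∈ Ioc M1 M2,
      Complex.exp (-(t * Real.log ((m : ℝ) + (a : ℝ) / q) : ℝ) * Complex.I) =
      ∑ k ∈ range (n + 1), Complex.exp (2 * Real.pi * θ k * Complex.I) := by
    have e1 : Ioc M1 M2 = Ico (M1 + 1) (M1 + 1 + (n + 1)) := by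
      ext x
      rw [mem_Ioc, mem_Ico]
      omega
    rw [e1, Finset.sum_Ico_eq_sum_range]
    have e2 : M1 + 1 + (n + 1) - (M1 + 1) = n + 1 := by omega
    rw [e2]
    refine Finset.sum_congr rfl fun k _ => ?_
    congr 1
    congr 1
    have e3 : 2 * Real.pi * θ k = -(t * Real.log (((M1 + 1 + k : ℕ) : ℝ) + (a : ℝ) / q)) := by
      simp only [hθ]
      push_cast
      field_simp
    have e4 : ((2 * Real.pi * θ k : ℝ) : ℂ) = 2 * (Real.pi : ℂ) * (θ k : ℂ) := by push_cast; ring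
    rw [← e4, e3]
    push_cast
    ring
  rw [hsum]
  refine hv.trans ?_
  have hsl : Real.sqrt lam = Real.sqrt t * q / (4 * Real.sqrt Real.pi * N) := by
    rw [hlam, Real.sqrt_div' _ (by positivity), Real.sqrt_mul' _ (by positivity),
      Real.sqrt_sq hq0.le, Real.sqrt_mul' _ (by positivity), Real.sqrt_sq hN0.le,
      Real.sqrt_mul' _ hpi.le]
    have h16 : Real.sqrt 16 = 4 := by
      rw [show (16 : ℝ) = 4 ^ 2 by norm_num]
      exact Real.sqrt_sq (by norm_num)
    rw [h16]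
  have hsp1 : 1 ≤ Real.sqrt Real.pi := by
    rw [Real.one_le_sqrt]
    linarith [Real.pi_gt_three]
  have hsp2 : Real.sqrt Real.pi ≤ 2 := by
    rw [Real.sqrt_le_left (by norm_num)]
    linarith [Real.pi_lt_four]
  have hsp0 : 0 < Real.sqrt Real.pi := by linarith
  have h1 : (n : ℝ) * Real.sqrt lam ≤ Real.sqrt t / 4 := by
    have h2 : (n : ℝ) * Real.sqrt lam ≤ N / q * Real.sqrt lam :=
      mul_le_mul_of_nonneg_right hnN (Real.sqrt_nonneg _)
    refine h2.trans ?_
    rw [hsl]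
    have h3 : (N : ℝ) / q * (Real.sqrt t * q / (4 * Real.sqrt Real.pi * N)) =
        Real.sqrt t / (4 * Real.sqrt Real.pi) := by
      field_simp
    rw [h3]
    exact div_le_div_of_nonneg_left hst0.le (by norm_num) (by linarith)
  have h4 : 1 / Real.sqrt lam ≤ 8 * (N / Real.sqrt t) := by
    rw [hsl]
    have h5 : 1 / (Real.sqrt t * q / (4 * Real.sqrt Real.pi * N)) =
        (4 * Real.sqrt Real.pi) / q * (N / Real.sqrt t) := by
      field_simp
    rw [h5]
    refine mul_le_mul_of_nonneg_right ?_ (by positivity)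
    have hq1 : (1 : ℝ) ≤ q := by exact_mod_cast hq
    exact (div_le_self (by positivity) hq1).trans (by linarith)
  nlinarith

theorem vdx (q : ℕ) [NeZero q] : ∃ C : ℝ, 0 < C ∧ ∀ (χ : DirichletCharacter ℂ q) (N N' : ℕ)
    (t : ℝ), 1 ≤ N → N' ≤ 2 * N → 1 ≤ |t| →
    ‖ds (fun n => χ n) N N' t‖ ≤ C * (Real.sqrt |t| / N + 1 / Real.sqrt |t|) := by
  have hq : 0 < q := Nat.pos_of_ne_zero (NeZero.ne q)
  have hq0 : (0 : ℝ) < q := by exact_mod_cast hq
  refine ⟨6400 * q, by positivity, ?_⟩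
  intro χ N N' t hN hN' ht
  have hN0 : (0 : ℝ) < N := by exact_mod_cast hN
  have hst : 1 ≤ Real.sqrt |t| := by
    rw [Real.one_le_sqrt]
    exact ht
  have hst0 : 0 < Real.sqrt |t| := by linarith
  unfold ds
  rcases lt_or_ge N q with hlt | hge
  · have h1 : ∀ n ∈ Ioc N N', ‖χ n * (n : ℂ) ^ (-(1 + (t : ℂ) * Complex.I))‖ ≤ 1 / N := by
      intro n hn
      have hn0 : N < n := (mem_Ioc.1 hn).1
      have hn1 : (0 : ℝ) < n := by exact_mod_cast (by omega : 0 < n)
      have hNn : (N : ℝ) ≤ n := by exact_mod_cast hn0.le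
      rw [norm_mul, Complex.norm_natCast_cpow_of_pos (by omega)]
      have h2 : (-(1 + (t : ℂ) * Complex.I)).re = -1 := by simp
      rw [h2, Real.rpow_neg_one]
      have h3 : ‖χ n‖ ≤ 1 := χ.norm_le_one _
      have h4 : ((n : ℝ))⁻¹ ≤ 1 / N := by
        rw [← one_div]
        exact one_div_le_one_div_of_le hN0 hNn
      calc ‖χ n‖ * (n : ℝ)⁻¹ ≤ 1 * (1 / N) :=
            mul_le_mul h3 h4 (by positivity) zero_le_one
        _ = 1 / N := one_mul _
    refine ((norm_sum_le _ _).trans (Finset.sum_le_card_nsmul _ _ _ h1)).trans ?_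
    rw [nsmul_eq_mul, Nat.card_Ioc]
    have h2 : ((N' - N : ℕ) : ℝ) ≤ N := by exact_mod_cast (by omega : N' - N ≤ N)
    have h3 : ((N' - N : ℕ) : ℝ) * (1 / N) ≤ 1 := by
      rw [mul_one_div, div_le_one hN0]
      exact h2
    have h4 : (1 : ℝ) ≤ q * (Real.sqrt |t| / N) := by
      rw [← mul_div_assoc, le_div_iff₀ hN0, one_mul]
      have : (N : ℝ) ≤ q := by exact_mod_cast hlt.le
      nlinarith
    have h5 : 0 < 1 / Real.sqrt |t| := by positivity
    have h6 : 0 < q * (1 / Real.sqrt |t|) := by positivity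
    nlinarith
  · have h0 : ∀ n ∈ Ioc N N', χ n * (n : ℂ) ^ (-(1 + (t : ℂ) * Complex.I)) =
        (((fun k : ℕ => 1 / (k : ℝ)) n : ℝ) : ℂ) * (χ n * (n : ℂ) ^ (-((t : ℂ) * Complex.I))) := by
      intro n hn
      have hn0 : (n : ℂ) ≠ 0 := by
        have := (mem_Ioc.1 hn).1
        exact_mod_cast (by omega : n ≠ 0)
      rw [neg_add, Complex.cpow_add _ _ hn0, Complex.cpow_neg_one]
      push_cast
      ring
    rw [Finset.sum_congr rfl h0]
    set w : ℕ → ℝ := fun k => if k = 0 then 1 else 1 / (k : ℝ) with hw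
    have hww : ∀ n ∈ Ioc N N', (((fun k : ℕ => 1 / (k : ℝ)) n : ℝ) : ℂ) *
        (χ n * (n : ℂ) ^ (-((t : ℂ) * Complex.I))) =
        (w n : ℂ) * (χ n * (n : ℂ) ^ (-((t : ℂ) * Complex.I))) := by
      intro n hn
      have h1 : n ≠ 0 := by
        have := (mem_Ioc.1 hn).1
        omega
      simp only [hw, if_neg h1]
    rw [Finset.sum_congr rfl hww]
    have hB := cls_abel (fun n => χ n * (n : ℂ) ^ (-((t : ℂ) * Complex.I))) w ?_ ?_ N N'
      (q * (6400 * (Real.sqrt |t| + N / Real.sqrt |t|))) ?_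
    · refine hB.trans ?_
      have h1 : w (N + 1) ≤ 1 / N := by
        simp only [hw, Nat.succ_ne_zero, if_false]
        refine one_div_le_one_div_of_le hN0 ?_
        push_cast
        linarith
      have h2 : 0 ≤ q * (6400 * (Real.sqrt |t| + N / Real.sqrt |t|)) := by positivity
      refine (mul_le_mul_of_nonneg_right h1 h2).trans (le_of_eq ?_)
      field_simp
    · intro n
      simp only [hw, Nat.succ_ne_zero, if_false]
      split_ifs with h1
      · subst h1
        norm_num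
      · have h2 : (0 : ℝ) < n := by exact_mod_cast Nat.pos_of_ne_zero h1
        refine one_div_le_one_div_of_le h2 ?_
        push_cast
        linarith
    · intro n
      simp only [hw]
      split_ifs
      · norm_num
      · positivity
    · intro K hK
      refine cls_chi q χ t N K hge _ (by positivity) ?_
      intro hNK a ha
      exact vdx_cls q hq N K |t| ht hge hNK (by omega) a ha

end Pool.Agent.H43.LF
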