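import Pool.Agent.H43.LF.Em
import Pool.Agent.H43.LF.Chi

/-!
# [H43 LF SMF] Smooth sums, `N` not too small

For every `A` there is `X0(q,A)` such that for `X >= X0`, `exp((log X)^0.97) <= N <= X`, `N' <= 2N`,
`(log X)^(A+1) <= |t| <= X`: `‖Σ_{N<n<=N'} χ(n) n^(-1-it)‖ <= (log X)^(-A)`.

PROOF. If `|t| <= N^(1/2)`: `em` gives `10q(1/|t| + (1+|t|)/N) <= 10q((log X)^(-A-1) + 2N^(-1/2))`.
If `|t| > N^(1/2)`: `N < t^2`, `log|t| >= (1/2)(log X)^0.97` is large, and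
`N >= exp((log X)^0.97) >= exp((log|t|)^0.92)`, so `chi` applies to all `u <= 2N`; partial summation with the
monotone factor `1/n <= 1/N`: `<= 2 exp(-sqrt(log|t|)/2) <= 2 exp(-(log X)^0.485/4)`.
-/

namespace Pool.Agent.H43.LF

open Finset

open Filter Topology in
theorem smf_lim (A b β C : ℝ) (hb : 0 < b) (hβ : 0 < β) :
    ∀ᶠ L : ℝ in atTop, C * Real.exp (-(b * L ^ β)) ≤ L ^ (-A) := by
  have h1 : Tendsto (fun L : ℝ => L ^ β) atTop atTop := tendsto_rpow_atTop hβ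
  have h2 := (tendsto_rpow_mul_exp_neg_mul_atTop_nhds_zero (A / β) b hb).comp h1
  have h3 := h2.const_mul C
  rw [mul_zero] at h3
  filter_upwards [h3.eventually_le_const zero_lt_one, eventually_gt_atTop (0 : ℝ)] with L h4 h5
  simp only [Function.comp_apply] at h4
  rw [← Real.rpow_mul h5.le, mul_div_cancel₀ _ hβ.ne'] at h4
  have h6 : 0 < L ^ (-A) := Real.rpow_pos_of_pos h5 _
  have h7 : L ^ (-A) * L ^ A = 1 := by
    rw [← Real.rpow_add h5, neg_add_cancel, Real.rpow_zero]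
  calc C * Real.exp (-(b * L ^ β)) = (L ^ (-A) * L ^ A) * (C * Real.exp (-(b * L ^ β))) := by
        rw [h7, one_mul]
    _ = L ^ (-A) * (C * (L ^ A * Real.exp (-b * L ^ β))) := by ring_nf
    _ ≤ L ^ (-A) * 1 := by gcongr
    _ = L ^ (-A) := mul_one _

theorem smf_abel (a : ℕ → ℂ) (B : ℝ) (hB : 0 ≤ B) (N N' : ℕ) (hN : 1 ≤ N) (h : N ≤ N')
    (hT : ∀ m, N ≤ m → m ≤ N' → ‖∑ n ∈ Ioc N m, a n‖ ≤ B) :
    ‖∑ n ∈ Ioc N N', a n * ((1 / (n : ℝ) : ℝ) : ℂ)‖ ≤ B / N := by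
  have key : ‖∑ n ∈ Ioc N N', a n * ((1 / (n : ℝ) : ℝ) : ℂ) -
      (∑ n ∈ Ioc N N', a n) * ((1 / (N' : ℝ) : ℝ) : ℂ)‖ ≤ B * (1 / (N : ℝ) - 1 / (N' : ℝ)) := by
    induction N', h using Nat.le_induction with
    | base => simp
    | succ m hm ih =>
      have ih' := ih fun k hk hk' => hT k hk (hk'.trans (Nat.le_succ m))
      have hm0 : (0 : ℝ) < m := by exact_mod_cast (by omega : 0 < m)
      rw [Finset.sum_Ioc_succ_top hm, Finset.sum_Ioc_succ_top hm]
      have h4 : ∑ n ∈ Ioc N m, a n * ((1 / (n : ℝ) : ℝ) : ℂ) +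
          a (m + 1) * ((1 / ((m + 1 : ℕ) : ℝ) : ℝ) : ℂ) -
          (∑ n ∈ Ioc N m, a n + a (m + 1)) * ((1 / ((m + 1 : ℕ) : ℝ) : ℝ) : ℂ) =
          (∑ n ∈ Ioc N m, a n * ((1 / (n : ℝ) : ℝ) : ℂ) -
            (∑ n ∈ Ioc N m, a n) * ((1 / (m : ℝ) : ℝ) : ℂ)) +
          (∑ n ∈ Ioc N m, a n) * ((1 / (m : ℝ) - 1 / ((m + 1 : ℕ) : ℝ) : ℝ) : ℂ) := by
        push_cast
        ring
      rw [h4]
      refine (norm_add_le _ _).trans ?_
      have h5 : 0 ≤ 1 / (m : ℝ) - 1 / ((m + 1 : ℕ) : ℝ) := by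
        have : 1 / ((m + 1 : ℕ) : ℝ) ≤ 1 / (m : ℝ) := by
          apply one_div_le_one_div_of_le hm0
          push_cast
          linarith
        linarith
      have h6 : ‖(∑ n ∈ Ioc N m, a n) * ((1 / (m : ℝ) - 1 / ((m + 1 : ℕ) : ℝ) : ℝ) : ℂ)‖ ≤
          B * (1 / (m : ℝ) - 1 / ((m + 1 : ℕ) : ℝ)) := by
        rw [norm_mul, Complex.norm_real, Real.norm_of_nonneg h5]
        exact mul_le_mul_of_nonneg_right (hT m hm (Nat.le_succ m)) h5
      refine (add_le_add ih' h6).trans (le_of_eq ?_)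
      ring
  have hN' : (0 : ℝ) < N' := by exact_mod_cast (by omega : 0 < N')
  have h1 : ‖(∑ n ∈ Ioc N N', a n) * ((1 / (N' : ℝ) : ℝ) : ℂ)‖ ≤ B * (1 / (N' : ℝ)) := by
    rw [norm_mul, Complex.norm_real, Real.norm_of_nonneg (by positivity)]
    exact mul_le_mul_of_nonneg_right (hT N' h le_rfl) (by positivity)
  have h2 : ∑ n ∈ Ioc N N', a n * ((1 / (n : ℝ) : ℝ) : ℂ) =
      (∑ n ∈ Ioc N N', a n * ((1 / (n : ℝ) : ℝ) : ℂ) -
      (∑ n ∈ Ioc N N', a n) * ((1 / (N' : ℝ) : ℝ) : ℂ)) +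
      (∑ n ∈ Ioc N N', a n) * ((1 / (N' : ℝ) : ℝ) : ℂ) := by ring
  rw [h2]
  refine (norm_add_le _ _).trans ((add_le_add key h1).trans (le_of_eq ?_))
  ring

open Filter in
theorem smf (q : ℕ) [NeZero q] (A : ℝ) (hA : 0 < A) : ∃ X0 : ℝ, 10 ≤ X0 ∧
    ∀ (χ : DirichletCharacter ℂ q) (X : ℝ), X0 ≤ X → ∀ (N N' : ℕ) (t : ℝ),
    Real.exp ((Real.log X) ^ (0.97 : ℝ)) ≤ N → (N : ℝ) ≤ X → N' ≤ 2 * N →
    (Real.log X) ^ (A + 1) ≤ |t| → |t| ≤ X →
    ‖ds (fun n => χ n) N N' t‖ ≤ (Real.log X) ^ (-A) := by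
  obtain ⟨t1, ht1, hchi⟩ := chi q
  have hq : 0 < q := Nat.pos_of_ne_zero (NeZero.ne q)
  have hqR : (1 : ℝ) ≤ q := by exact_mod_cast hq
  have e1 : ∀ᶠ L : ℝ in atTop, 20 * q ≤ L := eventually_ge_atTop _
  have e2 := smf_lim A (1 / 2) 0.97 (40 * q) (by norm_num) (by norm_num)
  have e3 := smf_lim A (1 / 4) 0.485 1 (by norm_num) (by norm_num)
  have e4 : ∀ᶠ L : ℝ in atTop, t1 ≤ L ^ (0.97 : ℝ) / 2 :=
    ((tendsto_rpow_atTop (by norm_num : (0 : ℝ) < 0.97)).atTop_div_const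
      (by norm_num)).eventually_ge_atTop t1
  have e5 : ∀ᶠ L : ℝ in atTop, (1 : ℝ) ≤ L := eventually_ge_atTop _
  obtain ⟨L0, hL0⟩ := eventually_atTop.1 (e1.and (e2.and (e3.and (e4.and e5))))
  refine ⟨max 10 (Real.exp L0), le_max_left _ _, ?_⟩
  intro χ X hX N N' t hNl hNX hN' htl htX
  have hX0 : 0 < X := lt_of_lt_of_le (by positivity) ((le_max_left _ _).trans hX)
  have hL : L0 ≤ Real.log X := by
    rw [Real.le_log_iff_exp_le hX0]
    exact (le_max_right _ _).trans hX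
  obtain ⟨f1, f2, f3, f4, f5⟩ := hL0 _ hL
  set L := Real.log X with hLdef
  have hL0' : 0 < L := by linarith
  have hN0 : (0 : ℝ) < N := lt_of_lt_of_le (Real.exp_pos _) hNl
  have hN1 : 1 ≤ N := by
    have : 0 < N := by exact_mod_cast hN0
    omega
  have hlogN : L ^ (0.97 : ℝ) ≤ Real.log N := by
    rwa [Real.le_log_iff_exp_le hN0]
  have ht1' : 1 ≤ |t| := le_trans (Real.one_le_rpow f5 (by linarith)) htl
  have ht0 : t ≠ 0 := by
    rw [← abs_pos]
    linarith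
  have ht0' : 0 < |t| := by linarith
  rcases le_or_gt (t ^ 2) N with hcase | hcase
  · -- first case
    have h1 := em χ N N' hN1 hN' t ht0
    refine h1.trans ?_
    have h2 : 1 / |t| ≤ L ^ (-A) / L := by
      have h3 : L ^ (-A) / L = 1 / L ^ (A + 1) := by
        rw [Real.rpow_add hL0', Real.rpow_one, Real.rpow_neg hL0'.le]
        field_simp
      rw [h3]
      exact one_div_le_one_div_of_le (Real.rpow_pos_of_pos hL0' _) htl
    have hsq : Real.sqrt N = Real.exp (Real.log N / 2) := by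
      rw [Real.exp_half, Real.exp_log hN0]
    have h3 : (1 + |t|) / N ≤ 2 * Real.exp (-(1 / 2 * L ^ (0.97 : ℝ))) := by
      have h4 : |t| ≤ Real.sqrt N := by
        apply Real.le_sqrt_of_sq_le
        rwa [sq_abs]
      have h5 : Real.exp (1 / 2 * L ^ (0.97 : ℝ)) ≤ Real.sqrt N := by
        rw [hsq]
        apply Real.exp_le_exp.2
        linarith
      have h6 : 0 < Real.sqrt N := Real.sqrt_pos.2 hN0
      have h7 : (1 + |t|) / N ≤ 2 / Real.sqrt N := by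
        rw [div_le_div_iff₀ hN0 h6]
        have h8 : Real.sqrt N * Real.sqrt N = N := Real.mul_self_sqrt hN0.le
        nlinarith
      refine h7.trans ?_
      rw [Real.exp_neg, ← div_eq_mul_inv]
      exact div_le_div_of_nonneg_left (by norm_num) (Real.exp_pos _) h5
    have h4 : 0 < L ^ (-A) := Real.rpow_pos_of_pos hL0' _
    have h5 : 10 * (q : ℝ) * (L ^ (-A) / L) ≤ L ^ (-A) / 2 := by
      rw [mul_div_assoc', div_le_div_iff₀ hL0' (by norm_num)]
      nlinarith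
    have h6 : 10 * (q : ℝ) * (2 * Real.exp (-(1 / 2 * L ^ (0.97 : ℝ)))) ≤ L ^ (-A) / 2 := by
      linarith
    have h7 : 0 < 10 * (q : ℝ) := by positivity
    calc 10 * (q : ℝ) * (1 / |t| + (1 + |t|) / N) =
          10 * (q : ℝ) * (1 / |t|) + 10 * (q : ℝ) * ((1 + |t|) / N) := by ring
      _ ≤ 10 * (q : ℝ) * (L ^ (-A) / L) +
          10 * (q : ℝ) * (2 * Real.exp (-(1 / 2 * L ^ (0.97 : ℝ)))) := by gcongr
      _ ≤ L ^ (-A) := by linarith
  · -- second case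
    rcases lt_or_ge N' N with hlt | hge
    · unfold ds
      rw [Ioc_eq_empty_of_le hlt.le]
      simp only [sum_empty, norm_zero]
      positivity
    have hlogt : L ^ (0.97 : ℝ) / 2 ≤ Real.log |t| := by
      have h1 : Real.log N ≤ Real.log (t ^ 2) := Real.log_le_log hN0 hcase.le
      rw [← sq_abs, Real.log_pow] at h1
      push_cast at h1
      linarith
    have hlogt2 : Real.log |t| ≤ L := Real.log_le_log ht0' htX
    have hlogt0 : 0 ≤ Real.log |t| := Real.log_nonneg ht1'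
    have h1 : t1 ≤ |t| := by
      have h2 : t1 ≤ Real.log |t| := f4.trans hlogt
      have h3 : Real.log |t| ≤ |t| := (Real.log_le_sub_one_of_pos ht0').trans (by linarith)
      exact h2.trans h3
    have h2 : Real.exp ((Real.log |t|) ^ (0.92 : ℝ)) ≤ N := by
      refine le_trans (Real.exp_le_exp.2 ?_) hNl
      calc (Real.log |t|) ^ (0.92 : ℝ) ≤ L ^ (0.92 : ℝ) :=
            Real.rpow_le_rpow hlogt0 hlogt2 (by norm_num)
        _ ≤ L ^ (0.97 : ℝ) := Real.rpow_le_rpow_of_exponent_le f5 (by norm_num)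
    have h3 := smf_abel (fun n => χ n * (n : ℂ) ^ (-((t : ℂ) * Complex.I)))
      (N * Real.exp (-(Real.sqrt (Real.log |t|) / 2))) (by positivity) N N' hN1 hge
      (fun m _ hm' => hchi χ t h1 N m h2 hcase.le (hm'.trans hN'))
    have h4 : ds (fun n => χ n) N N' t = ∑ n ∈ Ioc N N',
        χ n * (n : ℂ) ^ (-((t : ℂ) * Complex.I)) * ((1 / (n : ℝ) : ℝ) : ℂ) := by
      unfold ds
      refine sum_congr rfl fun n hn => ?_
      have hn0 : (n : ℂ) ≠ 0 := by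
        rw [mem_Ioc] at hn
        exact_mod_cast (by omega : n ≠ 0)
      have h5 : (-(1 + (t : ℂ) * Complex.I)) = -((t : ℂ) * Complex.I) + (-1) := by ring
      rw [h5, Complex.cpow_add _ _ hn0, Complex.cpow_neg_one]
      push_cast
      ring
    rw [h4]
    refine h3.trans ?_
    have h5 : (N : ℝ) * Real.exp (-(Real.sqrt (Real.log |t|) / 2)) / N =
        Real.exp (-(Real.sqrt (Real.log |t|) / 2)) := by
      field_simp
    rw [h5]
    refine le_trans (Real.exp_le_exp.2 ?_) (by simpa only [one_mul] using f3)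
    have h6 : L ^ (0.485 : ℝ) / 2 ≤ Real.sqrt (Real.log |t|) := by
      apply Real.le_sqrt_of_sq_le
      have h7 : (L ^ (0.485 : ℝ) / 2) ^ 2 = L ^ (0.97 : ℝ) / 4 := by
        rw [div_pow, ← Real.rpow_natCast, ← Real.rpow_mul hL0'.le]
        norm_num
      rw [h7]
      have h8 : 0 ≤ L ^ (0.97 : ℝ) := by positivity
      linarith
    linarith

end Pool.Agent.H43.LF
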