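import Mathlib

/-!
# L-functions of a FIXED modulus near the line 1 and the sums of `μ(n) χ(n) n^(-1-it)` (H43/LF)

Everything below is for a fixed modulus `q` (all constants may depend on `q`). Input:
`ZS.zsum` (Vinogradov's bound for sums of `(m+β)^(-it)`).

* `Lap`: `L(s,χ)` by a partial sum, for `Re s > 0`.
* `Chi`: sums of `χ(n) n^(-it)`; `Gr`: `|L(s,χ)| <= log|t|` for `σ >= 1 - (log|t|)^(-0.92)`.
* `Lan`: Landau's local lemma (Borel-Caratheodory + Blaschke factors); `L341`: the 3-4-1 inequality.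
* `Zf`: no zeros for `σ >= 1 - (log|t|)^(-0.93)`; `Inv`: `|1/L| <= (log|t|)^12` for
  `σ >= 1 - (log|t|)^(-0.94)`.
* `Mud`: the series of `μ(n) χ(n) (log n)^j n^(-s)` for `1 < Re s <= 2`: at most
  `C (log(|t|+3))^(12+0.95j)`.
* `Smo`: a smoothing lemma; `Mu`: the sums of `μ(n) χ(n) n^(-1-it)` over `(N, N']` are
  `<= (log X)^(-A)` for `N >= exp((log X)^0.97)`, `|t| <= X`.
* `Em`, `Vdc`, `Vdx`, `Smf`: the sums of `χ(n) n^(-1-it)` over dyadic intervals.
-/

namespace Pool.Agent.H43.LF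

open Finset

/-- the residue of `L(s,χ)` at `s = 1` -/
noncomputable def rho {q : ℕ} (χ : DirichletCharacter ℂ q) : ℝ :=
  open Classical in if χ = 1 then (q.totient : ℝ) / q else 0

/-- `Σ_{N<n<=N'} c(n) n^(-1-it)` -/
noncomputable def ds (c : ℕ → ℂ) (N N' : ℕ) (t : ℝ) : ℂ :=
  ∑ n ∈ Ioc N N', c n * (n : ℂ) ^ (-(1 + (t : ℂ) * Complex.I))

end Pool.Agent.H43.LF
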