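import Pool.Agent.H43.LF.Lap
import Pool.Agent.H43.LF.Chi

/-!
# [H43 LF GR] Growth near the line 1

`‖L(σ+it,χ)‖ <= log|t|` for `|t| >= T1(q)`, `σ >= 1 - (log|t|)^(-0.92)`.

PROOF. `ℓ = log|t|`. If `σ >= 2`: `‖L‖ <= ζ(2) < 2` (LSeries). Let `1 - ℓ^(-0.92) <= σ <= 2` (`σ >= 1/2`).
`lap` with `M = ⌊t^2⌋₊`: the error is `<= 4q (|t|+2) (t^2-1)^(-σ)/σ <= 1/4`, the term
`ρ M^(1-s)/(s-1)` is `<= exp(2ℓ·ℓ^(-0.92))/|t| = exp(2ℓ^0.08)/|t| <= 1/4`.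
`Σ_{n<=N1} n^(-σ)`, `N1 = ⌈exp(ℓ^0.92)⌉₊`: `n^(-σ) = n^(-1) n^(1-σ) <= n^(-1) (2exp(ℓ^0.92))^(ℓ^(-0.92)) <= 2e/n`,
sum `<= 2e (1 + ℓ^0.92 + 1)`. For `N1 <= n <= M` cut into `O(ℓ)` intervals `(N, N']`, `N = 2^i N1`,
`N' = min(2N, M)`, `N <= t^2`: by partial summation with the monotone weight `n^(-σ)`
(`‖Σ_{N<n<=N'} c_n n^(-σ)‖ <= N^(-σ) max_u ‖Σ_{N<n<=u} c_n‖ * 2`) and `chi`:
`<= 2 N^(1-σ) exp(-sqrt ℓ/2) <= 2 exp(2ℓ^0.08 - sqrt ℓ/2)`, total `<= 1/4`.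
Together `<= 2e(2 + ℓ^0.92) + 1 <= ℓ` for `ℓ` large.
-/

namespace Pool.Agent.H43.LF

open Finset

/-- Abel summation with a decreasing nonnegative weight -/
private theorem gr_abel (w : ℕ → ℝ) (a : ℕ → ℂ) (N : ℕ) (M : ℝ) (hM : 0 ≤ M)
    (hw : ∀ n, N < n → 0 ≤ w n) (hmono : ∀ n, N < n → w (n + 1) ≤ w n)
    (N' : ℕ) (hS : ∀ u, u ≤ N' → ‖∑ n ∈ Ioc N u, a n‖ ≤ M) :
    ‖∑ n ∈ Ioc N N', (w n : ℂ) * a n‖ ≤ M * w (N + 1) := by
  have key : ∀ d : ℕ, N + 1 + d ≤ N' →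
      ‖∑ n ∈ Ioc N (N + 1 + d), (w n : ℂ) * a n -
        (w (N + 1 + d) : ℂ) * ∑ n ∈ Ioc N (N + 1 + d), a n‖ ≤ M * (w (N + 1) - w (N + 1 + d)) := by
    intro d
    induction d with
    | zero =>
      intro _
      simp
    | succ d ih =>
      intro hd
      have ih' := ih (by omega)
      have hI : ∀ g : ℕ → ℂ, ∑ n ∈ Ioc N (N + 1 + (d + 1)), g n =
          ∑ n ∈ Ioc N (N + 1 + d), g n + g (N + 1 + (d + 1)) := by
        intro g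
        rw [show N + 1 + (d + 1) = (N + 1 + d) + 1 by ring,
          Finset.sum_Ioc_succ_top (by omega)]
      rw [hI, hI]
      have e1 : ∑ n ∈ Ioc N (N + 1 + d), (w n : ℂ) * a n +
          (w (N + 1 + (d + 1)) : ℂ) * a (N + 1 + (d + 1)) -
          (w (N + 1 + (d + 1)) : ℂ) * (∑ n ∈ Ioc N (N + 1 + d), a n + a (N + 1 + (d + 1))) =
          (∑ n ∈ Ioc N (N + 1 + d), (w n : ℂ) * a n -
            (w (N + 1 + d) : ℂ) * ∑ n ∈ Ioc N (N + 1 + d), a n) +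
          ((w (N + 1 + d) - w (N + 1 + (d + 1)) : ℝ) : ℂ) * ∑ n ∈ Ioc N (N + 1 + d), a n := by
        push_cast
        ring
      rw [e1]
      have hm := hmono (N + 1 + d) (by omega)
      rw [show N + 1 + d + 1 = N + 1 + (d + 1) by ring] at hm
      have h2 : ‖((w (N + 1 + d) - w (N + 1 + (d + 1)) : ℝ) : ℂ) *
          ∑ n ∈ Ioc N (N + 1 + d), a n‖ ≤ (w (N + 1 + d) - w (N + 1 + (d + 1))) * M := by
        rw [norm_mul, Complex.norm_real, Real.norm_eq_abs, abs_of_nonneg (by linarith)]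
        exact mul_le_mul_of_nonneg_left (hS _ (by omega)) (by linarith)
      calc _ ≤ _ := norm_add_le _ _
        _ ≤ M * (w (N + 1) - w (N + 1 + d)) + (w (N + 1 + d) - w (N + 1 + (d + 1))) * M :=
          add_le_add ih' h2
        _ = M * (w (N + 1) - w (N + 1 + (d + 1))) := by ring
  rcases Nat.lt_or_ge N N' with hlt | hge
  · obtain ⟨d, rfl⟩ : ∃ d, N' = N + 1 + d := ⟨N' - (N + 1), by omega⟩
    have h1 := key d le_rfl
    have h2 : ‖(w (N + 1 + d) : ℂ) * ∑ n ∈ Ioc N (N + 1 + d), a n‖ ≤ w (N + 1 + d) * M := by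
      rw [norm_mul, Complex.norm_real, Real.norm_eq_abs, abs_of_nonneg (hw _ (by omega))]
      exact mul_le_mul_of_nonneg_left (hS _ le_rfl) (hw _ (by omega))
    calc ‖∑ n ∈ Ioc N (N + 1 + d), (w n : ℂ) * a n‖
        = ‖(∑ n ∈ Ioc N (N + 1 + d), (w n : ℂ) * a n -
            (w (N + 1 + d) : ℂ) * ∑ n ∈ Ioc N (N + 1 + d), a n) +
            (w (N + 1 + d) : ℂ) * ∑ n ∈ Ioc N (N + 1 + d), a n‖ := by congr 1; ring
      _ ≤ _ := norm_add_le _ _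
      _ ≤ M * (w (N + 1) - w (N + 1 + d)) + w (N + 1 + d) * M := add_le_add h1 h2
      _ = M * w (N + 1) := by ring
  · rw [Finset.Ioc_eq_empty (by omega)]
    simp only [Finset.sum_empty, norm_zero]
    exact mul_nonneg hM (hw _ (by omega))

/-- the sizes of the elementary functions of `ℓ = log |t|` -/
private theorem gr_size (Q ℓ : ℝ) (hQ : 0 ≤ Q) (hℓ : 2 ^ 50 + 192 * Q ≤ ℓ) :
    2 * ℓ ^ (0.08 : ℝ) ≤ Real.sqrt ℓ / 4 ∧ Real.sqrt ℓ ≤ ℓ ∧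
    4 * ℓ * Real.exp (2 * ℓ ^ (0.08 : ℝ) - Real.sqrt ℓ / 2) ≤ 1 / 4 ∧
    24 * Q * Real.exp (2 * ℓ ^ (0.08 : ℝ) - ℓ) ≤ 1 / 4 ∧
    Real.exp (2 * ℓ ^ (0.08 : ℝ) - ℓ) ≤ 1 / 4 ∧
    8 * (2 + ℓ ^ (0.92 : ℝ)) + 3 / 4 ≤ ℓ := by
  have h50 : (2 : ℝ) ^ 50 ≤ ℓ := by linarith
  have hbig : (2 : ℝ) ^ 50 = 1125899906842624 := by norm_num
  have hℓpos : 0 < ℓ := by linarith
  have hℓ1 : 1 ≤ ℓ := by linarith
  have h8 : (16 : ℝ) ≤ ℓ ^ (0.08 : ℝ) := by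
    calc (16 : ℝ) = ((2 : ℝ) ^ 50) ^ (0.08 : ℝ) := by
          rw [← Real.rpow_natCast, ← Real.rpow_mul (by norm_num)]
          norm_num
      _ ≤ ℓ ^ (0.08 : ℝ) := Real.rpow_le_rpow (by norm_num) h50 (by norm_num)
  have h42 : (8 : ℝ) ≤ ℓ ^ (0.42 : ℝ) := by
    calc (8 : ℝ) ≤ ℓ ^ (0.08 : ℝ) := by linarith
      _ ≤ ℓ ^ (0.42 : ℝ) := Real.rpow_le_rpow_of_exponent_le hℓ1 (by norm_num)
  have hv : 0 < Real.sqrt ℓ := Real.sqrt_pos.2 hℓpos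
  have hvv : Real.sqrt ℓ * Real.sqrt ℓ = ℓ := Real.mul_self_sqrt hℓpos.le
  have hv1 : 10 ^ 6 ≤ Real.sqrt ℓ := by
    apply Real.le_sqrt_of_sq_le
    norm_num
    linarith
  have hsqrt : Real.sqrt ℓ = ℓ ^ (0.08 : ℝ) * ℓ ^ (0.42 : ℝ) := by
    rw [← Real.rpow_add hℓpos, Real.sqrt_eq_rpow]; norm_num
  have c1 : 2 * ℓ ^ (0.08 : ℝ) ≤ Real.sqrt ℓ / 4 := by
    rw [hsqrt]
    have e1 := mul_le_mul_of_nonneg_left h42 (by linarith : (0 : ℝ) ≤ ℓ ^ (0.08 : ℝ))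
    linarith
  have c2 : Real.sqrt ℓ ≤ ℓ := by
    have e1 : 1 * Real.sqrt ℓ ≤ Real.sqrt ℓ * Real.sqrt ℓ :=
      mul_le_mul_of_nonneg_right (by linarith) hv.le
    linarith
  have hexp4 : (Real.sqrt ℓ / 4) ^ 4 / 24 ≤ Real.exp (Real.sqrt ℓ / 4) := by
    have := Real.pow_div_factorial_le_exp (Real.sqrt ℓ / 4) (by positivity) 4
    simpa [Nat.factorial] using this
  have hsq4 : (Real.sqrt ℓ / 4) ^ 4 = ℓ ^ 2 / 256 := by
    calc (Real.sqrt ℓ / 4) ^ 4 = (Real.sqrt ℓ * Real.sqrt ℓ) ^ 2 / 256 := by ring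
      _ = ℓ ^ 2 / 256 := by rw [hvv]
  have c3 : 4 * ℓ * Real.exp (2 * ℓ ^ (0.08 : ℝ) - Real.sqrt ℓ / 2) ≤ 1 / 4 := by
    have e1 : Real.exp (2 * ℓ ^ (0.08 : ℝ) - Real.sqrt ℓ / 2) ≤
        (Real.exp (Real.sqrt ℓ / 4))⁻¹ := by
      rw [← Real.exp_neg]
      apply Real.exp_le_exp.2
      linarith
    have e2 : 16 * ℓ ≤ Real.exp (Real.sqrt ℓ / 4) := by
      refine le_trans ?_ hexp4
      rw [hsq4]
      have e4 : 1125899906842624 * ℓ ≤ ℓ * ℓ := mul_le_mul_of_nonneg_right (by linarith) hℓpos.le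
      have e5 : ℓ ^ 2 = ℓ * ℓ := by ring
      rw [e5]
      linarith
    have e3 : 0 < Real.exp (Real.sqrt ℓ / 4) := Real.exp_pos _
    calc 4 * ℓ * Real.exp (2 * ℓ ^ (0.08 : ℝ) - Real.sqrt ℓ / 2)
        ≤ 4 * ℓ * (Real.exp (Real.sqrt ℓ / 4))⁻¹ := by gcongr
      _ ≤ 1 / 4 := by
          rw [← div_eq_mul_inv, div_le_iff₀ e3]
          linarith
  have hexpℓ : Real.exp (2 * ℓ ^ (0.08 : ℝ) - ℓ) ≤ 2 / ℓ := by
    have e1 : Real.exp (2 * ℓ ^ (0.08 : ℝ) - ℓ) ≤ (Real.exp (ℓ / 2))⁻¹ := by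
      rw [← Real.exp_neg]
      apply Real.exp_le_exp.2
      linarith
    have e2 : ℓ / 2 ≤ Real.exp (ℓ / 2) := by
      have := Real.add_one_le_exp (ℓ / 2)
      linarith
    refine le_trans e1 ?_
    calc (Real.exp (ℓ / 2))⁻¹ ≤ (ℓ / 2)⁻¹ := inv_anti₀ (by positivity) e2
      _ = 2 / ℓ := by field_simp
  have c4 : 24 * Q * Real.exp (2 * ℓ ^ (0.08 : ℝ) - ℓ) ≤ 1 / 4 := by
    calc 24 * Q * Real.exp (2 * ℓ ^ (0.08 : ℝ) - ℓ) ≤ 24 * Q * (2 / ℓ) := by gcongr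
      _ ≤ 1 / 4 := by
          rw [← mul_div_assoc, div_le_iff₀ hℓpos]
          linarith
  have c5 : Real.exp (2 * ℓ ^ (0.08 : ℝ) - ℓ) ≤ 1 / 4 := by
    refine le_trans hexpℓ ?_
    rw [div_le_iff₀ hℓpos]
    linarith
  have c6 : 8 * (2 + ℓ ^ (0.92 : ℝ)) + 3 / 4 ≤ ℓ := by
    have e1 : ℓ ^ (0.92 : ℝ) * ℓ ^ (0.08 : ℝ) = ℓ := by
      rw [← Real.rpow_add hℓpos]; norm_num
    have e2 : 0 ≤ ℓ ^ (0.92 : ℝ) := Real.rpow_nonneg hℓpos.le _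
    have e3 := mul_le_mul_of_nonneg_left h8 e2
    linarith
  exact ⟨c1, c2, c3, c4, c5, c6⟩

/-- `n^(1-σ)` for `n <= t^2` -/
private theorem gr_pow {ℓ σ : ℝ} (hℓ : 1 ≤ ℓ) (hσ : 1 - ℓ ^ (-(0.92 : ℝ)) ≤ σ) (n : ℝ)
    (hn : 1 ≤ n) {b : ℝ} (hb : Real.log n ≤ b) :
    n ^ (1 - σ) ≤ Real.exp (b * ℓ ^ (-(0.92 : ℝ))) := by
  have hnpos : 0 < n := by linarith
  have h1 : n ^ (1 - σ) ≤ n ^ (ℓ ^ (-(0.92 : ℝ))) :=
    Real.rpow_le_rpow_of_exponent_le hn (by linarith)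
  refine le_trans h1 ?_
  rw [Real.rpow_def_of_pos hnpos]
  apply Real.exp_le_exp.2
  have : 0 ≤ ℓ ^ (-(0.92 : ℝ)) := Real.rpow_nonneg (by linarith) _
  gcongr

/-- splitting the complex power -/
private theorem gr_split (n : ℕ) (hn : 1 ≤ n) (s : ℂ) :
    (n : ℂ) ^ (-s) = ((((n : ℝ) ^ (-s.re) : ℝ)) : ℂ) * (n : ℂ) ^ (-((s.im : ℂ) * Complex.I)) := by
  have hn0 : (n : ℂ) ≠ 0 := by
    have : n ≠ 0 := by omega
    exact_mod_cast this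
  have e : -s = ((-s.re : ℝ) : ℂ) + (-((s.im : ℂ) * Complex.I)) := by
    conv_lhs => rw [← Complex.re_add_im s]
    push_cast; ring
  rw [e, Complex.cpow_add _ _ hn0]
  congr 1
  rw [Complex.ofReal_cpow (Nat.cast_nonneg n)]
  simp

theorem gr (q : ℕ) [NeZero q] : ∃ T1 : ℝ, 10 ≤ T1 ∧ ∀ (χ : DirichletCharacter ℂ q) (s : ℂ),
    T1 ≤ |s.im| → 1 - (Real.log |s.im|) ^ (-(0.92 : ℝ)) ≤ s.re →
    ‖χ.LFunction s‖ ≤ Real.log |s.im| := by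
  obtain ⟨t1, ht1, hchi⟩ := chi q
  refine ⟨max (Real.exp (2 ^ 50 + 192 * (q : ℝ))) (max t1 10), ?_, ?_⟩
  · exact le_trans (le_max_right _ _) (le_max_right _ _)
  intro χ s hs hσ
  set t := s.im with ht
  set τ := |t| with hτ
  set σ := s.re with hσdef
  have hτ10 : 10 ≤ τ := le_trans (le_trans (le_max_right _ _) (le_max_right _ _)) hs
  have hτt1 : t1 ≤ τ := le_trans (le_trans (le_max_left _ _) (le_max_right _ _)) hs
  have hτe : Real.exp (2 ^ 50 + 192 * (q : ℝ)) ≤ τ := le_trans (le_max_left _ _) hs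
  have hτpos : 0 < τ := by linarith
  set ℓ := Real.log τ with hℓ
  have hℓL : 2 ^ 50 + 192 * (q : ℝ) ≤ ℓ := (Real.le_log_iff_exp_le hτpos).2 hτe
  have hq0 : (0 : ℝ) ≤ q := Nat.cast_nonneg q
  obtain ⟨c1, c2, c3, c4, c5, c6⟩ := gr_size q ℓ hq0 hℓL
  have hbig : (2 : ℝ) ^ 50 = 1125899906842624 := by norm_num
  have hℓ1 : 1 ≤ ℓ := by linarith
  have hℓpos : 0 < ℓ := by linarith
  have hτℓ : τ = Real.exp ℓ := (Real.exp_log hτpos).symm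
  -- δ
  set δ := ℓ ^ (-(0.92 : ℝ)) with hδ
  have hδpos : 0 < δ := Real.rpow_pos_of_pos hℓpos _
  have hℓδ : ℓ * δ = ℓ ^ (0.08 : ℝ) := by
    rw [hδ]
    nth_rewrite 1 [← Real.rpow_one ℓ]
    rw [← Real.rpow_add hℓpos]; norm_num
  have h92δ : ℓ ^ (0.92 : ℝ) * δ = 1 := by
    rw [hδ, ← Real.rpow_add hℓpos]; norm_num
  have h92pos : 0 < ℓ ^ (0.92 : ℝ) := Real.rpow_pos_of_pos hℓpos _
  have hδhalf : δ ≤ 1 / 2 := by
    have h2 : 2 ≤ ℓ ^ (0.92 : ℝ) := by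
      calc (2 : ℝ) = (2 ^ (50 : ℕ)) ^ ((1 : ℝ) / 50) := by
            rw [← Real.rpow_natCast, ← Real.rpow_mul (by norm_num)]; norm_num
        _ ≤ (2 ^ (50 : ℕ)) ^ (0.92 : ℝ) :=
          Real.rpow_le_rpow_of_exponent_le (by norm_num) (by norm_num)
        _ ≤ ℓ ^ (0.92 : ℝ) := Real.rpow_le_rpow (by norm_num) (by linarith) (by norm_num)
    have h3 : 2 * δ ≤ ℓ ^ (0.92 : ℝ) * δ := mul_le_mul_of_nonneg_right h2 hδpos.le
    linarith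
  have hσhalf : 1 / 2 ≤ σ := by linarith
  have hσpos : 0 < σ := by linarith
  -- M
  set M := ⌊τ ^ 2⌋₊ with hM
  have hMle : (M : ℝ) ≤ τ ^ 2 := Nat.floor_le (by positivity)
  have hMgt : τ ^ 2 < M + 1 := Nat.lt_floor_add_one _
  have hτ100 : 100 ≤ τ ^ 2 := by
    calc (100 : ℝ) = 10 ^ 2 := by norm_num
      _ ≤ τ ^ 2 := pow_le_pow_left₀ (by norm_num) hτ10 2
  have hMhalf : τ ^ 2 / 2 ≤ M := by linarith
  have hM1 : 1 ≤ M := by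
    have : (1 : ℝ) ≤ M := by linarith
    exact_mod_cast this
  have hMpos : (0 : ℝ) < M := by exact_mod_cast hM1
  have hlogM : Real.log M ≤ 2 * ℓ := by
    have := Real.log_le_log hMpos hMle
    rw [Real.log_pow] at this
    simpa using this
  have hMσ : (M : ℝ) ^ (1 - σ) ≤ Real.exp (2 * ℓ ^ (0.08 : ℝ)) := by
    have := gr_pow hℓ1 hσ (M : ℝ) (by exact_mod_cast hM1) hlogM
    rwa [mul_assoc, hℓδ] at this
  have hs1 : s ≠ 1 := by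
    intro h
    have : t = 0 := by rw [ht, h]; simp
    rw [hτ, this] at hτ10
    norm_num at hτ10
  have hlap := lap χ s hσpos hs1 M hM1
  have hsnorm : ‖s‖ ≤ σ + τ := by
    have h0 : 0 ≤ s.re := hσpos.le
    calc ‖s‖ ≤ |s.re| + |s.im| := Complex.norm_le_abs_re_add_abs_im s
      _ = σ + τ := by rw [abs_of_nonneg h0]
  -- error term
  have herr : 4 * q * ‖s‖ * (M : ℝ) ^ (-s.re) / s.re ≤ 1 / 4 := by
    have e1 : (M : ℝ) ^ (-σ) ≤ 2 * Real.exp (2 * ℓ ^ (0.08 : ℝ)) / τ ^ 2 := by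
      have : (M : ℝ) ^ (-σ) = (M : ℝ) ^ (1 - σ) / M := by
        rw [show (-σ) = (1 - σ) - 1 by ring, Real.rpow_sub hMpos, Real.rpow_one]
      rw [this]
      calc (M : ℝ) ^ (1 - σ) / M ≤ Real.exp (2 * ℓ ^ (0.08 : ℝ)) / (τ ^ 2 / 2) := by gcongr
        _ = 2 * Real.exp (2 * ℓ ^ (0.08 : ℝ)) / τ ^ 2 := by field_simp
    have e2 : ‖s‖ / σ ≤ 3 * τ := by
      rw [div_le_iff₀ hσpos]
      have a1 : τ * (1 / 2) ≤ τ * σ := mul_le_mul_of_nonneg_left hσhalf hτpos.le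
      have a2 : 1 * σ ≤ τ * σ := mul_le_mul_of_nonneg_right (by linarith) hσpos.le
      linarith
    have e3 : 4 * q * ‖s‖ * (M : ℝ) ^ (-σ) / σ = 4 * q * (‖s‖ / σ) * (M : ℝ) ^ (-σ) := by
      field_simp
    have hexp : Real.exp (2 * ℓ ^ (0.08 : ℝ) - ℓ) = Real.exp (2 * ℓ ^ (0.08 : ℝ)) / τ := by
      rw [Real.exp_sub, ← hτℓ]
    calc 4 * q * ‖s‖ * (M : ℝ) ^ (-σ) / σ = 4 * q * (‖s‖ / σ) * (M : ℝ) ^ (-σ) := e3
      _ ≤ 4 * q * (3 * τ) * (2 * Real.exp (2 * ℓ ^ (0.08 : ℝ)) / τ ^ 2) := by gcongr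
      _ = 24 * q * (Real.exp (2 * ℓ ^ (0.08 : ℝ)) / τ) := by field_simp; ring
      _ = 24 * q * Real.exp (2 * ℓ ^ (0.08 : ℝ) - ℓ) := by rw [hexp]
      _ ≤ 1 / 4 := c4
  -- the term with ρ
  have hrho : ‖(rho χ : ℂ) * (M : ℂ) ^ (1 - s) / (s - 1)‖ ≤ 1 / 4 := by
    have hr0 : 0 ≤ rho χ := by
      unfold rho
      split_ifs <;> positivity
    have hr1 : rho χ ≤ 1 := by
      unfold rho
      split_ifs
      · have hq : (0 : ℝ) < q := by exact_mod_cast Nat.pos_of_ne_zero (NeZero.ne q)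
        rw [div_le_one hq]
        exact_mod_cast Nat.totient_le q
      · exact zero_le_one
    have hnum : ‖(M : ℂ) ^ (1 - s)‖ = (M : ℝ) ^ (1 - σ) := by
      have : (M : ℂ) = ((M : ℝ) : ℂ) := by push_cast; rfl
      rw [this, Complex.norm_cpow_eq_rpow_re_of_pos hMpos]
      simp [hσdef]
    have hden : τ ≤ ‖s - 1‖ := by
      have := Complex.abs_im_le_norm (s - 1)
      simpa [hτ, ht] using this
    have hexp : Real.exp (2 * ℓ ^ (0.08 : ℝ) - ℓ) = Real.exp (2 * ℓ ^ (0.08 : ℝ)) / τ := by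
      rw [Real.exp_sub, ← hτℓ]
    rw [norm_div, norm_mul, Complex.norm_real, Real.norm_eq_abs, abs_of_nonneg hr0, hnum]
    calc rho χ * (M : ℝ) ^ (1 - σ) / ‖s - 1‖
        ≤ 1 * Real.exp (2 * ℓ ^ (0.08 : ℝ)) / τ := by gcongr
      _ = Real.exp (2 * ℓ ^ (0.08 : ℝ) - ℓ) := by rw [one_mul, hexp]
      _ ≤ 1 / 4 := c5
  -- N1
  set N1 := ⌈Real.exp (ℓ ^ (0.92 : ℝ))⌉₊ with hN1
  have hN1ge : Real.exp (ℓ ^ (0.92 : ℝ)) ≤ N1 := Nat.le_ceil _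
  have hN1lt : (N1 : ℝ) < Real.exp (ℓ ^ (0.92 : ℝ)) + 1 := Nat.ceil_lt_add_one (Real.exp_pos _).le
  have hexp1 : 1 ≤ Real.exp (ℓ ^ (0.92 : ℝ)) := Real.one_le_exp h92pos.le
  have hN1one : (1 : ℝ) ≤ N1 := le_trans hexp1 hN1ge
  have hN1pos : (0 : ℝ) < N1 := by linarith
  have hlogN1 : Real.log N1 ≤ ℓ ^ (0.92 : ℝ) + 1 := by
    have h1 : (N1 : ℝ) ≤ Real.exp (ℓ ^ (0.92 : ℝ) + 1) := by
      rw [Real.exp_add]
      have h2 : (2 : ℝ) ≤ Real.exp 1 := by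
        have := Real.add_one_le_exp (1 : ℝ)
        linarith
      have h3 := mul_le_mul_of_nonneg_left h2 (Real.exp_pos (ℓ ^ (0.92 : ℝ))).le
      linarith
    calc Real.log N1 ≤ Real.log (Real.exp (ℓ ^ (0.92 : ℝ) + 1)) := Real.log_le_log hN1pos h1
      _ = ℓ ^ (0.92 : ℝ) + 1 := Real.log_exp _
  -- the short part
  have hterm : ∀ n : ℕ, 1 ≤ n → ‖χ n * (n : ℂ) ^ (-s)‖ ≤ (n : ℝ) ^ (1 - σ) * (n : ℝ)⁻¹ := by
    intro n hn
    have hnpos : (0 : ℝ) < n := by exact_mod_cast hn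
    have h1 : ‖(n : ℂ) ^ (-s)‖ = (n : ℝ) ^ (-σ) := by
      have : (n : ℂ) = ((n : ℝ) : ℂ) := by push_cast; rfl
      rw [this, Complex.norm_cpow_eq_rpow_re_of_pos hnpos]
      simp [hσdef]
    have h2 : (n : ℝ) ^ (-σ) = (n : ℝ) ^ (1 - σ) * (n : ℝ)⁻¹ := by
      rw [show (-σ) = (1 - σ) - 1 by ring, Real.rpow_sub hnpos, Real.rpow_one, div_eq_mul_inv]
    rw [norm_mul, h1, h2]
    have h3 := χ.norm_le_one (n : ZMod q)
    have h4 : 0 ≤ (n : ℝ) ^ (1 - σ) * (n : ℝ)⁻¹ := by positivity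
    calc _ ≤ 1 * ((n : ℝ) ^ (1 - σ) * (n : ℝ)⁻¹) := by gcongr
      _ = _ := one_mul _
  have hshort : ∀ K : ℕ, K ≤ N1 → ‖∑ n ∈ Icc 1 K, χ n * (n : ℂ) ^ (-s)‖ ≤
      8 * (2 + ℓ ^ (0.92 : ℝ)) := by
    intro K hK
    have he2 : Real.exp 2 ≤ 8 := by
      have h1 : Real.exp 1 < 2.7182818286 := Real.exp_one_lt_d9
      have h2 : Real.exp 2 = Real.exp 1 * Real.exp 1 := by rw [← Real.exp_add]; norm_num
      rw [h2]
      have h3 := Real.exp_pos 1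
      have h4 : Real.exp 1 * Real.exp 1 ≤ 2.7182818286 * 2.7182818286 :=
        mul_le_mul h1.le h1.le h3.le (by norm_num)
      have h5 : (2.7182818286 : ℝ) * 2.7182818286 ≤ 8 := by norm_num
      linarith
    have h1 : ∀ n ∈ Icc 1 K, ‖χ n * (n : ℂ) ^ (-s)‖ ≤ 8 * (n : ℝ)⁻¹ := by
      intro n hn
      rw [mem_Icc] at hn
      have hn1 : (1 : ℝ) ≤ n := by exact_mod_cast hn.1
      refine le_trans (hterm n hn.1) ?_
      have hlog : Real.log n ≤ ℓ ^ (0.92 : ℝ) + 1 := by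
        refine le_trans (Real.log_le_log (by linarith) ?_) hlogN1
        have : n ≤ N1 := le_trans hn.2 hK
        exact_mod_cast this
      have h2 := gr_pow hℓ1 hσ (n : ℝ) hn1 hlog
      have h3 : Real.exp ((ℓ ^ (0.92 : ℝ) + 1) * δ) ≤ Real.exp 2 := by
        apply Real.exp_le_exp.2
        have e : (ℓ ^ (0.92 : ℝ) + 1) * δ = ℓ ^ (0.92 : ℝ) * δ + δ := by ring
        linarith
      gcongr
      exact le_trans h2 (le_trans h3 he2)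
    have h2 : ∑ n ∈ Icc 1 K, (n : ℝ)⁻¹ ≤ 1 + Real.log K := by
      have := harmonic_le_one_add_log K
      rw [harmonic_eq_sum_Icc] at this
      push_cast at this
      exact this
    have h3 : Real.log K ≤ ℓ ^ (0.92 : ℝ) + 1 := by
      rcases Nat.eq_zero_or_pos K with h0 | h0
      · rw [h0]; simp; positivity
      · refine le_trans (Real.log_le_log (by exact_mod_cast h0) ?_) hlogN1
        exact_mod_cast hK
    calc ‖∑ n ∈ Icc 1 K, χ n * (n : ℂ) ^ (-s)‖ ≤ ∑ n ∈ Icc 1 K, ‖χ n * (n : ℂ) ^ (-s)‖ :=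
          norm_sum_le _ _
      _ ≤ ∑ n ∈ Icc 1 K, 8 * (n : ℝ)⁻¹ := Finset.sum_le_sum h1
      _ = 8 * ∑ n ∈ Icc 1 K, (n : ℝ)⁻¹ := by rw [Finset.mul_sum]
      _ ≤ 8 * (1 + Real.log K) := by gcongr
      _ ≤ 8 * (2 + ℓ ^ (0.92 : ℝ)) := by linarith
  -- the blocks
  set B := Real.exp (2 * ℓ ^ (0.08 : ℝ) - Real.sqrt ℓ / 2) with hB
  have hBpos : 0 < B := Real.exp_pos _
  have hblock : ∀ N N' : ℕ, N1 ≤ N → (N : ℝ) ≤ τ ^ 2 → N' ≤ 2 * N →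
      ‖∑ n ∈ Ioc N N', χ n * (n : ℂ) ^ (-s)‖ ≤ B := by
    intro N N' h1 h2 h3
    have hN1' : (N1 : ℝ) ≤ N := by exact_mod_cast h1
    have hNpos : (0 : ℝ) < N := by linarith
    have hNone : (1 : ℝ) ≤ N := by linarith
    have h2' : (N : ℝ) ≤ t ^ 2 := by rw [← sq_abs]; exact h2
    have hc : ∀ u, u ≤ N' → ‖∑ n ∈ Ioc N u, χ n * (n : ℂ) ^ (-((t : ℂ) * Complex.I))‖ ≤
        N * Real.exp (-(Real.sqrt ℓ / 2)) := by
      intro u hu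
      exact hchi χ t hτt1 N u (le_trans hN1ge hN1') h2' (le_trans hu h3)
    have hab := gr_abel (fun n => (n : ℝ) ^ (-σ))
      (fun n => χ n * (n : ℂ) ^ (-((t : ℂ) * Complex.I))) N (N * Real.exp (-(Real.sqrt ℓ / 2)))
      (by positivity) (by intro n _; positivity)
      (by
        intro n hn
        have hnpos : (0 : ℝ) < n := by
          have : 0 < n := by omega
          exact_mod_cast this
        apply Real.rpow_le_rpow_of_nonpos hnpos _ (by linarith)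
        push_cast; linarith) N' hc
    have hrew : ∑ n ∈ Ioc N N', χ n * (n : ℂ) ^ (-s) =
        ∑ n ∈ Ioc N N', (((n : ℝ) ^ (-σ) : ℝ) : ℂ) * (χ n * (n : ℂ) ^ (-((t : ℂ) * Complex.I))) := by
      apply Finset.sum_congr rfl
      intro n hn
      rw [mem_Ioc] at hn
      rw [gr_split n (by omega) s]
      ring
    rw [hrew]
    refine le_trans hab ?_
    have hw : (((N + 1 : ℕ) : ℝ)) ^ (-σ) ≤ (N : ℝ) ^ (-σ) := by
      apply Real.rpow_le_rpow_of_nonpos hNpos _ (by linarith)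
      push_cast; linarith
    have hlogN : Real.log N ≤ 2 * ℓ := by
      have := Real.log_le_log hNpos h2
      rw [Real.log_pow] at this
      simpa using this
    have hNσ : (N : ℝ) ^ (1 - σ) ≤ Real.exp (2 * ℓ ^ (0.08 : ℝ)) := by
      have := gr_pow hℓ1 hσ (N : ℝ) hNone hlogN
      rwa [mul_assoc, hℓδ] at this
    calc N * Real.exp (-(Real.sqrt ℓ / 2)) * (((N + 1 : ℕ) : ℝ)) ^ (-σ)
        ≤ N * Real.exp (-(Real.sqrt ℓ / 2)) * (N : ℝ) ^ (-σ) := by gcongr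
      _ = (N : ℝ) ^ (1 - σ) * Real.exp (-(Real.sqrt ℓ / 2)) := by
          rw [show 1 - σ = 1 + (-σ) by ring, Real.rpow_add hNpos, Real.rpow_one]; ring
      _ ≤ Real.exp (2 * ℓ ^ (0.08 : ℝ)) * Real.exp (-(Real.sqrt ℓ / 2)) := by gcongr
      _ = B := by rw [hB, ← Real.exp_add]; congr 1
  have hchain : ∀ k M' : ℕ, M' ≤ M → M' ≤ 2 ^ k * N1 →
      ‖∑ n ∈ Ioc N1 M', χ n * (n : ℂ) ^ (-s)‖ ≤ k * B := by
    intro k
    induction k with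
    | zero =>
      intro M' _ h2
      rw [Finset.Ioc_eq_empty (by omega)]
      simp
    | succ k ih =>
      intro M' h1 h2
      rcases Nat.lt_or_ge (2 ^ k * N1) M' with h3 | h3
      · have hle : N1 ≤ 2 ^ k * N1 := Nat.le_mul_of_pos_left _ (by positivity)
        have hsplit : ∑ n ∈ Ioc N1 M', χ n * (n : ℂ) ^ (-s) =
            ∑ n ∈ Ioc N1 (2 ^ k * N1), χ n * (n : ℂ) ^ (-s) +
            ∑ n ∈ Ioc (2 ^ k * N1) M', χ n * (n : ℂ) ^ (-s) := by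
          rw [Finset.sum_Ioc_consecutive _ hle h3.le]
        have hb := hblock (2 ^ k * N1) M' hle (by
          refine le_trans ?_ hMle
          have : 2 ^ k * N1 ≤ M := le_trans h3.le h1
          exact_mod_cast this) (by rw [pow_succ] at h2; linarith)
        have hi := ih (2 ^ k * N1) (le_trans h3.le h1) le_rfl
        rw [hsplit]
        calc _ ≤ _ := norm_add_le _ _
          _ ≤ k * B + B := add_le_add hi hb
          _ = ((k + 1 : ℕ) : ℝ) * B := by push_cast; ring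
      · have hi := ih M' h1 h3
        calc _ ≤ k * B := hi
          _ ≤ ((k + 1 : ℕ) : ℝ) * B := by
            have e : ((k + 1 : ℕ) : ℝ) * B = k * B + B := by push_cast; ring
            linarith
  set k := ⌈3 * ℓ⌉₊ with hk
  have hk1 : 3 * ℓ ≤ k := Nat.le_ceil _
  have hk2 : (k : ℝ) ≤ 4 * ℓ := by
    have := Nat.ceil_lt_add_one (a := 3 * ℓ) (by positivity)
    linarith
  have hMk : M ≤ 2 ^ k * N1 := by
    have h1 : τ ^ 2 ≤ 2 ^ k := by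
      have h2 : (0.6931471803 : ℝ) < Real.log 2 := Real.log_two_gt_d9
      have h3 : (2 : ℝ) ^ k = Real.exp (k * Real.log 2) := by
        rw [mul_comm, ← Real.rpow_natCast, Real.rpow_def_of_pos (by norm_num)]
      have h4 : τ ^ 2 = Real.exp (2 * ℓ) := by
        rw [hτℓ, ← Real.exp_nat_mul]; push_cast; rfl
      rw [h3, h4]
      apply Real.exp_le_exp.2
      have a1 : 3 * ℓ * Real.log 2 ≤ k * Real.log 2 :=
        mul_le_mul_of_nonneg_right hk1 (by linarith)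
      have a2 : 3 * ℓ * 0.6931471803 ≤ 3 * ℓ * Real.log 2 :=
        mul_le_mul_of_nonneg_left h2.le (by linarith)
      linarith
    have h5 : (M : ℝ) ≤ 2 ^ k * N1 := by
      calc (M : ℝ) ≤ τ ^ 2 := hMle
        _ ≤ 2 ^ k * 1 := by linarith
        _ ≤ 2 ^ k * N1 := by gcongr
    exact_mod_cast h5
  have hlong : ‖∑ n ∈ Ioc N1 M, χ n * (n : ℂ) ^ (-s)‖ ≤ 1 / 4 := by
    calc _ ≤ k * B := hchain k M le_rfl hMk
      _ ≤ 4 * ℓ * B := by gcongr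
      _ ≤ 1 / 4 := c3
  have hsum : ‖∑ n ∈ Icc 1 M, χ n * (n : ℂ) ^ (-s)‖ ≤ 8 * (2 + ℓ ^ (0.92 : ℝ)) + 1 / 4 := by
    rcases Nat.lt_or_ge N1 M with h1 | h1
    · have hN1' : 1 ≤ N1 := by exact_mod_cast hN1one
      have hsplit : ∑ n ∈ Icc 1 M, χ n * (n : ℂ) ^ (-s) =
          ∑ n ∈ Icc 1 N1, χ n * (n : ℂ) ^ (-s) + ∑ n ∈ Ioc N1 M, χ n * (n : ℂ) ^ (-s) := by
        have e1 : ∀ K : ℕ, Icc 1 K = Ioc 0 K := by
          intro K
          ext n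
          simp only [mem_Icc, mem_Ioc]
          omega
        rw [e1, e1, Finset.sum_Ioc_consecutive _ (Nat.zero_le _) h1.le]
      rw [hsplit]
      exact le_trans (norm_add_le _ _) (add_le_add (hshort N1 le_rfl) hlong)
    · have := hshort M h1
      linarith
  have hfin : ‖χ.LFunction s‖ ≤ ‖χ.LFunction s - ∑ n ∈ Icc 1 M, χ n * (n : ℂ) ^ (-s) -
        (rho χ : ℂ) * (M : ℂ) ^ (1 - s) / (s - 1)‖ + ‖∑ n ∈ Icc 1 M, χ n * (n : ℂ) ^ (-s)‖ +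
        ‖(rho χ : ℂ) * (M : ℂ) ^ (1 - s) / (s - 1)‖ := by
    calc ‖χ.LFunction s‖ = ‖(χ.LFunction s - ∑ n ∈ Icc 1 M, χ n * (n : ℂ) ^ (-s) -
        (rho χ : ℂ) * (M : ℂ) ^ (1 - s) / (s - 1)) + ∑ n ∈ Icc 1 M, χ n * (n : ℂ) ^ (-s) +
        (rho χ : ℂ) * (M : ℂ) ^ (1 - s) / (s - 1)‖ := by congr 1; ring
      _ ≤ _ := norm_add₃_le
  linarith

end Pool.Agent.H43.LF
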