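import Mathlib

/-!
# [H43 LF LAN] Landau's local lemma

`f` analytic on the closed ball of radius `R` around 0, `f(0) ≠ 0`, `|f| <= e^M |f(0)|` there, no zeros
in the open half ball `Re z > 0`. Then `Re (f'/f)(0) >= -2M/R`, and if moreover `f(-d) = 0` with
`0 < d < R` then `Re (f'/f)(0) >= -2M/R + 1/d - d/R^2`.

PROOF. `f` has finitely many zeros `ρ` in the open ball (counted with multiplicity; `f` is not
identically 0). Divide by the Blaschke factors `b_ρ(z) = R(z-ρ)/(R^2 - conj(ρ) z)`: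
`f = g ∏ b_ρ`, `g` analytic, without zeros in the open ball; `|b_ρ| = 1` on the circle, so
`|g| = |f| <= e^M |f(0)|` on the circle and (maximum principle) in the ball, and
`|g(0)| = |f(0)| ∏ (R/|ρ|) >= |f(0)|`. (Mathlib: `Complex.CanonicalDecomp`, file
Analysis/Complex/CanonicalDecomposition.lean, or an induction on the number of zeros, or:
take the finite set of zeros with their analytic orders and divide by `∏ b_ρ^{m_ρ}`.)
`g` has no zero in the ball, so `g = g(0) exp(h)` with `h` analytic in the open ball, `h(0) = 0`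
(`DifferentiableOn` primitive of `g'/g`: Analysis/Complex/HasPrimitives.lean), and `Re h <= M`.
Borel-Caratheodory (`Complex.borelCaratheodory_zero`): `|h(z)| <= 2M|z|/(R-|z|)`, so
`|h'(0)| <= 2M/R` (let `z -> 0`; if `M = 0` use `M + ε`). `f'/f(0) = h'(0) + Σ_ρ b_ρ'/b_ρ (0)` and
`b_ρ'(0)/b_ρ(0) = -1/ρ + conj(ρ)/R^2`, real part `-Re ρ (1/|ρ|^2 - 1/R^2) >= 0` because `Re ρ <= 0`,
`|ρ| < R`; for `ρ = -d` it is `1/d - d/R^2`.
An induction that avoids the full factorisation: let `n` be the number of zeros in the open ball with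
multiplicity; `n = 0`: the argument with `h`; step: divide by one factor `b_ρ` (removable
singularity), which keeps all the hypotheses (with `|f(0)|` replaced by the larger `|f(0)| R/|ρ|`) and
lowers `n`. For the second claim divide by `b_(-d)` first, then use the first claim.
-/

namespace Pool.Agent.H43.LF

open Metric

open Filter Topology

theorem lan_base {f : ℂ → ℂ} {r B : ℝ} (hr : 0 < r) (hf : DifferentiableOn ℂ f (ball 0 r))
    (hz : ∀ z ∈ ball (0 : ℂ) r, f z ≠ 0) (hb : ∀ z ∈ ball (0 : ℂ) r, ‖f z‖ ≤ B) :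
    ‖deriv f 0 / f 0‖ ≤ 2 * Real.log (B / ‖f 0‖) / r := by
  have h0 : (0 : ℂ) ∈ ball (0 : ℂ) r := mem_ball_self hr
  have hf0 := hz 0 h0
  have hf0' : 0 < ‖f 0‖ := norm_pos_iff.2 hf0
  have hB : 0 < B := lt_of_lt_of_le hf0' (hb 0 h0)
  have hd : DifferentiableOn ℂ (fun z => deriv f z / f z) (ball 0 r) :=
    (hf.deriv isOpen_ball).div hf hz
  obtain ⟨h, hh0, hh⟩ := (hd.isExactOn_ball).with_val_at 0 0
  have hk : ∀ z ∈ ball (0 : ℂ) r, HasDerivAt (fun z => f z * Complex.exp (-h z)) 0 z := by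
    intro z hzr
    have h1 : HasDerivAt f (deriv f z) z :=
      (hf.differentiableAt (isOpen_ball.mem_nhds hzr)).hasDerivAt
    have h2 : HasDerivAt (fun z => f z * Complex.exp (-h z))
        (deriv f z * Complex.exp (-h z) + f z * (Complex.exp (-h z) * -(deriv f z / f z))) z :=
      h1.mul (hh z hzr).fun_neg.cexp
    have h3 : f z * (deriv f z / f z) = deriv f z := mul_div_cancel₀ _ (hz z hzr)
    have h4 : deriv f z * Complex.exp (-h z) +
        f z * (Complex.exp (-h z) * -(deriv f z / f z)) = 0 := by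
      linear_combination (-Complex.exp (-h z)) * h3
    rwa [h4] at h2
  have hconst : ∀ z ∈ ball (0 : ℂ) r, f z = f 0 * Complex.exp (h z) := by
    intro z hzr
    have h1 := (convex_ball (0 : ℂ) r).norm_image_sub_le_of_norm_hasDerivWithin_le
      (f := fun z => f z * Complex.exp (-h z)) (f' := fun _ => 0) (C := 0) (x := 0) (y := z)
      (fun w hw => (hk w hw).hasDerivWithinAt) (fun w hw => by simp) h0 hzr
    rw [zero_mul, norm_le_zero_iff, sub_eq_zero] at h1
    simp only [hh0, neg_zero, Complex.exp_zero, mul_one] at h1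
    rw [← h1, mul_assoc, ← Complex.exp_add]
    simp
  set M0 := Real.log (B / ‖f 0‖) with hM0
  have hre : ∀ z ∈ ball (0 : ℂ) r, (h z).re ≤ M0 := by
    intro z hzr
    rw [hM0, Real.le_log_iff_exp_le (div_pos hB hf0'), ← Complex.norm_exp, le_div_iff₀ hf0',
      ← norm_mul, mul_comm, ← hconst z hzr]
    exact hb z hzr
  have hM0' : 0 ≤ M0 := by
    have := hre 0 h0
    rwa [hh0, Complex.zero_re] at this
  have hlip : ∀ s : ℝ, 0 < s → s < r → ‖deriv f 0 / f 0‖ ≤ 2 * (M0 + s) / (r - s) := by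
    intro s hs hsr
    have hpos : 0 < r - s := by linarith
    refine HasDerivAt.le_of_lip' (hh 0 h0) (by positivity) ?_
    filter_upwards [ball_mem_nhds (0 : ℂ) hs] with z hzs
    rw [mem_ball, dist_zero_right] at hzs
    have hzr : z ∈ ball (0 : ℂ) r := by
      rw [mem_ball, dist_zero_right]
      linarith
    have h1 := Complex.borelCaratheodory_zero (M := M0 + s) (by linarith)
      (fun w hw => ((hh w hw).differentiableAt).differentiableWithinAt)
      (fun w hw => (hre w hw).trans (by linarith)) hr hzr hh0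
    rw [hh0, sub_zero, sub_zero]
    refine h1.trans ?_
    have hpos2 : 0 < r - ‖z‖ := by linarith
    rw [div_mul_eq_mul_div]
    apply div_le_div_of_nonneg_left (by positivity) hpos
    linarith
  have hcont : Tendsto (fun s : ℝ => 2 * (M0 + s) / (r - s)) (𝓝[>] 0) (𝓝 (2 * (M0 + 0) / (r - 0))) := by
    apply Tendsto.mono_left _ nhdsWithin_le_nhds
    have : ContinuousAt (fun s : ℝ => 2 * (M0 + s) / (r - s)) 0 := by
      apply ContinuousAt.div
      · fun_prop
      · fun_prop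
      · simp only [sub_zero]
        exact hr.ne'
    exact this.tendsto
  rw [add_zero, sub_zero] at hcont
  refine ge_of_tendsto hcont ?_
  filter_upwards [Ioo_mem_nhdsGT hr] with s hs
  exact hlip s hs.1 hs.2

theorem lan_div {f : ℂ → ℂ} {R B : ℝ} {U : Set ℂ} (hU : IsOpen U) (hR : 0 < R)
    (hRU : closedBall (0 : ℂ) R ⊆ U) (hf : DifferentiableOn ℂ f U)
    (hb : ∀ z ∈ closedBall (0 : ℂ) R, ‖f z‖ ≤ B) (h0 : f 0 ≠ 0) {ρ : ℂ}
    (hρ : ρ ∈ ball (0 : ℂ) R) (hρ0 : f ρ = 0) :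
    ∃ g : ℂ → ℂ, DifferentiableOn ℂ g U ∧ (∀ z ∈ closedBall (0 : ℂ) R, ‖g z‖ ≤ B) ∧
      ‖g 0‖ = ‖f 0‖ * (R / ‖ρ‖) ∧ g 0 ≠ 0 ∧ (∀ z ∈ ball (0 : ℂ) R, g z = 0 → f z = 0) ∧
      deriv f 0 / f 0 = deriv g 0 / g 0 + (-1 / ρ + (starRingEnd ℂ) ρ / (R : ℂ) ^ 2) := by
  have hRc : (R : ℂ) ≠ 0 := by exact_mod_cast hR.ne'
  have hρn : ρ ≠ 0 := by
    rintro rfl
    exact h0 hρ0
  have hρn' : 0 < ‖ρ‖ := norm_pos_iff.2 hρn
  have hρR : ‖ρ‖ < R := by rwa [mem_ball, dist_zero_right] at hρ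
  have hρU : ρ ∈ U := hRU (ball_subset_closedBall hρ)
  have h0U : (0 : ℂ) ∈ U := hRU (mem_closedBall_self hR.le)
  have hds : DifferentiableOn ℂ (dslope f ρ) U :=
    (Complex.differentiableOn_dslope (hU.mem_nhds hρU)).2 hf
  have hfac : ∀ z, f z = (z - ρ) * dslope f ρ z := by
    intro z
    have h1 := sub_smul_dslope f ρ z
    rw [hρ0, sub_zero, smul_eq_mul] at h1
    exact h1.symm
  set g : ℂ → ℂ := fun z => dslope f ρ z * (((R : ℂ) ^ 2 - (starRingEnd ℂ) ρ * z) / R) with hg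
  have hgd : DifferentiableOn ℂ g U := by
    apply hds.mul
    fun_prop
  have hgf : ∀ z, f z * ((R : ℂ) ^ 2 - (starRingEnd ℂ) ρ * z) = g z * ((R : ℂ) * (z - ρ)) := by
    intro z
    rw [hfac z, hg]
    field_simp
  have hne : ∀ z ∈ ball (0 : ℂ) R, (R : ℂ) ^ 2 - (starRingEnd ℂ) ρ * z ≠ 0 := by
    intro z hz h
    rw [mem_ball, dist_zero_right] at hz
    have h1 : (R : ℂ) ^ 2 = (starRingEnd ℂ) ρ * z := sub_eq_zero.1 h
    have h2 := congrArg norm h1
    rw [norm_pow, Complex.norm_real, Real.norm_of_nonneg hR.le, norm_mul, RCLike.norm_conj] at h2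
    nlinarith [norm_nonneg z]
  have hg0 : g 0 = -(f 0 / ρ) * R := by
    have h1 := hgf 0
    rw [mul_zero, sub_zero, zero_sub] at h1
    have h2 : g 0 * ((R : ℂ) * -ρ) = (-(f 0 / ρ) * R) * ((R : ℂ) * -ρ) := by
      rw [← h1]
      field_simp
    exact mul_right_cancel₀ (mul_ne_zero hRc (neg_ne_zero.2 hρn)) h2
  have hg0n : ‖g 0‖ = ‖f 0‖ * (R / ‖ρ‖) := by
    rw [hg0, norm_mul, norm_neg, norm_div, Complex.norm_real, Real.norm_of_nonneg hR.le]
    ring
  have hg0ne : g 0 ≠ 0 := by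
    rw [← norm_pos_iff, hg0n]
    have := norm_pos_iff.2 h0
    positivity
  refine ⟨g, hgd, ?_, hg0n, hg0ne, ?_, ?_⟩
  · have hbd : ∀ z ∈ frontier (ball (0 : ℂ) R), ‖g z‖ ≤ B := by
      intro z hz
      rw [frontier_ball _ hR.ne', mem_sphere, dist_zero_right] at hz
      have hzc : z ∈ closedBall (0 : ℂ) R := by
        rw [mem_closedBall, dist_zero_right, hz]
      have hzρ : z - ρ ≠ 0 := by
        intro h
        rw [sub_eq_zero.1 h] at hz
        linarith
      have h1 : ‖(R : ℂ) ^ 2 - (starRingEnd ℂ) ρ * z‖ = R * ‖z - ρ‖ := by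
        have h2 : (R : ℂ) ^ 2 = (starRingEnd ℂ) z * z := by
          rw [← Complex.normSq_eq_conj_mul_self, Complex.normSq_eq_norm_sq, hz]
          push_cast
          rfl
        rw [h2, ← sub_mul, norm_mul, ← map_sub, RCLike.norm_conj, hz, mul_comm]
      have h3 : ‖f z‖ * (R * ‖z - ρ‖) = ‖g z‖ * (R * ‖z - ρ‖) := by
        have h4 := congrArg norm (hgf z)
        rw [norm_mul (f z), h1, norm_mul (g z), norm_mul (R : ℂ), Complex.norm_real,
          Real.norm_of_nonneg hR.le] at h4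
        exact h4
      have h4 : 0 < R * ‖z - ρ‖ := mul_pos hR (norm_pos_iff.2 hzρ)
      have h5 := mul_right_cancel₀ h4.ne' h3
      rw [← h5]
      exact hb z hzc
    intro z hz
    refine Complex.norm_le_of_forall_mem_frontier_norm_le isBounded_ball ?_ hbd ?_
    · apply DifferentiableOn.diffContOnCl
      rw [closure_ball _ hR.ne']
      exact hgd.mono hRU
    · rwa [closure_ball _ hR.ne']
  · intro z hz hgz
    have h1 := hgf z
    rw [hgz, zero_mul] at h1
    exact (mul_eq_zero.1 h1).resolve_right (hne z hz)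
  · have df : HasDerivAt f (deriv f 0) 0 :=
      (hf.differentiableAt (hU.mem_nhds h0U)).hasDerivAt
    have dg : HasDerivAt g (deriv g 0) 0 :=
      (hgd.differentiableAt (hU.mem_nhds h0U)).hasDerivAt
    have d1 : HasDerivAt (fun z : ℂ => (R : ℂ) ^ 2 - (starRingEnd ℂ) ρ * z)
        (-(starRingEnd ℂ) ρ) 0 := by
      have := ((hasDerivAt_id (0 : ℂ)).const_mul ((starRingEnd ℂ) ρ)).const_sub ((R : ℂ) ^ 2)
      simpa using this
    have d2 : HasDerivAt (fun z : ℂ => (R : ℂ) * (z - ρ)) (R : ℂ) 0 := by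
      have := ((hasDerivAt_id (0 : ℂ)).sub_const ρ).const_mul (R : ℂ)
      simpa using this
    have e1 := df.mul d1
    have e2 := dg.mul d2
    have e3 : (f * fun z : ℂ => (R : ℂ) ^ 2 - (starRingEnd ℂ) ρ * z) =
        (g * fun z : ℂ => (R : ℂ) * (z - ρ)) := by
      funext z
      exact hgf z
    rw [e3] at e1
    have e4 := e1.unique e2
    simp only [mul_zero, sub_zero, zero_sub] at e4
    have e5 := hgf 0
    rw [mul_zero, sub_zero, zero_sub] at e5
    have e6 : f 0 = -(g 0 * ρ / R) := by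
      rw [hg0]
      field_simp
    have e7 : (deriv g 0 / g 0 + (-1 / ρ + (starRingEnd ℂ) ρ / (R : ℂ) ^ 2)) * f 0 =
        (g 0 - ρ * deriv g 0) / R - g 0 * ρ * (starRingEnd ℂ) ρ / (R : ℂ) ^ 3 := by
      rw [e6]
      field_simp
      ring
    have e8 : deriv f 0 =
        (g 0 - ρ * deriv g 0) / R - g 0 * ρ * (starRingEnd ℂ) ρ / (R : ℂ) ^ 3 := by
      rw [e6] at e4
      field_simp at e4 ⊢
      linear_combination e4
    rw [div_eq_iff h0, e7]
    exact e8

theorem lan_re {ρ : ℂ} {R : ℝ} (hR : 0 < R) (hρ : ρ ≠ 0) :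
    (-1 / ρ + (starRingEnd ℂ) ρ / (R : ℂ) ^ 2).re = -ρ.re * (1 / ‖ρ‖ ^ 2 - 1 / R ^ 2) := by
  have h1 : (-1 / ρ).re = -ρ.re / ‖ρ‖ ^ 2 := by
    rw [neg_div, one_div, Complex.neg_re, Complex.inv_re, Complex.normSq_eq_norm_sq]
    ring
  have h2 : ((starRingEnd ℂ) ρ / (R : ℂ) ^ 2).re = ρ.re / R ^ 2 := by
    rw [← Complex.ofReal_pow, Complex.div_ofReal_re, Complex.conj_re]
  rw [Complex.add_re, h1, h2]
  ring

theorem lan_ind {R r B : ℝ} {U : Set ℂ} (hU : IsOpen U) (hr : 0 < r) (hrR : r < R)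
    (hRU : closedBall (0 : ℂ) R ⊆ U) (n : ℕ) : ∀ f : ℂ → ℂ, DifferentiableOn ℂ f U → f 0 ≠ 0 →
    (∀ z ∈ closedBall (0 : ℂ) R, ‖f z‖ ≤ B) → (∀ z ∈ ball (0 : ℂ) R, 0 < z.re → f z ≠ 0) →
    B * (r / R) ^ n < ‖f 0‖ → -(2 * Real.log (B / ‖f 0‖) / r) ≤ (deriv f 0 / f 0).re := by
  have hR : 0 < R := hr.trans hrR
  induction n with
  | zero =>
    intro f _ _ hb _ h
    rw [pow_zero, mul_one] at h
    exact absurd (hb 0 (mem_closedBall_self hR.le)) (not_le.2 h)
  | succ n ih =>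
    intro f hf h0 hb hz h
    have h0' : 0 < ‖f 0‖ := norm_pos_iff.2 h0
    by_cases hc : ∀ z ∈ ball (0 : ℂ) r, f z ≠ 0
    · have h1 := lan_base hr (hf.mono ((ball_subset_ball hrR.le).trans
        (ball_subset_closedBall.trans hRU))) hc
        (fun z hz => hb z (ball_subset_closedBall (ball_subset_ball hrR.le hz)))
      have h2 := Complex.abs_re_le_norm (deriv f 0 / f 0)
      have h3 := neg_abs_le (deriv f 0 / f 0).re
      linarith
    · push Not at hc
      obtain ⟨ρ, hρ, hρ0⟩ := hc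
      have hρR : ρ ∈ ball (0 : ℂ) R := ball_subset_ball hrR.le hρ
      obtain ⟨g, g1, g2, g3, g4, g5, g6⟩ := lan_div hU hR hRU hf hb h0 hρR hρ0
      have hρn : ρ ≠ 0 := by
        rintro rfl
        exact h0 hρ0
      have hρn' : 0 < ‖ρ‖ := norm_pos_iff.2 hρn
      have hρr : ‖ρ‖ < r := by rwa [mem_ball, dist_zero_right] at hρ
      have hB : 0 < B := lt_of_lt_of_le h0' (hb 0 (mem_closedBall_self hR.le))
      have h1 : R / r ≤ R / ‖ρ‖ := div_le_div_of_nonneg_left hR.le hρn' hρr.le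
      have h2 : B * (r / R) ^ n < ‖g 0‖ := by
        rw [g3]
        have h3 : B * (r / R) ^ n = B * (r / R) ^ (n + 1) * (R / r) := by
          rw [pow_succ]
          field_simp
        rw [h3]
        exact mul_lt_mul h h1 (by positivity) h0'.le
      have h3 := ih g g1 g4 g2 (fun z hzR hre hgz => hz z hzR hre (g5 z hzR hgz)) h2
      have h4 : ‖f 0‖ ≤ ‖g 0‖ := by
        rw [g3]
        have : 1 ≤ R / ‖ρ‖ := by
          rw [le_div_iff₀ hρn']
          linarith
        nlinarith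
      have h5 : Real.log (B / ‖g 0‖) ≤ Real.log (B / ‖f 0‖) := by
        apply Real.log_le_log (div_pos hB (norm_pos_iff.2 g4))
        exact div_le_div_of_nonneg_left hB.le h0' h4
      have h6 : 2 * Real.log (B / ‖g 0‖) / r ≤ 2 * Real.log (B / ‖f 0‖) / r := by
        apply div_le_div_of_nonneg_right _ hr.le
        linarith
      have h7 : 0 ≤ (-1 / ρ + (starRingEnd ℂ) ρ / (R : ℂ) ^ 2).re := by
        rw [lan_re hR hρn]
        apply mul_nonneg
        · by_contra hcon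
          push Not at hcon
          exact hz ρ hρR (by linarith) hρ0
        · rw [sub_nonneg]
          apply one_div_le_one_div_of_le (by positivity)
          apply pow_le_pow_left₀ hρn'.le
          linarith
      rw [g6, Complex.add_re]
      linarith

theorem lan_main {f : ℂ → ℂ} {R B : ℝ} {U : Set ℂ} (hU : IsOpen U) (hR : 0 < R)
    (hRU : closedBall (0 : ℂ) R ⊆ U) (hf : DifferentiableOn ℂ f U) (h0 : f 0 ≠ 0)
    (hb : ∀ z ∈ closedBall (0 : ℂ) R, ‖f z‖ ≤ B)
    (hz : ∀ z ∈ ball (0 : ℂ) R, 0 < z.re → f z ≠ 0) :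
    -(2 * Real.log (B / ‖f 0‖) / R) ≤ (deriv f 0 / f 0).re := by
  have h0' : 0 < ‖f 0‖ := norm_pos_iff.2 h0
  have hB : 0 < B := lt_of_lt_of_le h0' (hb 0 (mem_closedBall_self hR.le))
  have key : ∀ r : ℝ, 0 < r → r < R →
      -(2 * Real.log (B / ‖f 0‖) / r) ≤ (deriv f 0 / f 0).re := by
    intro r hr hrR
    obtain ⟨n, hn⟩ := exists_pow_lt_of_lt_one (div_pos h0' hB)
      (show r / R < 1 by rw [div_lt_one hR]; exact hrR)
    refine lan_ind hU hr hrR hRU n f hf h0 hb hz ?_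
    rwa [lt_div_iff₀ hB, mul_comm] at hn
  have hcont : Tendsto (fun r : ℝ => -(2 * Real.log (B / ‖f 0‖) / r)) (𝓝[<] R)
      (𝓝 (-(2 * Real.log (B / ‖f 0‖) / R))) := by
    apply Tendsto.mono_left _ nhdsWithin_le_nhds
    have : ContinuousAt (fun r : ℝ => -(2 * Real.log (B / ‖f 0‖) / r)) R := by
      apply ContinuousAt.neg
      apply ContinuousAt.div
      · fun_prop
      · fun_prop
      · exact hR.ne'
    exact this.tendsto
  refine le_of_tendsto hcont ?_
  filter_upwards [Ioo_mem_nhdsLT hR] with r hr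
  exact key r hr.1 hr.2

theorem landau {f : ℂ → ℂ} {R M : ℝ} (hR : 0 < R) (hM : 0 ≤ M)
    (hf : AnalyticOnNhd ℂ f (closedBall 0 R)) (h0 : f 0 ≠ 0)
    (hb : ∀ z ∈ closedBall (0 : ℂ) R, ‖f z‖ ≤ Real.exp M * ‖f 0‖)
    (hz : ∀ z ∈ ball (0 : ℂ) R, 0 < z.re → f z ≠ 0) :
    -(2 * M / R) ≤ (deriv f 0 / f 0).re ∧
    ∀ d : ℝ, 0 < d → d < R → f (-(d : ℂ)) = 0 →
      -(2 * M / R) + 1 / d - d / R ^ 2 ≤ (deriv f 0 / f 0).re := by
  set U : Set ℂ := {z | AnalyticAt ℂ f z} with hUdef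
  have hU : IsOpen U := isOpen_analyticAt ℂ f
  have hRU : closedBall (0 : ℂ) R ⊆ U := fun z hz => hf z hz
  have hfU : DifferentiableOn ℂ f U := fun z hz => hz.differentiableAt.differentiableWithinAt
  have h0' : 0 < ‖f 0‖ := norm_pos_iff.2 h0
  have hlog : Real.log (Real.exp M * ‖f 0‖ / ‖f 0‖) = M := by
    rw [mul_div_assoc, div_self h0'.ne', mul_one, Real.log_exp]
  constructor
  · have h1 := lan_main hU hR hRU hfU h0 hb hz
    rwa [hlog] at h1
  · intro d hd hdR hfd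
    have hρ : (-(d : ℂ)) ∈ ball (0 : ℂ) R := by
      rw [mem_ball, dist_zero_right, norm_neg, Complex.norm_real, Real.norm_of_nonneg hd.le]
      exact hdR
    obtain ⟨g, g1, g2, g3, g4, g5, g6⟩ := lan_div hU hR hRU hfU hb h0 hρ hfd
    have h1 := lan_main hU hR hRU g1 g4 g2 (fun z hzR hre hgz => hz z hzR hre (g5 z hzR hgz))
    have hdn : (-(d : ℂ)) ≠ 0 := by
      rw [neg_ne_zero]
      exact_mod_cast hd.ne'
    have hnd : ‖(-(d : ℂ))‖ = d := by
      rw [norm_neg, Complex.norm_real, Real.norm_of_nonneg hd.le]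
    have h4 : ‖f 0‖ ≤ ‖g 0‖ := by
      rw [g3, hnd]
      have : 1 ≤ R / d := by
        rw [le_div_iff₀ hd]
        linarith
      nlinarith
    have h5 : Real.log (Real.exp M * ‖f 0‖ / ‖g 0‖) ≤ M := by
      refine le_trans ?_ hlog.le
      apply Real.log_le_log (div_pos (by positivity) (norm_pos_iff.2 g4))
      exact div_le_div_of_nonneg_left (by positivity) h0' h4
    have h6 : 2 * Real.log (Real.exp M * ‖f 0‖ / ‖g 0‖) / R ≤ 2 * M / R := by
      apply div_le_div_of_nonneg_right _ hR.le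
      linarith
    have h7 := lan_re (ρ := -(d : ℂ)) hR hdn
    rw [hnd] at h7
    have h8 : -(-(d : ℂ)).re * (1 / d ^ 2 - 1 / R ^ 2) = 1 / d - d / R ^ 2 := by
      simp only [Complex.neg_re, Complex.ofReal_re, neg_neg]
      field_simp
    rw [g6, Complex.add_re, h7, h8]
    linarith

end Pool.Agent.H43.LF
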