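import Pool.Agent.H43.LF.Defs
import Pool.Agent.H92.SW.Integral
import Pool.Agent.H92.SW.Integral

/-!
# [H43 LF LAP] `L(s,χ)` by a partial sum

For `Re s > 0`, `s ≠ 1`, `M >= 1`:
`‖L(s,χ) - Σ_{n<=M} χ(n) n^(-s) - ρ M^(1-s)/(s-1)‖ <= 4 q ‖s‖ M^(-σ)/σ`, `ρ = rho χ`, `σ = Re s`.

PROOF. `S(u) = Σ_{n<=u} χ(n)` (`H92.SW.S`), `S(u) = ρ u + E(u)` with `|E(u)| <= q` for `u >= 0`
(`χ ≠ 1`: `H92.SW.norm_S_le_level`; `χ = 1`: in every block of `q` consecutive integers exactly `φ(q)`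
are coprime to `q`, so for `u = mq + r`, `0 <= r < q`, `S(u) = mφ(q) + (0..r)`; compare H92/SW/Triv.lean).
Let `Re s > 1`: partial summation (`sum_mul_eq_sub_sub_integral_mul`, or H92/SW/Integral
`LFunction_eq_mellin` for `χ ≠ 1`) gives
`L(s,χ) = Σ_{n<=M} χ(n)n^(-s) - S(M) M^(-s) + s ∫_M^∞ S(u) u^(-s-1) du`
`= Σ_{n<=M} χ(n)n^(-s) + ρ M^(1-s)/(s-1) - E(M) M^(-s) + s ∫_M^∞ E(u) u^(-s-1) du`.
The last integral converges locally uniformly for `Re s > 0`, so both sides are analytic in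
`{Re s > 0, s ≠ 1}` (a preconnected open set: complement of a point in a half plane), and the identity
extends (`AnalyticOnNhd.eqOn_of_preconnected_of_eventuallyEq`; for `χ = 1` the function
`LFunction` is analytic off 1, `DirichletCharacter.differentiableAt_LFunction`). Alternatively one may
prove the identity for `M = 1` in H92/SW/Integral style (mellin transform) and then move from 1 to
`M`. Error: `q M^(-σ) + ‖s‖ q M^(-σ)/σ <= 2 q ‖s‖ M^(-σ)/σ` as `σ <= ‖s‖`.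
-/

namespace Pool.Agent.H43.LF

open Finset Filter Topology MeasureTheory Complex
open Pool.Agent.H92.SW (S)

/-! ### the half plane without the point 1 -/

private lemma lap_preconn : IsPreconnected {z : ℂ | 0 < z.re ∧ z ≠ 1} := by
  have hQ1 : IsPreconnected ({z : ℂ | 0 < z.re} ∩ {z : ℂ | 0 < z.im}) :=
    ((convex_halfSpace_re_gt 0).inter (convex_halfSpace_im_gt 0)).isPreconnected
  have hQ4 : IsPreconnected ({z : ℂ | 0 < z.re} ∩ {z : ℂ | z.im < 0}) :=
    ((convex_halfSpace_re_gt 0).inter (convex_halfSpace_im_lt 0)).isPreconnected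
  have hH1 : IsPreconnected {z : ℂ | 1 < z.re} := (convex_halfSpace_re_gt 1).isPreconnected
  have hT : IsPreconnected ({z : ℂ | 0 < z.re} ∩ {z : ℂ | z.re < 1}) :=
    ((convex_halfSpace_re_gt 0).inter (convex_halfSpace_re_lt 1)).isPreconnected
  have h1 := IsPreconnected.union (⟨2, 1⟩ : ℂ) (s := {z : ℂ | 1 < z.re})
    (t := ({z : ℂ | 0 < z.re} ∩ {z : ℂ | 0 < z.im})) (by simp) (by simp) hH1 hQ1
  have h2 := IsPreconnected.union (⟨2, -1⟩ : ℂ)
    (s := {z : ℂ | 1 < z.re} ∪ ({z : ℂ | 0 < z.re} ∩ {z : ℂ | 0 < z.im}))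
    (t := ({z : ℂ | 0 < z.re} ∩ {z : ℂ | z.im < 0})) (by simp) (by simp) h1 hQ4
  have h3 := IsPreconnected.union (⟨1 / 2, 1⟩ : ℂ)
    (s := {z : ℂ | 1 < z.re} ∪ ({z : ℂ | 0 < z.re} ∩ {z : ℂ | 0 < z.im})
      ∪ ({z : ℂ | 0 < z.re} ∩ {z : ℂ | z.im < 0}))
    (t := ({z : ℂ | 0 < z.re} ∩ {z : ℂ | z.re < 1})) (by simp) (by norm_num) h2 hT
  convert h3 using 1
  ext z
  simp only [Set.mem_ofPred_eq, Set.mem_union, Set.mem_inter_iff]
  constructor
  · rintro ⟨h4, h5⟩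
    rcases lt_trichotomy z.im 0 with h6 | h6 | h6
    · exact Or.inl (Or.inr ⟨h4, h6⟩)
    · rcases lt_trichotomy z.re 1 with h7 | h7 | h7
      · exact Or.inr ⟨h4, h7⟩
      · exact absurd (Complex.ext (by simpa using h7) (by simpa using h6)) h5
      · exact Or.inl (Or.inl (Or.inl h7))
    · exact Or.inl (Or.inl (Or.inr ⟨h4, h6⟩))
  · rintro (((h4 | ⟨h4, h5⟩) | ⟨h4, h5⟩) | ⟨h4, h5⟩)
    · refine ⟨by linarith, ?_⟩
      rintro rfl
      simp at h4
    · refine ⟨h4, ?_⟩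
      rintro rfl
      simp at h5
    · refine ⟨h4, ?_⟩
      rintro rfl
      simp at h5
    · refine ⟨h4, ?_⟩
      rintro rfl
      simp at h5

/-! ### the error term of the partial sums -/

private lemma lap_rho_nonneg {q : ℕ} [NeZero q] (χ : DirichletCharacter ℂ q) : 0 ≤ rho χ := by
  unfold rho
  split_ifs <;> positivity

private lemma lap_rho_le {q : ℕ} [NeZero q] (χ : DirichletCharacter ℂ q) : rho χ ≤ 1 := by
  unfold rho
  split_ifs
  · have hq : (0 : ℝ) < q := by exact_mod_cast Nat.pos_of_ne_zero (NeZero.ne q)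
    rw [div_le_one hq]
    exact_mod_cast Nat.totient_le q
  · exact zero_le_one

private lemma lap_sum_char {q : ℕ} [NeZero q] (χ : DirichletCharacter ℂ q) :
    ∑ x : ZMod q, (χ x - (rho χ : ℂ)) = 0 := by
  have hq : (q : ℂ) ≠ 0 := by exact_mod_cast NeZero.ne q
  rw [sum_sub_distrib, sum_const, card_univ, ZMod.card, nsmul_eq_mul]
  by_cases h : χ = 1
  · have h1 : rho χ = (q.totient : ℝ) / q := by
      unfold rho
      rw [if_pos h]
    rw [h1, h, MulChar.sum_one_eq_card_units, ZMod.card_units_eq_totient]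
    push_cast
    field_simp
    ring
  · have h1 : rho χ = 0 := by
      unfold rho
      rw [if_neg h]
    rw [h1, MulChar.sum_eq_zero_of_ne_one h]
    simp

private lemma lap_term_le {q : ℕ} [NeZero q] (χ : DirichletCharacter ℂ q) (x : ZMod q) :
    ‖χ x - (rho χ : ℂ)‖ ≤ 1 := by
  have hr0 := lap_rho_nonneg χ
  have hr1 := lap_rho_le χ
  by_cases h : χ = 1
  · have h2 : χ x = 1 ∨ χ x = 0 := by
      rw [h]
      by_cases hu : IsUnit x
      · left
        exact MulChar.one_apply hu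
      · right
        exact MulChar.map_nonunit _ hu
    rcases h2 with h2 | h2
    · rw [h2]
      have e : (1 : ℂ) - (rho χ : ℂ) = ((1 - rho χ : ℝ) : ℂ) := by push_cast; ring
      rw [e, Complex.norm_real, Real.norm_eq_abs, abs_of_nonneg (by linarith)]
      linarith
    · rw [h2, zero_sub, norm_neg, Complex.norm_real, Real.norm_eq_abs, abs_of_nonneg hr0]
      exact hr1
  · have h1 : rho χ = 0 := by
      unfold rho
      rw [if_neg h]
    rw [h1]
    simpa using χ.norm_le_one x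

/-- `E(u) = S(u) - ρ u` -/
private noncomputable def lapE {q : ℕ} (χ : DirichletCharacter ℂ q) (t : ℝ) : ℂ :=
  S (fun n : ℕ => χ n) t - (rho χ : ℂ) * t

private lemma lapE_nat {q : ℕ} [NeZero q] (χ : DirichletCharacter ℂ q) (n : ℕ) :
    ‖lapE χ n‖ ≤ q := by
  have h := Pool.Agent.H92.SW.norm_sum_Icc_le_period (fun x : ZMod q => χ x - (rho χ : ℂ))
    (lap_sum_char χ) (lap_term_le χ) n
  unfold lapE S
  rw [Nat.floor_natCast]
  rw [sum_sub_distrib, sum_const, Nat.card_Icc, Nat.add_sub_cancel, nsmul_eq_mul] at h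
  have e : (rho χ : ℂ) * ((n : ℝ) : ℂ) = (n : ℂ) * (rho χ : ℂ) := by
    push_cast
    ring
  rw [e]
  exact h

private lemma lapE_le {q : ℕ} [NeZero q] (χ : DirichletCharacter ℂ q) (t : ℝ) (ht : 0 ≤ t) :
    ‖lapE χ t‖ ≤ 2 * q := by
  have h1 := lapE_nat χ ⌊t⌋₊
  have hr0 := lap_rho_nonneg χ
  have hr1 := lap_rho_le χ
  have hq : (1 : ℝ) ≤ q := by exact_mod_cast Nat.one_le_iff_ne_zero.2 (NeZero.ne q)
  have e : lapE χ t = lapE χ ⌊t⌋₊ - ((rho χ * (t - ⌊t⌋₊) : ℝ) : ℂ) := by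
    unfold lapE S
    rw [Nat.floor_natCast]
    push_cast
    ring
  rw [e]
  have h2 : ‖((rho χ * (t - ⌊t⌋₊) : ℝ) : ℂ)‖ ≤ 1 := by
    rw [Complex.norm_real, Real.norm_eq_abs, abs_mul, abs_of_nonneg hr0]
    have h3 : |t - ⌊t⌋₊| ≤ 1 := by
      rw [abs_of_nonneg (by linarith [Nat.floor_le ht])]
      linarith [Nat.lt_floor_add_one t]
    calc rho χ * |t - ⌊t⌋₊| ≤ 1 * 1 := mul_le_mul hr1 h3 (abs_nonneg _) zero_le_one
      _ = 1 := one_mul 1
  calc ‖lapE χ ⌊t⌋₊ - ((rho χ * (t - ⌊t⌋₊) : ℝ) : ℂ)‖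
      ≤ ‖lapE χ ⌊t⌋₊‖ + ‖((rho χ * (t - ⌊t⌋₊) : ℝ) : ℂ)‖ := norm_sub_le _ _
    _ ≤ 2 * q := by linarith

private lemma lap_measurable_S (f : ℕ → ℂ) : Measurable (S f) := by
  have h1 : Measurable (fun n : ℕ => ∑ k ∈ Icc 1 n, f k) := measurable_from_nat
  exact h1.comp Nat.measurable_floor

private lemma lapE_measurable {q : ℕ} (χ : DirichletCharacter ℂ q) : Measurable (lapE χ) := by
  unfold lapE
  exact (lap_measurable_S _).sub (measurable_const.mul Complex.measurable_ofReal)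

/-- `E(u)` cut off at `M` -/
private noncomputable def lapF {q : ℕ} (χ : DirichletCharacter ℂ q) (M : ℕ) : ℝ → ℂ :=
  Set.indicator (Set.Ici (M : ℝ)) (lapE χ)

private lemma lapF_le {q : ℕ} [NeZero q] (χ : DirichletCharacter ℂ q) (M : ℕ) (t : ℝ) :
    ‖lapF χ M t‖ ≤ 2 * q := by
  unfold lapF
  by_cases h : t ∈ Set.Ici (M : ℝ)
  · rw [Set.indicator_of_mem h]
    exact lapE_le χ t (le_trans (Nat.cast_nonneg M) h)
  · rw [Set.indicator_of_notMem h, norm_zero]
    positivity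

private lemma lapF_mellin {q : ℕ} (χ : DirichletCharacter ℂ q) (M : ℕ) (hM : 1 ≤ M) (s : ℂ) :
    mellin (lapF χ M) (-s) = ∫ t in Set.Ioi (M : ℝ), lapE χ t * (t : ℂ) ^ (-(s + 1)) := by
  have hM0 : (0 : ℝ) < M := by exact_mod_cast hM
  unfold mellin
  have h1 : ∀ t ∈ Set.Ici (M : ℝ), (t : ℂ) ^ (-s - 1) • lapF χ M t
      = lapE χ t * (t : ℂ) ^ (-(s + 1)) := by
    intro t ht
    unfold lapF
    rw [Set.indicator_of_mem ht, smul_eq_mul, mul_comm]
    congr 2
    ring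
  rw [← integral_Ici_eq_integral_Ioi (x := (M : ℝ)), ← setIntegral_congr_fun measurableSet_Ici h1]
  refine setIntegral_eq_of_subset_of_forall_sdiff_eq_zero measurableSet_Ioi ?_ ?_
  · intro t ht
    exact hM0.trans_le (show (M : ℝ) ≤ t from ht)
  · intro t ht
    unfold lapF
    rw [Set.indicator_of_notMem ht.2, smul_zero]

private lemma lapF_diff {q : ℕ} [NeZero q] (χ : DirichletCharacter ℂ q) (M : ℕ) (hM : 1 ≤ M)
    {s : ℂ} (hs : 0 < s.re) : DifferentiableAt ℂ (fun s => mellin (lapF χ M) (-s)) s := by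
  have hM0 : (0 : ℝ) < M := by exact_mod_cast hM
  have h : DifferentiableAt ℂ (mellin (lapF χ M)) (-s) := by
    refine mellin_differentiableAt_of_isBigO_rpow (a := 0) (b := -s.re - 1) ?_ ?_
      (by simpa using hs) ?_ (by simp)
    · have h1 : LocallyIntegrable (lapF χ M) := by
        refine (locallyIntegrable_const (2 * q : ℝ)).mono
          ((lapE_measurable χ).indicator measurableSet_Ici).aestronglyMeasurable ?_
        refine Eventually.of_forall (fun t => (lapF_le χ M t).trans ?_)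
        exact le_abs_self _
      exact h1.locallyIntegrableOn _
    · refine Asymptotics.IsBigO.of_bound (2 * q) (Eventually.of_forall fun t => ?_)
      simpa using lapF_le χ M t
    · refine Asymptotics.IsBigO.of_bound 1 ?_
      filter_upwards [Ioo_mem_nhdsGT hM0] with t ht
      have hn : t ∉ Set.Ici (M : ℝ) := fun h => absurd ht.2 (not_lt.2 h)
      unfold lapF
      rw [Set.indicator_of_notMem hn]
      simp
  exact h.comp s differentiableAt_id.neg

private lemma lap_int_E {q : ℕ} [NeZero q] (χ : DirichletCharacter ℂ q) (M : ℕ) (hM : 1 ≤ M)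
    {s : ℂ} (hs : 0 < s.re) :
    IntegrableOn (fun t : ℝ => lapE χ t * (t : ℂ) ^ (-(s + 1))) (Set.Ioi (M : ℝ)) ∧
      ‖∫ t in Set.Ioi (M : ℝ), lapE χ t * (t : ℂ) ^ (-(s + 1))‖
        ≤ 2 * q * ((M : ℝ) ^ (-s.re) / s.re) := by
  have hM0 : (0 : ℝ) < M := by exact_mod_cast hM
  have hb : ∀ t ∈ Set.Ioi (M : ℝ), ‖lapE χ t * (t : ℂ) ^ (-(s + 1))‖ ≤
      2 * q * t ^ (-s.re - 1) := by
    intro t ht
    have ht0 : 0 < t := hM0.trans ht
    rw [norm_mul, norm_cpow_eq_rpow_re_of_pos ht0]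
    have e : (-(s + 1)).re = -s.re - 1 := by simp; ring
    rw [e]
    exact mul_le_mul_of_nonneg_right (lapE_le χ t ht0.le) (by positivity)
  have hint : IntegrableOn (fun t : ℝ => (2 * q : ℝ) * t ^ (-s.re - 1)) (Set.Ioi (M : ℝ)) :=
    (integrableOn_Ioi_rpow_of_lt (by linarith) hM0).const_mul _
  have hae : ∀ᵐ t ∂(volume.restrict (Set.Ioi (M : ℝ))),
      ‖lapE χ t * (t : ℂ) ^ (-(s + 1))‖ ≤ 2 * q * t ^ (-s.re - 1) :=
    (ae_restrict_iff' measurableSet_Ioi).mpr (Eventually.of_forall hb)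
  constructor
  · refine Integrable.mono' hint ?_ hae
    have hm : Measurable (fun t : ℝ => (t : ℂ) ^ (-(s + 1))) :=
      Complex.measurable_ofReal.pow_const _
    exact ((lapE_measurable χ).mul hm).aestronglyMeasurable
  · refine (norm_integral_le_of_norm_le hint hae).trans (le_of_eq ?_)
    rw [integral_const_mul, integral_Ioi_rpow_of_lt (by linarith) hM0]
    have e : -s.re - 1 + 1 = -s.re := by ring
    rw [e, neg_div_neg_eq]

/-! ### the identity to the right of 1 -/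

private noncomputable def lapc {q : ℕ} (χ : DirichletCharacter ℂ q) (M : ℕ) (n : ℕ) : ℂ :=
  if M < n then χ n else 0

private lemma lapc_S {q : ℕ} (χ : DirichletCharacter ℂ q) (M : ℕ) (t : ℝ) (ht : 0 ≤ t) :
    ∑ k ∈ Icc 1 ⌊t⌋₊, lapc χ M k =
      Set.indicator (Set.Ici (M : ℝ)) (fun t => S (fun n : ℕ => χ n) t
        - S (fun n : ℕ => χ n) M) t := by
  unfold lapc S
  rw [← sum_filter]
  by_cases h : t ∈ Set.Ici (M : ℝ)
  · rw [Set.indicator_of_mem h, Nat.floor_natCast]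
    have hM : M ≤ ⌊t⌋₊ := Nat.le_floor h
    have e : Icc 1 ⌊t⌋₊ = Icc 1 M ∪ (Icc 1 ⌊t⌋₊).filter (fun k => M < k) := by
      ext k
      simp only [mem_Icc, mem_union, mem_filter]
      omega
    have hd : Disjoint (Icc 1 M) ((Icc 1 ⌊t⌋₊).filter (fun k => M < k)) := by
      rw [disjoint_left]
      intro k hk hk2
      simp only [mem_Icc, mem_filter] at hk hk2
      omega
    conv_rhs => rw [e, sum_union hd]
    ring
  · rw [Set.indicator_of_notMem h]
    apply sum_eq_zero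
    intro k hk
    exfalso
    simp only [mem_Icc, mem_filter] at hk
    have h1 : (k : ℝ) ≤ t := (Nat.le_floor_iff ht).1 hk.1.2
    have h2 : (M : ℝ) < k := by exact_mod_cast hk.2
    exact h (show (M : ℝ) ≤ t by linarith)

private lemma lapc_LSeries {q : ℕ} [NeZero q] (χ : DirichletCharacter ℂ q) (M : ℕ) {s : ℂ}
    (hs : 1 < s.re) : LSeriesSummable (lapc χ M) s ∧
      χ.LFunction s = ∑ n ∈ Icc 1 M, χ n * (n : ℂ) ^ (-s) + LSeries (lapc χ M) s := by
  have h1 : LSeriesSummable (fun n : ℕ => χ n) s :=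
    DirichletCharacter.LSeriesSummable_of_one_lt_re χ hs
  have h2 : LSeriesSummable (lapc χ M) s := by
    refine (LSeriesSummable_congr' s ?_).1 h1
    filter_upwards [eventually_gt_atTop M] with n hn
    unfold lapc
    rw [if_pos hn]
  refine ⟨h2, ?_⟩
  rw [DirichletCharacter.LFunction_eq_LSeries χ hs]
  have h3 : LSeries (fun n : ℕ => χ n) s - LSeries (lapc χ M) s
      = ∑ n ∈ Icc 1 M, χ n * (n : ℂ) ^ (-s) := by
    unfold LSeries
    rw [← h1.tsum_sub h2]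
    rw [tsum_eq_sum (s := Icc 1 M)]
    · refine sum_congr rfl (fun n hn => ?_)
      obtain ⟨hn1, hn2⟩ := mem_Icc.1 hn
      have hn0 : n ≠ 0 := by omega
      rw [LSeries.term_of_ne_zero hn0, LSeries.term_of_ne_zero hn0]
      unfold lapc
      rw [if_neg (by omega), zero_div, sub_zero, cpow_neg, div_eq_mul_inv]
    · intro n hn
      rcases Nat.eq_zero_or_pos n with rfl | hn0
      · simp
      · have hn1 : M < n := by
          by_contra h
          exact hn (mem_Icc.2 ⟨hn0, not_lt.1 h⟩)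
        rw [LSeries.term_of_ne_zero hn0.ne', LSeries.term_of_ne_zero hn0.ne']
        unfold lapc
        rw [if_pos hn1, sub_self]
  linear_combination h3

private lemma lap_right {q : ℕ} [NeZero q] (χ : DirichletCharacter ℂ q) (M : ℕ) (hM : 1 ≤ M)
    {s : ℂ} (hs : 1 < s.re) :
    χ.LFunction s = ∑ n ∈ Icc 1 M, χ n * (n : ℂ) ^ (-s) +
      (rho χ : ℂ) * (M : ℂ) ^ (1 - s) / (s - 1) - lapE χ M * (M : ℂ) ^ (-s) +
        s * mellin (lapF χ M) (-s) := by
  have hM0 : (0 : ℝ) < M := by exact_mod_cast hM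
  have hMC : (M : ℂ) ≠ 0 := by exact_mod_cast hM0.ne'
  have hs0 : s ≠ 0 := by
    rintro rfl
    simp at hs
    linarith
  have hs1 : s - 1 ≠ 0 := by
    intro h
    have : s = 1 := by linear_combination h
    rw [this] at hs
    simp at hs
  obtain ⟨h2, h3⟩ := lapc_LSeries χ M hs
  rw [h3]
  have h4 : LSeries (lapc χ M) s = s * ∫ t in Set.Ioi (1 : ℝ),
      (∑ k ∈ Icc 1 ⌊t⌋₊, lapc χ M k) * (t : ℂ) ^ (-(s + 1)) := by
    refine LSeries_eq_mul_integral (lapc χ M) (r := 1) zero_le_one hs h2 ?_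
    refine Asymptotics.IsBigO.of_bound 1 (Eventually.of_forall fun n => ?_)
    rw [one_mul, Real.rpow_one, Real.norm_natCast]
    refine (norm_sum_le _ _).trans ((sum_le_sum (g := fun _ => (1 : ℝ)) fun k _ => ?_).trans ?_)
    · unfold lapc
      split_ifs
      · exact χ.norm_le_one _
      · simp
    · simp
  have h5 : ∫ t in Set.Ioi (1 : ℝ), (∑ k ∈ Icc 1 ⌊t⌋₊, lapc χ M k) * (t : ℂ) ^ (-(s + 1))
      = ∫ t in Set.Ioi (M : ℝ), (S (fun n : ℕ => χ n) t - S (fun n : ℕ => χ n) M)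
          * (t : ℂ) ^ (-(s + 1)) := by
    have hM1 : (1 : ℝ) ≤ M := by exact_mod_cast hM
    symm
    have h6 : ∀ t ∈ Set.Ioi (M : ℝ), (S (fun n : ℕ => χ n) t - S (fun n : ℕ => χ n) M)
          * (t : ℂ) ^ (-(s + 1))
          = (∑ k ∈ Icc 1 ⌊t⌋₊, lapc χ M k) * (t : ℂ) ^ (-(s + 1)) := by
      intro t ht
      have ht' : t ∈ Set.Ici (M : ℝ) := le_of_lt (show (M : ℝ) < t from ht)
      rw [lapc_S χ M t (hM0.trans ht).le, Set.indicator_of_mem ht']
    rw [setIntegral_congr_fun measurableSet_Ioi h6]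
    refine setIntegral_eq_of_subset_of_forall_sdiff_eq_zero measurableSet_Ioi ?_ ?_ |>.symm
    · intro t ht
      exact lt_of_le_of_lt hM1 ht
    · intro t ht
      have ht1 : (1 : ℝ) < t := ht.1
      have htM : t ≤ M := not_lt.1 ht.2
      rcases htM.lt_or_eq with h7 | h7
      · have hn : t ∉ Set.Ici (M : ℝ) := fun h => absurd h7 (not_lt.2 h)
        rw [lapc_S χ M t (by linarith), Set.indicator_of_notMem hn, zero_mul]
      · have hn : t ∈ Set.Ici (M : ℝ) := h7.ge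
        rw [lapc_S χ M t (by linarith), Set.indicator_of_mem hn, h7, sub_self, zero_mul]
  have h6 : ∀ t ∈ Set.Ioi (M : ℝ), (S (fun n : ℕ => χ n) t - S (fun n : ℕ => χ n) M)
          * (t : ℂ) ^ (-(s + 1)) = lapE χ t * (t : ℂ) ^ (-(s + 1))
            + ((rho χ : ℂ) * (t : ℂ) ^ (-s) - S (fun n : ℕ => χ n) M * (t : ℂ) ^ (-(s + 1))) := by
    intro t ht
    have ht0 : (t : ℂ) ≠ 0 := by exact_mod_cast (hM0.trans ht).ne'
    have e : (t : ℂ) ^ (-s) = t * (t : ℂ) ^ (-(s + 1)) := by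
      have e1 : -s = 1 + (-(s + 1)) := by ring
      conv_lhs => rw [e1, cpow_add _ _ ht0, cpow_one]
    rw [e]
    unfold lapE
    ring
  have hsre : 0 < s.re := by linarith
  obtain ⟨i1, -⟩ := lap_int_E χ M hM hsre
  have i2 : IntegrableOn (fun t : ℝ => (t : ℂ) ^ (-s)) (Set.Ioi (M : ℝ)) :=
    integrableOn_Ioi_cpow_of_lt (by simp; linarith) hM0
  have i3 : IntegrableOn (fun t : ℝ => (t : ℂ) ^ (-(s + 1))) (Set.Ioi (M : ℝ)) :=
    integrableOn_Ioi_cpow_of_lt (by simp; linarith) hM0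
  have h7 : ∫ t in Set.Ioi (M : ℝ), (t : ℂ) ^ (-s) = (M : ℂ) ^ (1 - s) / (s - 1) := by
    rw [integral_Ioi_cpow_of_lt (by simp; linarith) hM0]
    have e1 : -s + 1 = 1 - s := by ring
    rw [e1]
    have e2 : (1 : ℂ) - s = -(s - 1) := by ring
    rw [show (((M : ℝ) : ℂ)) = (M : ℂ) by push_cast; rfl]
    rw [neg_div, ← div_neg]
    congr 1
    ring
  have h8 : ∫ t in Set.Ioi (M : ℝ), (t : ℂ) ^ (-(s + 1)) = (M : ℂ) ^ (-s) / s := by
    rw [integral_Ioi_cpow_of_lt (by simp; linarith) hM0]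
    have e1 : -(s + 1) + 1 = -s := by ring
    rw [e1]
    rw [show (((M : ℝ) : ℂ)) = (M : ℂ) by push_cast; rfl]
    rw [neg_div, ← div_neg, neg_neg]
  have i23 : IntegrableOn (fun t : ℝ => (rho χ : ℂ) * (t : ℂ) ^ (-s)
      - S (fun n : ℕ => χ n) M * (t : ℂ) ^ (-(s + 1))) (Set.Ioi (M : ℝ)) :=
    (i2.const_mul _).sub (i3.const_mul _)
  rw [h4, h5, setIntegral_congr_fun measurableSet_Ioi h6, integral_add i1 i23,
    integral_sub (i2.const_mul _) (i3.const_mul _), integral_const_mul, integral_const_mul, h7, h8,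
    lapF_mellin χ M hM]
  have e3 : S (fun n : ℕ => χ n) (M : ℝ) = lapE χ M + (rho χ : ℂ) * M := by
    unfold lapE
    push_cast
    ring
  have e4 : (M : ℂ) ^ (1 - s) = M * (M : ℂ) ^ (-s) := by
    rw [sub_eq_add_neg, cpow_add _ _ hMC, cpow_one]
  rw [e3, e4]
  field_simp
  ring

theorem lap {q : ℕ} [NeZero q] (χ : DirichletCharacter ℂ q) (s : ℂ) (hs : 0 < s.re) (hs1 : s ≠ 1)
    (M : ℕ) (hM : 1 ≤ M) :
    ‖χ.LFunction s - ∑ n ∈ Icc 1 M, χ n * (n : ℂ) ^ (-s) -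
        (rho χ : ℂ) * (M : ℂ) ^ (1 - s) / (s - 1)‖ ≤
      4 * q * ‖s‖ * (M : ℝ) ^ (-s.re) / s.re := by
  have hM0 : (0 : ℝ) < M := by exact_mod_cast hM
  have hMC : (M : ℂ) ≠ 0 := by exact_mod_cast hM0.ne'
  have hopen : IsOpen {z : ℂ | 0 < z.re ∧ z ≠ 1} :=
    (isOpen_lt continuous_const continuous_re).inter isOpen_ne
  have h1 : AnalyticOnNhd ℂ χ.LFunction {z : ℂ | 0 < z.re ∧ z ≠ 1} :=
    DifferentiableOn.analyticOnNhd
      (fun z hz => (DirichletCharacter.differentiableAt_LFunction χ z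
        (Or.inl hz.2)).differentiableWithinAt) hopen
  have hcp : ∀ (a : ℂ) (ha : a ≠ 0) (z : ℂ), DifferentiableAt ℂ (fun z : ℂ => a ^ (-z)) z :=
    fun a ha z => differentiableAt_id.neg.const_cpow (Or.inl ha)
  have h2 : AnalyticOnNhd ℂ (fun s => ∑ n ∈ Icc 1 M, χ n * (n : ℂ) ^ (-s) +
      (rho χ : ℂ) * (M : ℂ) ^ (1 - s) / (s - 1) - lapE χ M * (M : ℂ) ^ (-s) +
        s * mellin (lapF χ M) (-s)) {z : ℂ | 0 < z.re ∧ z ≠ 1} := by
    refine DifferentiableOn.analyticOnNhd (fun z hz => DifferentiableAt.differentiableWithinAt ?_)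
      hopen
    have d1 : DifferentiableAt ℂ (fun s : ℂ => ∑ n ∈ Icc 1 M, χ n * (n : ℂ) ^ (-s)) z := by
      refine DifferentiableAt.fun_sum (fun n hn => ?_)
      have hn0 : (n : ℂ) ≠ 0 := by
        have := (mem_Icc.1 hn).1
        exact_mod_cast (show n ≠ 0 by omega)
      exact (hcp n hn0 z).const_mul _
    have d2 : DifferentiableAt ℂ (fun s : ℂ => (rho χ : ℂ) * (M : ℂ) ^ (1 - s) / (s - 1)) z := by
      refine DifferentiableAt.div ?_ (differentiableAt_id.sub_const 1) (sub_ne_zero.2 hz.2)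
      exact ((differentiableAt_const 1).sub differentiableAt_id).const_cpow (Or.inl hMC)
        |>.const_mul _
    have d3 : DifferentiableAt ℂ (fun s : ℂ => lapE χ M * (M : ℂ) ^ (-s)) z :=
      (hcp M hMC z).const_mul _
    have d4 : DifferentiableAt ℂ (fun s : ℂ => s * mellin (lapF χ M) (-s)) z :=
      differentiableAt_id.mul (lapF_diff χ M hM hz.1)
    exact ((d1.add d2).sub d3).add d4
  have h3 : χ.LFunction s = ∑ n ∈ Icc 1 M, χ n * (n : ℂ) ^ (-s) +
      (rho χ : ℂ) * (M : ℂ) ^ (1 - s) / (s - 1) - lapE χ M * (M : ℂ) ^ (-s) +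
        s * mellin (lapF χ M) (-s) := by
    refine h1.eqOn_of_preconnected_of_eventuallyEq h2 lap_preconn (z₀ := 2) ?_ ?_ ⟨hs, hs1⟩
    · refine ⟨by simp, by norm_num⟩
    · have hmem : {z : ℂ | 1 < z.re} ∈ 𝓝 (2 : ℂ) :=
        (isOpen_lt continuous_const continuous_re).mem_nhds (by simp)
      filter_upwards [hmem] with z hz
      exact lap_right χ M hM hz
  have h4 : χ.LFunction s - ∑ n ∈ Icc 1 M, χ n * (n : ℂ) ^ (-s) -
        (rho χ : ℂ) * (M : ℂ) ^ (1 - s) / (s - 1) =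
        s * mellin (lapF χ M) (-s) - lapE χ M * (M : ℂ) ^ (-s) := by
    rw [h3]
    ring
  have hsre : s.re ≤ ‖s‖ := (le_abs_self _).trans (abs_re_le_norm s)
  have h5 : ‖s * mellin (lapF χ M) (-s)‖ ≤ ‖s‖ * (2 * q * ((M : ℝ) ^ (-s.re) / s.re)) := by
    rw [norm_mul, lapF_mellin χ M hM]
    exact mul_le_mul_of_nonneg_left (lap_int_E χ M hM hs).2 (norm_nonneg _)
  have h6 : ‖lapE χ M * (M : ℂ) ^ (-s)‖ ≤ q * (M : ℝ) ^ (-s.re) := by
    rw [norm_mul]
    have e : ‖(M : ℂ) ^ (-s)‖ = (M : ℝ) ^ (-s.re) := by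
      rw [show (M : ℂ) = ((M : ℝ) : ℂ) by push_cast; rfl, norm_cpow_eq_rpow_re_of_pos hM0]
      simp
    rw [e]
    exact mul_le_mul_of_nonneg_right (lapE_nat χ M) (by positivity)
  rw [h4]
  refine (norm_sub_le _ _).trans ((add_le_add h5 h6).trans ?_)
  have hA : 0 ≤ (q : ℝ) * (M : ℝ) ^ (-s.re) := by positivity
  have h7 : (q : ℝ) * (M : ℝ) ^ (-s.re) ≤ ‖s‖ * (q * (M : ℝ) ^ (-s.re)) / s.re := by
    rw [le_div_iff₀ hs]
    nlinarith
  have h8 : 4 * q * ‖s‖ * (M : ℝ) ^ (-s.re) / s.re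
      = 4 * (‖s‖ * (q * (M : ℝ) ^ (-s.re)) / s.re) := by ring
  have h9 : ‖s‖ * (2 * q * ((M : ℝ) ^ (-s.re) / s.re))
      = 2 * (‖s‖ * (q * (M : ℝ) ^ (-s.re)) / s.re) := by ring
  have h10 : 0 ≤ ‖s‖ * (q * (M : ℝ) ^ (-s.re)) / s.re := by positivity
  rw [h8, h9]
  linarith

end Pool.Agent.H43.LF
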