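import Pool.Agent.H43.LF.Inv

/-!
# [H43 LF MUD] The series of `μ(n) χ(n) (log n)^j n^(-s)`

`‖Σ μ(n) χ(n) (log n)^j n^(-s)‖ <= C (log(|Im s|+3))^(12+0.95 j)` for `1 < Re s <= 2`, `C = C(q,j)`.

PROOF. For `Re s > 1` `Σ μ(n)χ(n)n^(-s) = 1/L(s,χ) =: G(s)`
(`DirichletCharacter.LSeries.mul_mu_eq_one`, `DirichletCharacter.LFunction_eq_LSeries`), and the series
in question is `(-1)^j G^(j)(s)` (`LSeries_iteratedDeriv`; see H92/SW/LogDer.lean `ld_series_eq` for
exactly this computation with `Λ`).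
(a) `|Im s| >= 2 T3`: `ℓ = log|Im s|`. On the ball of radius `r = ℓ^(-0.94)/4` around `s`:
`Re >= 1 - r >= 1 - (log|Im|)^(-0.94)`, `|Im| >= T3`, so `G` is analytic there and
`|G| <= (2ℓ)^12`; Cauchy (`Complex.norm_iteratedDeriv_le_of_forall_mem_sphere_norm_le`):
`|G^(j)(s)| <= j! (2ℓ)^12 4^j ℓ^(0.94j) <= C ℓ^(12+0.95j)`.
(b) `|Im s| <= 2 T3`, `1 < Re s <= 2`: `G` extends analytically to a neighbourhood of the compact set
`K = [1,2] × [-2T3, 2T3]`: at every point `s ≠ 1` with `Re s >= 1` `L(s,χ) ≠ 0`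
(`DirichletCharacter.LFunction_ne_zero_of_one_le_re`) and `L` is analytic; near `s = 1` if `χ = 1`:
`L(s,χ) = F(s)/(s-1)` with `F` analytic, `F(1) ≠ 0` (`DirichletCharacter.LFunctionTrivChar`,
`LFunctionTrivChar₁`; `riemannZeta` residue), so `G(s) = (s-1)/F(s)`; if `χ ≠ 1`: `L(1,χ) ≠ 0`
(`DirichletCharacter.LFunction_apply_one_ne_zero`). Let `Ĝ` be the extension; `Ĝ^(j)` is continuous on
`K`, hence bounded, and it equals `G^(j)` at the points with `Re s > 1` (open condition).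
`log(|Im s|+3) >= 1`. There are finitely many characters mod `q`, so the constants can be chosen
uniformly (`Finset.univ` over `DirichletCharacter ℂ q`, which is a finite type).
-/

namespace Pool.Agent.H43.LF

open Complex Filter Topology

/-- the inverse of the L-function, extended to the point 1 -/
private noncomputable def GG {q : ℕ} [NeZero q] (χ : DirichletCharacter ℂ q) : ℂ → ℂ :=
  open Classical in
  if χ = 1 then fun s => (s - 1) / DirichletCharacter.LFunctionTrivChar₁ q s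
    else fun s => (χ.LFunction s)⁻¹

private theorem GG_eq {q : ℕ} [NeZero q] (χ : DirichletCharacter ℂ q) {s : ℂ} (hs : s ≠ 1) :
    GG χ s = (χ.LFunction s)⁻¹ := by
  classical
  unfold GG
  by_cases h : χ = 1
  · rw [if_pos h, DirichletCharacter.LFunctionTrivChar₁, Function.update_of_ne hs,
      div_mul_cancel_left₀ (sub_ne_zero_of_ne hs), h]
  · rw [if_neg h]

private theorem GG_an {q : ℕ} [NeZero q] (χ : DirichletCharacter ℂ q) {s : ℂ}
    (hs : 1 ≤ s.re) : AnalyticAt ℂ (GG χ) s := by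
  classical
  unfold GG
  by_cases h : χ = 1
  · rw [if_pos h]
    have hF : AnalyticAt ℂ (DirichletCharacter.LFunctionTrivChar₁ q) s :=
      (DirichletCharacter.differentiable_LFunctionTrivChar₁ q).analyticAt s
    have hF0 : DirichletCharacter.LFunctionTrivChar₁ q s ≠ 0 := by
      rcases eq_or_ne s 1 with rfl | hs1
      · exact DirichletCharacter.LFunctionTrivChar₁_apply_one_ne_zero q
      · rw [DirichletCharacter.LFunctionTrivChar₁, Function.update_of_ne hs1, mul_ne_zero_iff]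
        exact ⟨sub_ne_zero_of_ne hs1, DirichletCharacter.LFunction_ne_zero_of_one_le_re _
          (Or.inr hs1) hs⟩
    exact (analyticAt_id.sub analyticAt_const).div hF hF0
  · rw [if_neg h]
    exact ((DirichletCharacter.differentiable_LFunction h).analyticAt s).inv
      (DirichletCharacter.LFunction_ne_zero_of_one_le_re _ (Or.inl h) hs)

/-- the series of the statement as an iterated derivative -/
private theorem mud_series {q : ℕ} [NeZero q] (χ : DirichletCharacter ℂ q) (j : ℕ) {s : ℂ}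
    (hs : 1 < s.re) :
    ‖∑' n : ℕ, ((ArithmeticFunction.moebius n : ℤ) : ℂ) * χ n * ((Real.log n) ^ j : ℝ) *
        (n : ℂ) ^ (-s)‖ = ‖iteratedDeriv j (GG χ) s‖ := by
  have hev : GG χ =ᶠ[𝓝 s]
      LSeries ((fun n : ℕ => χ n) * (fun n : ℕ => ((ArithmeticFunction.moebius n : ℤ) : ℂ))) := by
    have h : {z : ℂ | 1 < z.re} ∈ 𝓝 s :=
      (isOpen_lt continuous_const continuous_re).mem_nhds hs
    filter_upwards [h] with z hz
    have hz : 1 < z.re := hz
    have hz1 : z ≠ 1 := by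
      rintro rfl
      simp at hz
    have h1 := DirichletCharacter.LSeries.mul_mu_eq_one χ hz
    rw [GG_eq χ hz1, DirichletCharacter.LFunction_eq_LSeries χ hz]
    exact inv_eq_of_mul_eq_one_right h1
  rw [hev.iteratedDeriv_eq]
  have hab : LSeries.abscissaOfAbsConv
      ((fun n : ℕ => χ n) * (fun n : ℕ => ((ArithmeticFunction.moebius n : ℤ) : ℂ))) < s.re := by
    have hs1 : 1 < ((((1 + s.re) / 2 : ℝ)) : ℂ).re := by
      rw [ofReal_re]
      linarith
    have h1 := (DirichletCharacter.LSeriesSummable_mul χ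
      (ArithmeticFunction.LSeriesSummable_moebius_iff.mpr hs1)).abscissaOfAbsConv_le
    refine lt_of_le_of_lt h1 ?_
    rw [ofReal_re]
    exact_mod_cast (by linarith : (1 + s.re) / 2 < s.re)
  rw [LSeries_iteratedDeriv j hab, norm_mul, norm_pow, norm_neg, norm_one, one_pow, one_mul]
  have hlog : ∀ (m : ℕ) (f : ℕ → ℂ) (n : ℕ),
      (LSeries.logMul^[m] f) n = (Complex.log n) ^ m * f n := by
    intro m f n
    induction m with
    | zero => simp
    | succ m ih =>
      rw [Function.iterate_succ_apply']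
      show Complex.log n * (LSeries.logMul^[m] f) n = _
      rw [ih, pow_succ]
      ring
  congr 1
  unfold LSeries
  refine tsum_congr fun n => ?_
  rcases eq_or_ne n 0 with h0 | h0
  · subst h0
    simp
  · rw [LSeries.term_of_ne_zero h0, hlog, cpow_neg, Pi.mul_apply, ← Complex.natCast_log]
    push_cast
    field_simp

private theorem mud_compact {q : ℕ} [NeZero q] (χ : DirichletCharacter ℂ q) (j : ℕ) (T : ℝ) :
    ∃ C : ℝ, 0 ≤ C ∧ ∀ s : ℂ, 1 ≤ s.re → s.re ≤ 2 → |s.im| ≤ T →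
      ‖iteratedDeriv j (GG χ) s‖ ≤ C := by
  have hK : IsCompact (Set.Icc (1 : ℝ) 2 ×ℂ Set.Icc (-T) T) :=
    isCompact_Icc.reProdIm isCompact_Icc
  have hc : ContinuousOn (iteratedDeriv j (GG χ)) (Set.Icc (1 : ℝ) 2 ×ℂ Set.Icc (-T) T) := by
    intro s hs
    rw [Complex.mem_reProdIm] at hs
    have h1 : AnalyticAt ℂ (iteratedDeriv j (GG χ)) s := by
      rw [iteratedDeriv_eq_iterate]
      exact (GG_an χ hs.1.1).iterated_deriv j
    exact h1.continuousAt.continuousWithinAt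
  obtain ⟨C, hC⟩ := hK.exists_bound_of_continuousOn hc
  refine ⟨max C 0, le_max_right _ _, ?_⟩
  intro s h1 h2 h3
  refine (hC s ?_).trans (le_max_left _ _)
  rw [Complex.mem_reProdIm]
  exact ⟨⟨h1, h2⟩, abs_le.mp h3⟩

private theorem mud_far (q : ℕ) [NeZero q] (j : ℕ) : ∃ T C : ℝ, 0 < C ∧
    ∀ (χ : DirichletCharacter ℂ q) (s : ℂ), 1 < s.re → T ≤ |s.im| →
    ‖iteratedDeriv j (GG χ) s‖ ≤ C * (Real.log (|s.im| + 3)) ^ (12 + 0.95 * (j : ℝ)) := by
  obtain ⟨T3, hT3, hinv⟩ := inv q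
  refine ⟨2 * T3, (j.factorial : ℝ) * (2 ^ (12 : ℝ) * 4 ^ j), by positivity, ?_⟩
  intro χ s hs hT
  set ℓ := Real.log |s.im| with hℓ
  have him : 20 ≤ |s.im| := by linarith
  have hℓ1 : 1 ≤ ℓ := by
    rw [hℓ, Real.le_log_iff_exp_le (by linarith)]
    have := Real.exp_one_lt_d9
    linarith
  have hℓ0 : 0 < ℓ := by linarith
  set r : ℝ := ℓ ^ (-(0.94 : ℝ)) / 4 with hr
  have hr0 : 0 < r := by positivity
  have hp1 : ℓ ^ (-(0.94 : ℝ)) ≤ 1 := Real.rpow_le_one_of_one_le_of_nonpos hℓ1 (by norm_num)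
  have hr1 : r ≤ 1 := by rw [hr]; linarith
  have hw : ∀ w ∈ Metric.closedBall s r, w ≠ 1 ∧ χ.LFunction w ≠ 0 ∧
      ‖(χ.LFunction w)⁻¹‖ ≤ (2 * ℓ) ^ (12 : ℝ) := by
    intro w hw
    rw [Metric.mem_closedBall, dist_eq_norm] at hw
    have h1 : |(w - s).re| ≤ r := (Complex.abs_re_le_norm _).trans hw
    have h2 : |(w - s).im| ≤ r := (Complex.abs_im_le_norm _).trans hw
    rw [Complex.sub_re] at h1
    rw [Complex.sub_im] at h2
    have h3 : 1 - r ≤ w.re := by
      have := (abs_le.mp h1).1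
      linarith
    have h4 : |w.im| ≤ |s.im| + 1 := by
      have : |w.im| ≤ |s.im| + |w.im - s.im| := by
        have := abs_add_le s.im (w.im - s.im)
        simpa using this
      linarith
    have h5 : |s.im| - 1 ≤ |w.im| := by
      have : |s.im| ≤ |w.im| + |w.im - s.im| := by
        have h := abs_add_le w.im (s.im - w.im)
        rw [abs_sub_comm s.im w.im] at h
        simpa using h
      linarith
    have h6 : T3 ≤ |w.im| := by linarith
    have h7 : Real.log |w.im| ≤ 2 * ℓ := by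
      have h8 : |w.im| ≤ |s.im| ^ 2 := by nlinarith
      have h9 := Real.log_le_log (by linarith : 0 < |w.im|) h8
      rw [Real.log_pow] at h9
      push_cast at h9
      exact h9
    have h10 : 0 < Real.log |w.im| := Real.log_pos (by linarith)
    have h11 : 1 - (Real.log |w.im|) ^ (-(0.94 : ℝ)) ≤ w.re := by
      have h12 : (2 * ℓ) ^ (-(0.94 : ℝ)) ≤ (Real.log |w.im|) ^ (-(0.94 : ℝ)) :=
        Real.rpow_le_rpow_of_nonpos h10 h7 (by norm_num)
      have h13 : r ≤ (2 * ℓ) ^ (-(0.94 : ℝ)) := by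
        rw [Real.mul_rpow (by norm_num) hℓ0.le, hr]
        have h14 : (1 / 4 : ℝ) ≤ 2 ^ (-(0.94 : ℝ)) := by
          calc (1 / 4 : ℝ) ≤ 2 ^ (-(1 : ℝ)) := by rw [Real.rpow_neg_one]; norm_num
            _ ≤ 2 ^ (-(0.94 : ℝ)) := Real.rpow_le_rpow_of_exponent_le (by norm_num) (by norm_num)
        have h15 : 0 < ℓ ^ (-(0.94 : ℝ)) := by positivity
        nlinarith
      linarith
    obtain ⟨h16, h17⟩ := hinv χ w h6 h11
    refine ⟨?_, h16, h17.trans ?_⟩
    · rintro rfl
      simp at h6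
      linarith
    · exact Real.rpow_le_rpow h10.le h7 (by norm_num)
  have hdiff : DiffContOnCl ℂ (GG χ) (Metric.ball s r) := by
    apply DifferentiableOn.diffContOnCl
    rw [closure_ball s hr0.ne']
    intro w hwm
    obtain ⟨h1, h2, -⟩ := hw w hwm
    have h3 : (fun z => (χ.LFunction z)⁻¹) =ᶠ[𝓝 w] GG χ := by
      filter_upwards [isOpen_ne.mem_nhds h1] with z hz
      exact (GG_eq χ hz).symm
    have h4 : DifferentiableAt ℂ (fun z => (χ.LFunction z)⁻¹) w :=
      (DirichletCharacter.differentiableAt_LFunction χ w (Or.inl h1)).fun_inv h2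
    exact (h3.differentiableAt_iff.mp h4).differentiableWithinAt
  have hC := Complex.norm_iteratedDeriv_le_of_forall_mem_sphere_norm_le j hr0 hdiff
    (C := (2 * ℓ) ^ (12 : ℝ)) (fun z hz => by
      obtain ⟨h1, h2, h3⟩ := hw z (Metric.sphere_subset_closedBall hz)
      rw [GG_eq χ h1]
      exact h3)
  refine hC.trans ?_
  have hpow : (r ^ j)⁻¹ = 4 ^ j * ℓ ^ (0.94 * (j : ℝ)) := by
    rw [hr, div_pow, inv_div, ← Real.rpow_natCast (ℓ ^ (-(0.94 : ℝ))), ← Real.rpow_mul hℓ0.le,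
      div_eq_mul_inv, ← Real.rpow_neg hℓ0.le]
    congr 2
    ring
  rw [div_eq_mul_inv, hpow, Real.mul_rpow (by norm_num) hℓ0.le]
  have hcomb : (j.factorial : ℝ) * (2 ^ (12 : ℝ) * ℓ ^ (12 : ℝ)) * (4 ^ j * ℓ ^ (0.94 * (j : ℝ))) =
      (j.factorial : ℝ) * (2 ^ (12 : ℝ) * 4 ^ j) * ℓ ^ (12 + 0.94 * (j : ℝ)) := by
    rw [Real.rpow_add hℓ0]
    ring
  rw [hcomb]
  apply mul_le_mul_of_nonneg_left _ (by positivity)
  calc ℓ ^ (12 + 0.94 * (j : ℝ)) ≤ ℓ ^ (12 + 0.95 * (j : ℝ)) := by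
        apply Real.rpow_le_rpow_of_exponent_le hℓ1
        have : (0 : ℝ) ≤ j := by positivity
        linarith
    _ ≤ (Real.log (|s.im| + 3)) ^ (12 + 0.95 * (j : ℝ)) := by
        apply Real.rpow_le_rpow hℓ0.le _ (by positivity)
        exact Real.log_le_log (by linarith) (by linarith)

theorem mud (q : ℕ) [NeZero q] (j : ℕ) : ∃ C : ℝ, 0 < C ∧ ∀ (χ : DirichletCharacter ℂ q) (s : ℂ),
    1 < s.re → s.re ≤ 2 →
    ‖∑' n : ℕ, ((ArithmeticFunction.moebius n : ℤ) : ℂ) * χ n * ((Real.log n) ^ j : ℝ) *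
        (n : ℂ) ^ (-s)‖ ≤ C * (Real.log (|s.im| + 3)) ^ (12 + 0.95 * (j : ℝ)) := by
  classical
  obtain ⟨T, C1, hC1, hfar⟩ := mud_far q j
  choose C2 hC20 hC2 using fun χ : DirichletCharacter ℂ q => mud_compact χ j T
  refine ⟨C1 + ∑ χ : DirichletCharacter ℂ q, C2 χ, ?_, ?_⟩
  · have : 0 ≤ ∑ χ : DirichletCharacter ℂ q, C2 χ := Finset.sum_nonneg fun χ _ => hC20 χ
    linarith
  intro χ s hs hs2
  rw [mud_series χ j hs]
  have hsum : C2 χ ≤ ∑ χ : DirichletCharacter ℂ q, C2 χ :=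
    Finset.single_le_sum (f := C2) (fun χ _ => hC20 χ) (Finset.mem_univ χ)
  have hlog1 : 1 ≤ Real.log (|s.im| + 3) := by
    have h0 : 0 ≤ |s.im| := abs_nonneg _
    rw [Real.le_log_iff_exp_le (by linarith)]
    have := Real.exp_one_lt_d9
    linarith
  have hpow1 : 1 ≤ (Real.log (|s.im| + 3)) ^ (12 + 0.95 * (j : ℝ)) :=
    Real.one_le_rpow hlog1 (by positivity)
  rcases le_total T |s.im| with h | h
  · refine (hfar χ s hs h).trans ?_
    apply mul_le_mul_of_nonneg_right _ (by linarith)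
    have : 0 ≤ ∑ χ : DirichletCharacter ℂ q, C2 χ := Finset.sum_nonneg fun χ _ => hC20 χ
    linarith
  · refine (hC2 χ s hs.le hs2 h).trans ?_
    calc C2 χ ≤ C1 + ∑ χ : DirichletCharacter ℂ q, C2 χ := by linarith
      _ = (C1 + ∑ χ : DirichletCharacter ℂ q, C2 χ) * 1 := by ring
      _ ≤ _ := by
        apply mul_le_mul_of_nonneg_left hpow1
        have : 0 ≤ ∑ χ : DirichletCharacter ℂ q, C2 χ := Finset.sum_nonneg fun χ _ => hC20 χ
        linarith

end Pool.Agent.H43.LF
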